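import Pool.Agent.Lib.MP_c86c76_al.Ba.St
import Pool.Agent.Lib.MP_c86c76_al.G.Pol
import Pool.Agent.Lib.MP_c86c76_al.T.All

/-!
The homomorphism from the automorphisms that preserve the class of the boundary word onto a
subgroup of finite index of the mapping class group.
-/

set_option autoImplicit false

namespace Pool.Agent.MCG

open Set Topology Metric Pool.Agent.PT Pool.Agent.MG Pool.Agent.MB Pool.Agent.MT
open scoped unitInterval

variable {g : ℕ}

theorem cen_rr (hg : 0 < g) {w : FG g} (h : Commute w (rr g)) : ∃ m : ℤ, rr g ^ m = w := by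
  obtain ⟨-, -, c, hc⟩ := rwASt (2 * g) g rfl
  have hr : c.r = omega g (rr g) := by rw [omega_rr, Ctx.r, hc, Raw_ev]
  rcases cenA _ c (omega g w) (hr ▸ h.map (omega g)) with e | ⟨m, e⟩
  · have := c.full.2 (⟨0, by omega⟩, true)
    rw [e] at this
    exact absurd this List.not_mem_nil
  · exact ⟨m, (omega g).injective (by rw [map_zpow, ← hr]; exact e)⟩

theorem Near.fix (hg : 0 < g) {f : Surf g ≃ₜ Surf g} (h : Near f) : f (cc g) = cc g := by
  obtain ⟨u, a, b⟩ := h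
  exact u.injective ((b 0 (by rw [nm_zero hg]; norm_num)).trans a.fix.symm)

/-- The homeomorphisms that are isotopic, relative to the centre, to one that fixes a disc. -/
def nearG (hg : 0 < g) : Subgroup (Surf g ≃ₜ Surf g) where
  carrier := {f | Near f}
  one_mem' := ⟨1, IsoAt.one, fun _ _ => rfl⟩
  mul_mem' := by
    intro f f' hf ⟨u', a', b'⟩
    have e := Near.fix hg hf
    obtain ⟨u, a, b⟩ := hf
    refine ⟨u * (f * u' * f⁻¹), a.mul (a'.conj f e), fun z hz => ?_⟩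
    simp only [Homeomorph.mul_apply, Homeomorph.inv_apply, Homeomorph.symm_apply_apply]
    rw [b' z hz, b z hz]
  inv_mem' := by
    intro f hf
    have := compactSpace_surf hg
    have := (fibSt hg).2
    have e := Near.fix hg hf
    obtain ⟨u, a, b⟩ := hf
    refine ⟨f⁻¹ * u⁻¹ * f⁻¹⁻¹, a.inv.conj _ (f.symm_apply_eq.2 e.symm), fun z hz => ?_⟩
    simp only [inv_inv, Homeomorph.mul_apply, Homeomorph.inv_apply, Homeomorph.apply_symm_apply]
    rw [f.symm_apply_eq, u.symm_apply_eq, b z hz]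

theorem IsDual.ev (hg : 0 < g) {D : Surf g ≃ₜ Surf g} (hD : IsDual D) {x : Surf g} :
    x ∈ Ev g ↔ ∃ z, nm g z ≤ 1 / 2 ∧ x = D (pr g z) := by
  constructor
  · rintro ⟨k, a, b, h1, h2, h3, rfl⟩
    have i := hD.2 k a |b| (abs_nonneg b) h2 h3
    rcases abs_cases b with ⟨e, -⟩ | ⟨e, -⟩
    · refine ⟨_, ?_, by rw [← i.1, hD.1, e]⟩
      rw [nm_pt hg (abs_le.2 ⟨by linarith, by linarith⟩)]; linarith
    · refine ⟨_, ?_, by rw [← i.2, hD.1, e, neg_neg]⟩
      rw [nm_pt hg (abs_le.2 ⟨by linarith, by linarith⟩)]; linarith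
  · rintro ⟨z, hz, rfl⟩
    obtain ⟨k, a, b, h, rfl⟩ := exists_pt hg z
    rw [nm_pt hg h] at hz
    have i := hD.2 k a |b| (abs_nonneg b) h (by linarith)
    have h0 := abs_nonneg b
    rcases abs_cases b with ⟨e, -⟩ | ⟨e, -⟩
    · refine ⟨_, _, _, ?_, ?_, ?_, by rw [← i.1, e]⟩
      · rw [abs_of_nonneg] <;> linarith
      · rw [abs_of_nonneg] <;> linarith
      · linarith
    · refine ⟨_, _, _, ?_, ?_, ?_, by rw [← i.2, e, neg_neg]⟩
      · rw [abs_neg, abs_of_nonneg] <;> linarith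
      · rw [abs_neg, abs_of_nonneg] <;> linarith
      · linarith

theorem preconn_log (hg : 0 < g) : IsPreconnected {w : ℂ | nm g (Complex.exp w) ≤ 1 / 2} := by
  have hp : ∀ w : ℂ, 0 < nm g (Complex.exp w) := fun w =>
    (nm_nonneg hg _).lt_of_ne fun e => Complex.exp_ne_zero w (eq_zero_of_nm hg e.symm)
  have hm : ∀ (s : ℝ) (w : ℂ), nm g (Complex.exp (s + w)) = Real.exp s * nm g (Complex.exp w) :=
    fun s w => by rw [Complex.exp_add, ← Complex.ofReal_exp, nm_smul hg (Real.exp_pos s).le]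
  have : {w : ℂ | nm g (Complex.exp w) ≤ 1 / 2} = (fun p : ℝ × ℝ =>
      ((p.1 - Real.log (nm g (Complex.exp (p.2 * Complex.I))) : ℝ) : ℂ) + p.2 * Complex.I) ''
        (Iic (Real.log (1 / 2)) ×ˢ univ) := by
    ext w
    constructor
    · intro h
      refine ⟨(Real.log (nm g (Complex.exp w)), w.im), ⟨Real.log_le_log (hp w) h, trivial⟩, ?_⟩
      have := hm w.re (w.im * Complex.I)
      rw [Complex.re_add_im] at this
      simp only
      rw [this, Real.log_mul (Real.exp_pos _).ne' (hp _).ne', Real.log_exp, add_sub_cancel_right,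
        Complex.re_add_im]
    · rintro ⟨p, ⟨h, -⟩, rfl⟩
      rw [mem_ofPred_eq, hm, Real.exp_sub, Real.exp_log (hp _), div_mul_cancel₀ _ (hp _).ne']
      exact (Real.le_log_iff_exp_le (by norm_num)).1 h
  rw [this]
  refine (isPreconnected_Iic.prod isPreconnected_univ).image _ (Continuous.continuousOn ?_)
  have := continuous_nm g
  have : Continuous fun p : ℝ × ℝ => Real.log (nm g (Complex.exp (p.2 * Complex.I))) :=
    Continuous.log (by fun_prop) fun p => (hp _).ne'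
  fun_prop

theorem near_lift (hg : 0 < g) {D f : Surf g ≃ₜ Surf g} {L : ℂ → EE g} {φ : MulAut (FG g)}
    (hD : IsDual D) (hL : VA hg D L) (hf : Near f) (hi : Ind (D ∘ pe g) f φ) :
    ∃ (u : Surf g ≃ₜ Surf g) (F : EE g → EE g) (δ : FG g), IsoId u ∧ Continuous F ∧
      (∀ e, pe g (F e) = (D * (u * f) * D) (pe g e)) ∧
      (∀ (γ : FG g) (e : EE g), F (γ • e) = φ γ • F e) ∧
      (∀ z, nm g z ≤ 1 / 2 → (D * (u * f) * D) (D (pr g z)) = D (pr g z)) ∧
      (∀ w, nm g (Complex.exp w) ≤ 1 / 2 → F (L w) = δ • L w) ∧ δ * rr g = φ (rr g) * δ := by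
  have := compactSpace_surf hg
  have := (fibSt hg).2
  have hq : Cov (FG g) (D ∘ pe g) (cc g) := hD.vv ▸ Cov.comp (cov hg) D
  have e := hf.fix hg
  obtain ⟨u, a, b⟩ := hf
  have a' := a.isoId
  obtain ⟨H, a1, a2, rfl, a3⟩ := a
  obtain ⟨F, F1, F2⟩ := hq.ind_isotopy (H := fun t => H t * f)
    (a1.comp (continuous_fst.prodMk (f.continuous.comp continuous_snd)))
    (fun t => by rw [Homeomorph.mul_apply, e, a3]) (φ := φ) (by rwa [a2, one_mul])
  have F3 : ∀ e, pe g (F e) = (D * (H 1 * f) * D) (pe g e) := fun e => by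
    rw [← hD.1 (pe g (F e))]; exact congrArg D (F1 e)
  have F4 : ∀ z, nm g z ≤ 1 / 2 → (D * (H 1 * f) * D) (D (pr g z)) = D (pr g z) := fun z hz => by
    simp only [Homeomorph.mul_apply]
    rw [hD.1, b z hz]
  have h2 : ∀ w : ℂ, Complex.exp (w + 2 * Real.pi * Complex.I) = Complex.exp w :=
    Complex.exp_periodic
  obtain ⟨w, hw⟩ : ∃ w : ℂ, nm g (Complex.exp w) ≤ 1 / 2 := ⟨(1 / 2 : ℝ).log, by
    refine (nm_le_norm g _).trans ?_
    rw [Complex.norm_exp, Complex.ofReal_re, Real.exp_log (by norm_num)]⟩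
  obtain ⟨δ, hδ⟩ := (cov hg).exists_smul (e := F (L w)) (e' := L w)
    (by rw [F3, hL.lift, F4 _ hw])
  have F5 := (cov hg).eqOn_of_eq (preconn_log hg) (a := fun w => F (L w)) (b := fun w => δ • L w)
    (F.continuous.comp hL.cont).continuousOn
    (((cov hg).continuous_smul δ).comp hL.cont).continuousOn
    (fun w hw => by rw [F3, (cov hg).smul, hL.lift, F4 _ hw]) hw hδ.symm
  refine ⟨H 1, F, δ, a', F.continuous, F3, F2, F4, fun w hw => F5 hw,
    (cov hg).cancel (e := L w) ?_⟩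
  have := F5 (show w + 2 * Real.pi * Complex.I ∈ _ by rwa [mem_ofPred_eq, h2])
  simp only [hL.per, F2, ← hδ] at this
  rw [mul_smul, mul_smul, this]

/-- Baer's theorem. -/
theorem baer (hg : 0 < g) (hK : KerSt g) (hV : VArcSt g) (hB : BTwSt g) {D f : Surf g ≃ₜ Surf g}
    (hD : IsDual D) (hf : Near f) (hi : Ind (D ∘ pe g) f (1 : MulAut (FG g))) : IsoId f := by
  have := compactSpace_surf hg
  have := (fibSt hg).2
  obtain ⟨L, hL⟩ := hV hg D hD
  obtain ⟨u, F, δ, a, F1, F3, F2, F4, F5, F6⟩ := near_lift hg hD hL hf hi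
  obtain ⟨m, rfl⟩ := cen_rr hg F6
  obtain ⟨B, G, b1, b2, b3, b4, b5, b6⟩ := hB hg D L hD hL (-m)
  have k := hK (B * (D * (u * f) * D)) (G ∘ F) ⟨b2.comp F1,
    fun e => by rw [Function.comp, b3, F3]; rfl,
    fun γ e => by rw [Function.comp_apply, F2, b4]; rfl, fun e he => ?_, fun x hx => ?_⟩
  · have e1 : D * D = 1 := Homeomorph.ext hD.1
    have k1 := a.inv.mul ((b1.inv.mul k).conj D)
    rwa [inv_mul_cancel_left, mul_assoc D, mul_inv_cancel_right, ← mul_assoc D, e1, one_mul,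
      inv_mul_cancel_left] at k1
  · obtain ⟨z, hz, ez⟩ := (hD.ev hg).1 he
    have z0 : z ≠ 0 := fun h => (cov hg).ne e (by rw [ez, h]; exact hD.cc)
    obtain ⟨γ, rfl⟩ := (cov hg).exists_smul (e := e) (e' := L (Complex.log z))
      (by rw [hL.lift, Complex.exp_log z0, ez])
    rw [← Complex.exp_log z0] at hz
    rw [Function.comp, F2, F5 _ hz, b4, b4, b6 _ hz, MulAut.one_apply, smul_smul (rr g ^ m),
      zpow_neg, mul_inv_cancel, one_smul]
  · obtain ⟨z, hz, ez⟩ := (hD.ev hg).1 hx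
    rw [Homeomorph.mul_apply, ez, F4 z hz, ← ez, b5 x hx]

theorem exists_move (hg : 0 < g) (x : Surf g) :
    ∃ f : Surf g ≃ₜ Surf g, IsoId f ∧ f (cc g) = x := by
  have hF := fibSt hg
  have := compactSpace_surf hg
  have := hF.2
  have := pathConnectedSpace_surf hg
  have := locPath_surf hg
  obtain ⟨R, hR⟩ := exists_rot hg
  obtain ⟨h, hh⟩ := radSt hg hF
  obtain ⟨-, P, hP⟩ := shSt hg
  obtain ⟨D, hD⟩ := dualSt hg hF
  have st : Stable (cc g) ⊤ := fun _ _ _ => trivial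
  obtain ⟨sg, s1, -⟩ := sig1St hg hF famSt ⊤ R h P st hR hh hP fun _ => trivial
  obtain ⟨sg', s3, -⟩ := sig2St hg hF famSt ⊤ h D sg st hh hD s1
  exact (birSt famSt (Surf g) (cc g) ⊤ sg' st s3 trivial).2 x

theorem theta_of (hg : 0 < g) (hK : KerSt g) (hV : VArcSt g) (hB : BTwSt g) (hG : GermSSt g)
    (hR : RotSt g) (hT : TPhiSt g) : ∃ Θ : AutC g →* ModPM (Surf g), Θ.range.FiniteIndex ∧
      Θ.range ≤ ModP (Surf g) ∧ (∀ w, Θ ⟨MulAut.conj w, conj_mem_AutC g w⟩ = 1) ∧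
      Commute (Θ ⟨rho g, rho_mem g⟩ ^ (2 * g)) (Θ ⟨tau g, tau_mem g⟩) := by
  have hF := fibSt hg
  have := compactSpace_surf hg
  have := hF.2
  obtain ⟨hl, _⟩ := eLiftSt hg
  obtain ⟨R, hRr⟩ := exists_rot hg
  obtain ⟨⟨T, hTw⟩, P, hP⟩ := shSt hg
  obtain ⟨D, hD⟩ := dualSt hg hF
  obtain ⟨L, hL⟩ := hV hg D hD
  obtain ⟨⟨s, hs⟩, hG⟩ := hG
  have hq : Cov (FG g) (D ∘ pe g) (cc g) := hD.vv ▸ Cov.comp (cov hg) D
  let π := QuotientGroup.mk' (Subgroup.normalClosure {f : Surf g ≃ₜ Surf g | IsoId f})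
  have π1 : ∀ f, IsoId f → π f = 1 := fun f h => (QuotientGroup.eq_one_iff _).2 (isoId_iff.1 h)
  let J : Subgroup (MulAut (FG g)) :=
    { carrier := {φ | ∃ f ∈ nearG hg, Ind (D ∘ pe g) f φ}
      one_mem' := ⟨1, one_mem _, ind_one⟩
      mul_mem' := fun ⟨f, a, b⟩ ⟨f', a', b'⟩ => ⟨f * f', mul_mem a a', b.mul b'⟩
      inv_mem' := fun ⟨f, a, b⟩ => ⟨f⁻¹, inv_mem a, hq.ind_inv hl (Near.fix hg a) b⟩ }
  have i1 := phiRSt hg hF (cov hg) eLiftSt D R hD hRr
  have i2 := phiTSt hg hF (cov hg) eLiftSt sideSt D T hD hTw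
  have i3 : ∀ w, Ind (D ∘ pe g) 1 (MulAut.conj w) := fun w => by
    simpa using hq.ind_conj ind_one w
  have n1 : R ∈ nearG hg := hR.2.2.1 R hRr
  have hJ : AutC g ≤ J := autC_le g J ⟨R, n1, i1⟩ (fun w => ⟨1, one_mem _, i3 w⟩) fun i hi => by
    obtain ⟨t, φ, a, ⟨F, b1, b2⟩, c⟩ := hT (2 * i + 1) (by omega) (by omega)
    refine ⟨φ, ⟨D * t * D, ⟨1, IsoAt.one, fun z hz => ?_⟩, F, fun e => ?_, b2⟩, c⟩
    · simp only [Homeomorph.mul_apply, Homeomorph.one_apply]
      rw [a _ ((hD.ev hg).2 ⟨z, hz, rfl⟩), hD.1]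
    · simp only [Homeomorph.mul_apply, Function.comp]
      rw [hD.1, b1]
  have key : ∀ f ∈ nearG hg, ∀ f' ∈ nearG hg, ∀ φ : MulAut (FG g), Ind (D ∘ pe g) f φ →
      Ind (D ∘ pe g) f' φ → π f = π f' := fun f a f' a' φ b b' => by
    have := (hq.ind_inv hl (Near.fix hg a) b).mul b'
    rw [inv_mul_cancel] at this
    have := π1 _ (baer hg hK hV hB hD (mul_mem (inv_mem a) a' : _ ∈ nearG hg) this)
    rwa [map_mul, map_inv, inv_mul_eq_one] at this
  choose r r1 r2 using fun φ : AutC g => hJ φ.2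
  let Θ : AutC g →* ModPM (Surf g) := MonoidHom.mk' (fun φ => π (r φ)) fun φ ψ => by
    rw [← map_mul]
    exact key _ (r1 _) _ (mul_mem (r1 φ) (r1 ψ)) _ (r2 _) ((r2 φ).mul (r2 ψ))
  have hΘ : ∀ f ∈ nearG hg, ∀ φ : AutC g, Ind (D ∘ pe g) f (φ : MulAut (FG g)) → Θ φ = π f :=
    fun f a φ b => key _ (r1 φ) _ a _ (r2 φ) b
  have hr : ∀ f ∈ nearG hg, π f ∈ Θ.range := fun f a => by
    obtain ⟨φ, b⟩ := hq.exists_ind' hl f (Near.fix hg a)
    obtain ⟨-, -, δ, -, -, -, -, -, -, c⟩ := near_lift hg hD hL a b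
    exact ⟨⟨φ, (isConj_iff.2 ⟨δ, by rw [c, mul_inv_cancel_right]⟩ : IsConj (rr g) _).symm⟩,
      hΘ f a _ b⟩
  refine ⟨Θ, ?_, ?_, fun w => (hΘ 1 (one_mem _) _ (i3 w)).trans (map_one π), ?_⟩
  · have : Finite (ModPM (Surf g) ⧸ Θ.range) := by
      refine Finite.of_surjective (fun p : Fin (4 * g) × Bool =>
        (QuotientGroup.mk (π (R ^ (p.1 : ℕ) * cond p.2 s 1)) : ModPM (Surf g) ⧸ Θ.range)) ?_
      rintro ⟨x⟩
      obtain ⟨f, hf⟩ := QuotientGroup.mk'_surjective _ x⁻¹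
      obtain ⟨f', j1, j2⟩ := exists_move hg (f (cc g))
      have e : π (f'⁻¹ * f) = x⁻¹ := by rw [map_mul, π1 _ j1.inv, one_mul]; exact hf
      obtain ⟨k, h⟩ := hG R s (f'⁻¹ * f) hRr hs (f'.symm_apply_eq.2 j2.symm)
      rw [pow_eq_pow_mod k (hRr.pow_four hg)] at h
      have hk := Nat.mod_lt k (show 0 < 4 * g by omega)
      rcases h with h | h
      · refine ⟨(⟨_, hk⟩, false), (QuotientGroup.eq.2 ?_).symm⟩
        rw [← e, ← map_mul, cond_false, mul_one]
        exact hr _ h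
      · refine ⟨(⟨_, hk⟩, true), (QuotientGroup.eq.2 ?_).symm⟩
        rw [← e, ← map_mul, cond_true, ← mul_assoc]
        exact hr _ h
    exact Subgroup.finiteIndex_of_finite_quotient
  · rintro _ ⟨φ, rfl⟩
    obtain ⟨u, a, b⟩ := r1 φ
    have : Θ φ = π (u * r φ) := by rw [map_mul, π1 _ a.isoId, one_mul]; rfl
    refine Subgroup.subset_normalClosure ⟨u * r φ, cc g, this, ?_⟩
    refine Filter.mem_of_superset ((hF.isOpen_inner hg (O := {z | nm g z < 1 / 2})
      (isOpen_lt (continuous_nm g) continuous_const) fun z (hz : nm g z < 1 / 2) => by linarith).mem_nhds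
      ⟨0, by rw [mem_ofPred_eq, nm_zero hg]; norm_num, rfl⟩) ?_
    rintro _ ⟨z, hz, rfl⟩
    exact b z (le_of_lt hz)
  · rw [hΘ R n1 _ i1, hΘ T (hR.2.2.2 T hTw) _ i2]
    have e := congrArg π (pushSt hg R T P hRr hTw hP).2
    have p : IsoId (P 1) := ((famSt _).2.1 _).2 ⟨fun t => P t,
      (continuousOn_univ.1 (hP.2.mono univ_prod_univ.ge)).comp
        (f := fun p : I × Surf g => ((p.1 : ℝ), p.2)) (by fun_prop), sig1_push_zero hg hP, rfl⟩
    rw [map_mul, π1 _ p, one_mul, map_mul, map_mul, map_inv, map_pow, mul_inv_eq_iff_eq_mul] at e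
    exact e

/-- Property (T) passes to the mapping class group. -/
theorem hasT_of {Θ : AutC g →* ModPM (Surf g)} (h1 : Θ.range.FiniteIndex)
    (h2 : Θ.range ≤ ModP (Surf g)) {A : Type} [Group A] (hA : Group.FG A) (hT : HasT A)
    (f : A →* Θ.range) (hf : Function.Surjective f) (Γ : Subgroup (ModPM (Surf g)))
    (hΓ : Γ.relIndex (ModP (Surf g)) ≠ 0) :
    Group.FG Γ ∧ ∀ S : Finset Γ, Subgroup.closure (S : Set Γ) = ⊤ → ∃ ε > 0, Kaz S ε := by
  have := Subgroup.finiteIndex_of_le h2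
  have : Γ.FiniteIndex := ⟨fun h => by
    have i := Subgroup.relIndex_mul_index (inf_le_right : Γ ⊓ ModP (Surf g) ≤ _)
    rw [Subgroup.inf_relIndex_right] at i
    have j := Subgroup.index_dvd_of_le (inf_le_left : Γ ⊓ ModP (Surf g) ≤ _)
    rw [h, zero_dvd_iff, ← i] at j
    exact mul_ne_zero hΓ Subgroup.FiniteIndex.index_ne_zero j⟩
  have := fg_of_sub Θ.range (Group.fg_of_surjective hf)
  exact ⟨inferInstance, (((hT.quot f hf).of_sub _).sub Γ).gen⟩

/-- The stabiliser of the standard word inside the automorphisms of the side group. -/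
def stA (g : ℕ) : St g →* AutC g :=
  ((MulAut.conj (omega g)⁻¹).toMonoidHom.comp (St g).subtype).codRestrict _ fun φ => by
    have : φ.1 (omega g (rr g)) = omega g (rr g) := by rw [omega_rr]; exact φ.2
    change IsConj ((omega g)⁻¹ (φ.1 ((omega g)⁻¹⁻¹ (rr g)))) _
    rw [inv_inv, this, MulAut.inv_apply_self]

theorem stA_surj {A : Type} [Group A] {Θ : AutC g →* A}
    (h : ∀ w, Θ ⟨MulAut.conj w, conj_mem_AutC g w⟩ = 1) :
    Function.Surjective (Θ.rangeRestrict.comp (stA g)) := by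
  rintro ⟨_, φ, rfl⟩
  obtain ⟨w, hw⟩ := isConj_iff.1 φ.2
  refine ⟨⟨omega g * (MulAut.conj w * φ.1) * (omega g)⁻¹, ?_⟩, Subtype.ext ?_⟩
  · change omega g (MulAut.conj w (φ.1 ((omega g)⁻¹ _))) = _
    rw [← omega_rr, MulAut.inv_apply_self, MulAut.conj_apply, hw]
  · change Θ (stA g _) = Θ φ
    rw [← one_mul (Θ φ), ← h w, ← map_mul]
    exact congrArg Θ (Subtype.ext (by
      change (omega g)⁻¹ * (omega g * (MulAut.conj w * φ.1) * (omega g)⁻¹) * (omega g)⁻¹⁻¹ =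
        MulAut.conj w * φ.1
      group))

end Pool.Agent.MCG
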