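import Pool.Agent.Lib.MP_c86c76_al.Ba.St

/-!
The boundary twist at the vertex and its equivariant lift.
-/

set_option autoImplicit false

namespace Pool.Agent.MCG

open Set Topology Metric Pool.Agent.PT

variable {g : ℕ}

theorem btw_lam0 {s : ℝ} (h : 1 ≤ s) : lam s = 0 :=
  max_eq_left ((min_le_right _ _).trans (by linarith))

theorem btw_lam1 {s : ℝ} (h : s ≤ 3 / 4) : lam s = 1 := by
  rw [lam, min_eq_left (by linarith), max_eq_right zero_le_one]

theorem btw_cont : Continuous lam := by unfold lam; fun_prop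

theorem btw_all (hg : 0 < g) {u : Surf g ≃ₜ Surf g} {α : ℝ}
    (h : ∀ z ∈ Pol g, u (pr g z) = pr g (z * Complex.exp ((α * lam ‖z‖ : ℝ) * Complex.I)))
    (z : ℂ) : u (pr g z) = pr g (z * Complex.exp ((α * lam ‖z‖ : ℝ) * Complex.I)) := by
  rcases le_or_gt (nm g z) 1 with h1 | h1
  · exact h z ((mem_Pol hg).2 h1)
  have e : pr g z = pr g (z / (max 1 (nm g z) : ℝ)) := by
    rw [pr_of_mem (retr_mem hg z), pr, dif_pos (retr_mem hg z)]
  have h2 := nm_le_norm g z
  have h3 : 1 ≤ ‖z / (max 1 (nm g z) : ℝ)‖ := by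
    rw [max_eq_right h1.le, norm_div, Complex.norm_real, Real.norm_of_nonneg (by linarith),
      one_le_div (by linarith)]
    exact h2
  have k := h _ (retr_mem hg z)
  rw [btw_lam0 h3, ← e] at k
  rw [btw_lam0 (h1.le.trans h2), k]
  simp only [mul_zero, Complex.ofReal_zero, zero_mul, Complex.exp_zero, mul_one]
  exact e.symm

theorem btw_per {hg : 0 < g} {D : Surf g ≃ₜ Surf g} {L : ℂ → EE g} (hL : VA hg D L) (m : ℤ)
    (w : ℂ) : L (w + m * (2 * Real.pi * Complex.I)) = rr g ^ m • L w := by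
  induction m using Int.induction_on with
  | zero => simp
  | succ n ih =>
    rw [add_comm (n : ℤ) 1, zpow_one_add, mul_smul, ← ih, ← hL.per]
    congr 1
    push_cast
    ring
  | pred n ih =>
    rw [sub_eq_neg_add, zpow_add, mul_smul, ← ih, zpow_neg_one, eq_inv_smul_iff, ← hL.per]
    congr 1
    push_cast
    ring

theorem btw_base {hg : 0 < g} {D : Surf g ≃ₜ Surf g} {L : ℂ → EE g} (hL : VA hg D L) :
    ∃ w, L w = e0 hg ∧ 1 ≤ ‖Complex.exp w‖ := by
  have hc := cos_ang_pos hg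
  have ht : Real.sin (Real.pi / (4 * g)) / tt g = Real.cos (Real.pi / (4 * g)) := by
    have := (tt_pos hg).ne'
    rw [div_eq_iff this, tt, Real.tan_eq_sin_div_cos]
    field_simp
  have e := polar hg 0 (1 / Real.cos (Real.pi / (4 * g))) (-(Real.pi / (4 * g)))
  rw [Real.cos_neg, Real.sin_neg, mul_neg, neg_div, mul_div_assoc, ht, div_mul_cancel₀ _ hc.ne',
    ze_zero, one_mul, ← Real.exp_log (one_div_pos.2 hc), Complex.ofReal_exp,
    ← Complex.exp_add] at e
  refine ⟨_, ?_, by rw [e]; exact (nm_pt hg (by simp)).ge.trans (nm_le_norm g _)⟩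
  rw [hL.val 0 1 _ one_pos le_rfl e, sub_self, neg_zero, pt_zero, ep_zero, xw_zero, one_smul]
  have : (g : ℝ) ≠ 0 := by positivity
  simp only [Complex.add_im, Complex.ofReal_im, Complex.mul_im, Complex.ofReal_re, Complex.I_im,
    Complex.I_re, Nat.cast_zero]
  field_simp
  ring

theorem btw_axis (hg : 0 < g) {F : EE g → EE g} (hF : Continuous F) (h0 : F (e0 hg) = e0 hg)
    (h : ∀ e (j : ℤ) (s : ℝ), 0 ≤ s → s ≤ 1 → pe g e = pr g (pt g j s 0) → pe g (F e) = pe g e)
    (j : ℤ) : F (ss g j • e0 hg) = ss g j • e0 hg := by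
  have m1 : ∀ (k : ℤ) (s : ℝ), 0 ≤ s → s ≤ 1 → pt g k s 0 ∈ TS g := fun k s h1 h2 =>
    pt_TS hg k (by rwa [abs_zero]) h2 (by simp)
  have hc : ContinuousOn (fun s : ℝ => qe hg j (pt g j s 0)) (Icc 0 2) := by
    refine (continuousOn_qe hg j).comp
      ((continuous_pt g j).comp (f := fun s : ℝ => (s, (0 : ℝ))) (by fun_prop)).continuousOn
      fun s hs => ?_
    rcases le_total s 1 with h1 | h1
    · exact Or.inl (m1 j s hs.1 h1)
    · refine Or.inr ?_
      show pt g j s 0 - 2 * ze g j ∈ TS g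
      rw [pt_sub' hg, neg_zero]
      exact m1 _ _ (by linarith [hs.2]) (by linarith)
  have k := (cov hg).eqOn_of_eq isPreconnected_Icc (hF.comp_continuousOn hc) hc
    (fun s hs => by
      rcases le_total s 1 with h1 | h1
      · exact h (qe hg j (pt g j s 0)) j s hs.1 h1
          (by rw [qe_in hg j (m1 j s hs.1 h1).1, pe_ep hg _ (m1 j s hs.1 h1)])
      · have i1 : 0 ≤ 2 - s := by linarith [hs.2]
        have i2 : 2 - s ≤ 1 := by linarith
        exact h (qe hg j (pt g j s 0)) (j + 2 * g) (2 - s) i1 i2 (by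
          rw [qe_out hg j h1 (by simp), neg_zero, pe_ep hg _ (m1 _ _ i1 i2)]))
    (x := 0) ⟨le_rfl, zero_le_two⟩ (by
      simp only [Function.comp, pt_zero, qe_in hg j (zero_mem_Pol g), ep_zero, one_smul, h0])
    (show (2 : ℝ) ∈ Icc (0 : ℝ) 2 from ⟨zero_le_two, le_rfl⟩)
  simp only [Function.comp] at k
  rwa [qe_out hg j one_le_two (by simp), sub_self, neg_zero, pt_zero, ep_zero] at k

theorem bTwSt (hR : RotSt g) : BTwSt g := by
  intro hg D L hD hL m
  have := compactSpace_surf hg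
  have := (fibSt hg).2
  have := (eLiftSt hg).2
  obtain ⟨u, hu, hu'⟩ := hR.1 (m * (2 * Real.pi))
  have key : ∀ z, (D * u * D⁻¹) (D (pr g z)) =
      D (pr g (z * Complex.exp ((m * (2 * Real.pi) * lam ‖z‖ : ℝ) * Complex.I))) := fun z => by
    rw [← btw_all hg hu']
    simp
  have k0 : ∀ x z, D x = pr g z → 1 ≤ ‖z‖ → (D * u * D⁻¹) x = x := fun x z e hz => by
    rw [← hD.1 x, e, key, btw_lam0 hz]
    simp
  have k1 : ∀ x z, D x = pr g z → nm g z ≤ 1 / 2 → (D * u * D⁻¹) x = x := fun x z e hz => by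
    rw [← hD.1 x, e, key, btw_lam1 (hR.2.1 z hz), mul_one]
    push_cast
    rw [mul_assoc, Complex.exp_int_mul_two_pi_mul_I, mul_one]
  have kE : ∀ x ∈ Ev g, (D * u * D⁻¹) x = x := by
    rintro _ ⟨k, a, b, h1, h2, h3, rfl⟩
    have h4 := hD.2 k a |b| (abs_nonneg b) h2 h3
    have h5 : |1 - a| ≤ 1 - |b| := by rw [abs_of_nonneg (by linarith)]; linarith
    rcases le_total 0 b with hb | hb
    · have i := h4.1
      rw [show pt g k a |b| = pt g k a b by rw [abs_of_nonneg hb]] at i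
      exact k1 _ _ i (by rw [nm_pt hg h5]; linarith)
    · have i := h4.2
      rw [show pt g k a (-|b|) = pt g k a b by rw [abs_of_nonpos hb, neg_neg]] at i
      exact k1 _ _ i (by rw [nm_pt hg (by rwa [abs_neg])]; linarith)
  have kA : ∀ (j : ℤ) (s : ℝ), 0 ≤ s → s ≤ 1 →
      (D * u * D⁻¹) (pr g (pt g j s 0)) = pr g (pt g j s 0) := fun j s h1 h2 => by
    refine k0 _ _ (hD.2 j s 0 le_rfl h1 h2).1 (le_trans ?_ (nm_le_norm g _))
    exact le_trans (by simp) (le_nm_pt g _ _ _)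
  obtain ⟨F, φ, f0, f1, f2⟩ := (cov hg).exists_ind (eLiftSt hg).1 (D * u * D⁻¹)
    (kE _ vv_mem_Ev) (e0 hg) (by
      have := kA 0 0 le_rfl zero_le_one
      rw [pt_zero] at this
      exact this.symm)
  have hφ : ∀ γ, φ γ = γ := by
    have e : φ.toMonoidHom = MonoidHom.id _ := FreeGroup.ext_hom _ _ fun i => by
      have k := btw_axis hg F.continuous f0 (fun e j s h1 h2 he => by rw [f1, he, kA j s h1 h2])
        ((2 * g + 1) * (i : ℕ) + 2 * g)
      rw [f2, f0, ss, xx_congr g (j := (i : ℕ)) (dual_mod (-((g + 1) * ((i : ℕ) + 1))) (by ring)),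
        xx_of] at k
      exact (cov hg).cancel k
    exact fun γ => DFunLike.congr_fun e γ
  refine ⟨D * u * D⁻¹, F, hu.isoId.conj D, F.continuous, f1, fun γ e => by rw [f2, hφ], kE,
    fun w hw => ?_⟩
  obtain ⟨w0, b1, b2⟩ := btw_base hL
  have hl := btw_cont
  have k := (cov hg).eq_of_eq (a := fun w => F (L w))
    (b := fun w => L (w + (m * (2 * Real.pi) * lam ‖Complex.exp w‖ : ℝ) * Complex.I))
    (F.continuous.comp hL.cont) (hL.cont.comp (by fun_prop))
    (fun w => by rw [f1, hL.lift, hL.lift, key, Complex.exp_add]) w0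
    (by simp only [btw_lam0 b2, mul_zero, Complex.ofReal_zero, zero_mul, add_zero, b1, f0])
  rw [congrFun k w, btw_lam1 (hR.2.1 _ hw), ← btw_per hL]
  congr 1
  push_cast
  ring

end Pool.Agent.MCG
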