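import Pool.Agent.Lib.MP_c86c76_al.Ba.St

/-!
Homeomorphisms supported in a round disc about the centre.
-/

set_option autoImplicit false

namespace Pool.Agent.MCG

open Set Topology Metric Pool.Agent.PT
open scoped unitInterval

noncomputable section

variable {g : ℕ}

theorem cdisc_nm {ρ : ℝ} (h1 : ρ < 1) {z : ℂ} (hz : z ∈ closedBall (0 : ℂ) ρ) : nm g z < 1 :=
  ((nm_le_norm g z).trans (mem_closedBall_zero_iff.1 hz)).trans_lt h1

theorem cdisc_inj (hg : 0 < g) {ρ : ℝ} (h1 : ρ < 1) : InjOn (pr g) (closedBall 0 ρ) :=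
  fun _ hz _ hw e => (fibSt hg).inner hg (cdisc_nm h1 hz) ((mem_Pol hg).2 (cdisc_nm h1 hw).le) e

theorem cdisc_chart (hg : 0 < g) {ρ : ℝ} (h0 : 0 < ρ) (h1 : ρ < 1) :
    Chart (pr g) (ball 0 ρ) := by
  refine ⟨(continuous_pr hg).continuousOn, (cdisc_inj hg h1).mono ball_subset_closedBall,
    (fibSt hg).isOpen_inner hg isOpen_ball fun z hz => cdisc_nm h1 (ball_subset_closedBall hz), ?_⟩
  rw [frontier_ball 0 h0.ne', Set.disjoint_left]
  rintro _ ⟨z, hz, rfl⟩ ⟨w, hw, e⟩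
  obtain rfl := cdisc_inj hg h1 (sphere_subset_closedBall hw) (ball_subset_closedBall hz) e
  exact (mem_ball.1 hz).ne (mem_sphere.1 hw)

theorem cDiscSt (hg : 0 < g) (hD : DiscSt) (hA : AlexSt) (hT : TransSt) : CDiscSt g := by
  intro ρ h0 h1
  have i₁ := compactSpace_surf hg
  have i₂ := (fibSt hg).2
  have hc : closure (ball (0 : ℂ) ρ) = closedBall 0 ρ := closure_ball 0 h0.ne'
  obtain ⟨t1, t2⟩ := hT (Surf g) (pr g) (ball 0 ρ) isOpen_ball isBounded_ball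
    (cdisc_chart hg h0 h1)
  have hΦ := hD.2.2.1 ρ h0
  refine ⟨fun h hh => ?_, fun u hu => ?_⟩
  · obtain ⟨η, i1, i2, -⟩ := hA _ _ h hΦ hh
    obtain ⟨H, -, -, j⟩ := t1 η i1
    refine ⟨H 1, (j 1).1, fun z hz => ?_⟩
    rw [← hc] at hz
    rw [(j 1).2 z hz, i2 z hz]
  · obtain ⟨h, hh, e⟩ := t2 u (by rw [hc]; exact cdisc_inj hg h1) hu
    obtain ⟨η, i1, i2, i3⟩ := hA _ _ h hΦ hh
    obtain ⟨H, j1, j2, j⟩ := t1 η i1
    have hH : H 1 = u := by
      ext x
      by_cases hx : x ∈ pr g '' ball 0 ρ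
      · obtain ⟨z, hz, rfl⟩ := hx
        have hz' := subset_closure hz
        rw [(j 1).2 z hz', i2 z hz', e z hz']
      · rw [(j 1).1 x hx, hu x hx]
    refine ⟨((famSt _).2.1 u).2 ⟨H, j1, j2, hH⟩, fun hcc => ⟨H, j1, j2, hH, fun t => ?_⟩⟩
    have m0 : (0 : ℂ) ∈ ball (0 : ℂ) ρ := mem_ball_self h0
    have k0 : h 0 = 0 :=
      cdisc_inj hg h1 (ball_subset_closedBall (hh.bij.mapsTo m0)) (ball_subset_closedBall m0)
        ((e 0 (subset_closure m0)).symm.trans hcc)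
    simp only [mul_zero] at i3
    rw [cc, (j t).2 0 (subset_closure m0), i3 k0 t]

theorem near_tt (hg : 0 < g) : tt g ≤ 1 := by
  rw [tt, ← Real.tan_pi_div_four]
  have := ang_pos hg
  have := ang_le hg
  have := Real.pi_pos
  exact Real.strictMonoOn_tan.monotoneOn ⟨by linarith, by linarith⟩ ⟨by linarith, by linarith⟩
    (ang_le hg)

theorem near_norm (hg : 0 < g) (z : ℂ) (hz : nm g z ≤ 1 / 2) : ‖z‖ ≤ 3 / 4 := by
  obtain ⟨k, a, b, h, rfl⟩ := exists_pt hg z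
  rw [nm_pt hg h] at hz
  have ha := (abs_nonneg b).trans h
  have h1 := tt_pos hg
  have h2 := near_tt hg
  have h3 : |b * tt g| ≤ 1 / 2 := by
    rw [abs_mul, abs_of_pos h1]
    nlinarith [abs_nonneg b]
  have h4 := abs_le.1 h3
  rw [pt, norm_mul, norm_ze, one_mul, Complex.norm_add_mul_I]
  refine Real.sqrt_le_iff.2 ⟨by norm_num, ?_⟩
  nlinarith

theorem nearSt (hg : 0 < g) (hR : RelSt) (hC : CDiscSt g) : NearSt g := by
  intro f h ε r x hf hr hε hx hfε hh hhf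
  have i₁ := compactSpace_surf hg
  have i₂ := (fibSt hg).2
  have hxε : ‖x‖ < ε := mem_ball_zero_iff.1 (hx (mem_ball_self hr))
  have hε0 : 0 < ε := (norm_nonneg x).trans_lt hxε
  obtain ⟨k, hk, k0⟩ := hR.2.2.2.2.2.2 ε x hxε
  obtain ⟨K, K1, K2⟩ := (hC ε hε0 (by linarith)).1 k hk
  obtain ⟨c1, c2⟩ := hC (7 / 8) (by norm_num) (by norm_num)
  obtain ⟨d, d0, hd⟩ : ∃ d > 0, ∀ z ∈ ball (0 : ℂ) d, z ∈ closedBall (0 : ℂ) ε ∧
      k z ∈ ball x r := by
    have n1 : closure (ball (0 : ℂ) ε) ∈ 𝓝 (0 : ℂ) :=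
      Filter.mem_of_superset (ball_mem_nhds 0 hε0) subset_closure
    have n2 : k ⁻¹' ball x r ∈ 𝓝 (0 : ℂ) :=
      (hk.cont.continuousAt n1).preimage_mem_nhds (by rw [k0]; exact ball_mem_nhds x hr)
    exact Metric.mem_nhds_iff.1 (Filter.inter_mem (closedBall_mem_nhds 0 hε0) n2)
  have hsub : pr g '' ball 0 ε ⊆ pr g '' ball 0 (7 / 8) := image_mono (ball_subset_ball hε)
  have a1 : ∀ y ∉ pr g '' ball 0 (7 / 8), (K⁻¹ * h * (f * K * f⁻¹)) y = y := by
    intro y hy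
    have e1 : K (f⁻¹ y) = f⁻¹ y := K1 _ fun ⟨z, hz, e⟩ => hy (by
      have := hfε z hz
      rwa [e, Homeomorph.inv_apply, Homeomorph.apply_symm_apply] at this)
    simp only [Homeomorph.mul_apply]
    rw [e1, Homeomorph.inv_apply f, Homeomorph.apply_symm_apply, hh y hy, Homeomorph.inv_apply,
      Homeomorph.symm_apply_eq, K1 y fun h' => hy (hsub h')]
  have a2 : ∀ z ∈ ball (0 : ℂ) d, (K⁻¹ * h * (f * K * f⁻¹)) (f (pr g z)) = pr g z := by
    intro z hz
    simp only [Homeomorph.mul_apply]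
    rw [Homeomorph.inv_apply f, Homeomorph.symm_apply_apply, K2 z (hd z hz).1, hhf _ (hd z hz).2,
      Homeomorph.inv_apply, Homeomorph.symm_apply_eq, K2 z (hd z hz).1]
  have a3 := (c2 _ a1).2 (by
    have := a2 0 (mem_ball_self d0)
    rwa [← cc, hf] at this)
  have d1 : 0 < min d 1 := lt_min d0 one_pos
  obtain ⟨M, M1, M2⟩ := c1 _ (hR.2.2.2.2.1 (7 / 8) (fun s => max (min d 1) (8 * s - 6))
    (by norm_num) (by fun_prop) (fun s t hst => max_le_max le_rfl (by linarith))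
    (fun s => d1.trans_le (le_max_left _ _))
    (by rw [show (8 : ℝ) * (7 / 8) - 6 = 1 by norm_num]; exact max_eq_right (min_le_right _ _)))
  have a4 := (c2 M M1).2 (by
    rw [cc, M2 0 (mem_closedBall_self (by norm_num)), mul_zero])
  refine ⟨_, (a4.inv.mul a3).mul (a4.conj f hf), fun z hz => ?_⟩
  have n1 := near_norm hg z hz
  have n2 : M (pr g z) = pr g ((min d 1 : ℝ) * z) := by
    rw [M2 z (mem_closedBall_zero_iff.2 (by linarith)), max_eq_left (by linarith)]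
  have n3 : ((min d 1 : ℝ) : ℂ) * z ∈ ball (0 : ℂ) d := by
    rw [mem_ball_zero_iff, norm_mul, Complex.norm_real, Real.norm_of_nonneg d1.le]
    have := min_le_left d 1
    nlinarith [norm_nonneg z]
  rw [Homeomorph.mul_apply, Homeomorph.mul_apply, Homeomorph.mul_apply _ f⁻¹,
    Homeomorph.mul_apply f, Homeomorph.inv_apply f, Homeomorph.symm_apply_apply, n2, a2 _ n3,
    Homeomorph.inv_apply, Homeomorph.symm_apply_eq, n2]

end

end Pool.Agent.MCG
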