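import Pool.Agent.Lib.MP_c86c76_al.Ba.St

/-!
The developing map is a chart on the gear.
-/

set_option autoImplicit false

namespace Pool.Agent.MCG

open Set Topology Metric Pool.Agent.PT

variable {g : ℕ}

theorem chart_ss_ne (hg : 0 < g) (k : ℤ) : ss g k ≠ 1 := by
  unfold ss xx
  generalize (2 * (g : ℤ) + 1) * k + 2 * g = l
  have hN : (0 : ℤ) < (4 * g : ℕ) := by omega
  have h0 := Int.emod_nonneg l hN.ne'
  have h1 := Int.emod_lt_of_pos l hN
  split_ifs with a b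
  · exact FreeGroup.of_ne_one _
  · exact inv_ne_one.2 (FreeGroup.of_ne_one _)
  · omega

theorem chart_ne (hg : 0 < g) (k : ℤ) : ¬ k + 2 * g ≡ k [ZMOD (4 * g : ℕ)] := fun h => by
  have := Int.le_of_dvd (by omega) (h.symm.dvd)
  omega

theorem chart_len_k (k : ℤ) (δ : ℝ) : len g k δ k = 1 + δ := if_pos (Int.ModEq.refl k)

theorem chart_len_m (hg : 0 < g) {k j : ℤ} (δ : ℝ) (h : j ≡ k + 2 * g [ZMOD (4 * g : ℕ)]) :
    len g k δ j = 1 - δ := by
  rw [len, if_neg fun e => chart_ne hg k (h.symm.trans e), if_pos h]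

theorem chart_len_gt {k j : ℤ} {δ : ℝ} (h0 : 0 ≤ δ) (h : 1 < len g k δ j) :
    j ≡ k [ZMOD (4 * g : ℕ)] ∧ len g k δ j = 1 + δ := by
  unfold len at h ⊢
  split_ifs at h ⊢ with a b
  · exact ⟨a, rfl⟩
  · linarith
  · linarith

theorem chart_mod {k j : ℤ} (h : j ≡ k [ZMOD (2 * g : ℕ)]) :
    j ≡ k [ZMOD (4 * g : ℕ)] ∨ j ≡ k + 2 * g [ZMOD (4 * g : ℕ)] := by
  obtain ⟨c, hc⟩ := h.dvd
  obtain ⟨d, rfl | rfl⟩ := Int.even_or_odd' c
  · exact Or.inl (Int.modEq_iff_dvd.2 ⟨d, by rw [hc]; push_cast; ring⟩)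
  · refine Or.inr (Int.modEq_iff_dvd.2 ⟨d + 1, ?_⟩)
    rw [add_sub_right_comm, hc]
    push_cast
    ring

theorem chart_len_one {k j : ℤ} {δ : ℝ} (h : δ = 0 ∨ ¬ j ≡ k [ZMOD (2 * g : ℕ)]) :
    len g k δ j = 1 := by
  have d : ((2 * g : ℕ) : ℤ) ∣ (4 * g : ℕ) := ⟨2, by push_cast; ring⟩
  unfold len
  rcases h with rfl | h
  · split_ifs <;> simp
  · have r : k + 2 * g ≡ k [ZMOD (2 * g : ℕ)] := Int.modEq_iff_dvd.2 ⟨-1, by push_cast; ring⟩
    rw [if_neg fun e => h (e.of_dvd d), if_neg fun e => h ((e.of_dvd d).trans r)]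

theorem chart_cases (hg : 0 < g) {k : ℤ} {δ : ℝ} (h0 : 0 ≤ δ) {z : ℂ} (hz : z ∈ Qc g k δ) :
    (∃ (j : ℤ) (a b : ℝ), |b| ≤ a ∧ |b| ≤ 1 / 2 ∧ a ≤ 1 ∧ z = pt g j a b) ∨
      ∃ a b : ℝ, 1 < a ∧ a ≤ 1 + δ ∧ |b| ≤ 1 / 2 ∧ z = pt g k a b := by
  obtain ⟨j, a, b, h1, h2, h3, rfl⟩ := hz
  rcases le_or_gt a 1 with h | h
  · exact Or.inl ⟨j, a, b, h1, h2, h, rfl⟩
  · obtain ⟨e1, e2⟩ := chart_len_gt h0 (h.trans_le h3)
    exact Or.inr ⟨a, b, h, e2 ▸ h3, h2, pt_congr hg e1 a b⟩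

theorem chart_in (hg : 0 < g) (k j : ℤ) {a b : ℝ} (h1 : |b| ≤ a) (h2 : |b| ≤ 1 / 2) (h3 : a ≤ 1) :
    pe g (qe hg k (pt g j a b)) = pr g (pt g j a b) := by
  rw [qe_in hg k (pt_mem hg j h1 h3), pe_ep hg _ (pt_TS hg j h1 h3 (by linarith))]

theorem chart_TS (hg : 0 < g) (j : ℤ) {a b : ℝ} (h1 : 1 ≤ a) (h3 : a ≤ 1 + 1 / 4)
    (h2 : |b| ≤ 1 / 2) : pt g j (2 - a) (-b) ∈ TS g :=
  pt_TS hg j (by rw [abs_neg]; linarith) (by linarith) (by rw [abs_neg]; linarith)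

theorem chart_out (hg : 0 < g) (k : ℤ) {a b : ℝ} (h1 : 1 ≤ a) (h3 : a ≤ 1 + 1 / 4)
    (h2 : |b| ≤ 1 / 2) :
    pe g (qe hg k (pt g k a b)) = pr g (pt g (k + 2 * g) (2 - a) (-b)) := by
  rw [qe_out hg k h1 (by linarith), pe_ep hg _ (chart_TS hg _ h1 h3 h2)]

theorem chart_inj (hg : 0 < g) (k : ℤ) {δ : ℝ} (h0 : 0 ≤ δ) (h4 : δ ≤ 1 / 4) :
    InjOn (qe hg k) (Qc g k δ) := by
  have same : ∀ (γ : FG g) z w, z ∈ TS g → w ∈ TS g → ep hg γ z = ep hg γ w → z = w := by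
    intro γ z w a b e
    rcases (ep_eq_iff hg a b).1 e with e | ⟨l, -, e⟩
    · exact e.2
    · exact absurd (left_eq_mul.1 e) (chart_ss_ne hg l)
  have mix : ∀ (j : ℤ) (a b a' b' : ℝ), |b| ≤ a → |b| ≤ 1 / 2 → a ≤ 1 → 1 < a' → a' ≤ 1 + δ →
      |b'| ≤ 1 / 2 → qe hg k (pt g j a b) ≠ qe hg k (pt g k a' b') := by
    intro j a b a' b' h1 h2 h3 k1 k2 k3 e
    have t1 := pt_TS hg j h1 h3 (by linarith)
    have t2 := chart_TS hg (k + 2 * g) k1.le (by linarith) k3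
    rw [qe_in hg k t1.1, qe_out hg k k1.le (by linarith)] at e
    rcases (ep_eq_iff hg t1 t2).1 e with e | ⟨l, e, -⟩
    · exact chart_ss_ne hg k e.1.symm
    · obtain ⟨c, hc, e'⟩ := (glue_iff hg).1 ⟨t1.1, e ▸ t2.1⟩
      rw [e', pt_sub hg] at e
      have := congrArg (nm g) e
      rw [nm_pt hg (by rw [abs_neg]; linarith), nm_pt hg (by rwa [abs_neg])] at this
      linarith
  intro z hz w hw e
  rcases chart_cases hg h0 hz with ⟨j, a, b, h1, h2, h3, rfl⟩ | ⟨a, b, h1, h2, h3, rfl⟩ <;>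
    rcases chart_cases hg h0 hw with ⟨j', a', b', k1, k2, k3, rfl⟩ | ⟨a', b', k1, k2, k3, rfl⟩
  · have t1 := pt_TS hg j h1 h3 (by linarith)
    have t2 := pt_TS hg j' k1 k3 (by linarith)
    rw [qe_in hg k t1.1, qe_in hg k t2.1] at e
    exact same _ _ _ t1 t2 e
  · exact absurd e (mix _ _ _ _ _ h1 h2 h3 k1 k2 k3)
  · exact absurd e.symm (mix _ _ _ _ _ k1 k2 k3 h1 h2 h3)
  · rw [qe_out hg k h1.le (by linarith), qe_out hg k k1.le (by linarith)] at e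
    obtain ⟨e1, e2⟩ := pt_inj hg (same _ _ _ (chart_TS hg _ h1.le (by linarith) h3)
      (chart_TS hg _ k1.le (by linarith) k3) e)
    rw [show a = a' by linarith, show b = b' by linarith]

theorem chartSt (hG : GearSt g) : ChartSt g := by
  intro hg k δ h0 h4
  obtain ⟨-, hc, hm⟩ := hG k δ h0 h4
  have sub : Qo g k δ ⊆ Qc g k δ := hc ▸ subset_closure
  have lm := chart_len_m hg (k := k) δ (Int.ModEq.refl _)
  have cont : ContinuousOn (qe hg k) (Qc g k δ) := by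
    refine (continuousOn_qe hg k).mono fun z hz => ?_
    rcases chart_cases hg h0 hz with ⟨j, a, b, h1, h2, h3, rfl⟩ | ⟨a, b, h1, h2, h3, rfl⟩
    · exact Or.inl (pt_TS hg j h1 h3 (by linarith))
    · refine Or.inr ?_
      rw [mem_ofPred_eq, pt_sub' hg]
      exact chart_TS hg _ h1.le (by linarith) h3
  have key : ∀ z ∈ Qo g k δ, ∀ w ∈ Qc g k δ, pe g (qe hg k z) = pe g (qe hg k w) → z = w := by
    intro z hz w hw e
    rcases chart_cases hg h0 (sub hz) with ⟨j, a, b, h1, h2, h3, rfl⟩ | ⟨a, b, h1, h2, h3, rfl⟩ <;>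
      rcases chart_cases hg h0 hw with ⟨j', a', b', k1, k2, k3, rfl⟩ | ⟨a', b', k1, k2, k3, rfl⟩
    · rw [chart_in hg k j h1 h2 h3, chart_in hg k j' k1 k2 k3] at e
      rcases h3.lt_or_eq with h | rfl
      · exact (fibSt hg).inner hg (by rwa [nm_pt hg h1]) (pt_mem hg _ k1 k3) e
      rcases k3.lt_or_eq with h | rfl
      · exact ((fibSt hg).inner hg (by rwa [nm_pt hg k1]) (pt_mem hg _ h1 h3) e.symm).symm
      obtain ⟨e1, e2⟩ := chart_len_gt h0 ((hm _ _ _ h1).1.1 hz).2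
      rcases pr_side_eq hg (by linarith) k1 e with ⟨i, rfl⟩ | ⟨i, -⟩
      · exact (pt_congr hg i _ _).symm
      · have i1 := ((hm _ _ _ h1).1.1 hz).2
        have i2 := ((hm _ _ _ k1).2.1.1 hw).2
        rw [chart_len_m hg δ (i.trans (e1.add_right _))] at i2
        linarith
    · rw [chart_in hg k j h1 h2 h3, chart_out hg k k1.le (by linarith) k3] at e
      have r : |-b'| ≤ 2 - a' := by rw [abs_neg]; linarith
      rw [← (fibSt hg).inner hg (by rw [nm_pt hg r]; linarith) (pt_mem hg _ h1 h3) e.symm] at hz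
      have := ((hm _ _ _ r).1.1 hz).2
      linarith
    · rw [chart_in hg k j' k1 k2 k3, chart_out hg k h1.le (by linarith) h3] at e
      have r : |-b| ≤ 2 - a := by rw [abs_neg]; linarith
      rw [← (fibSt hg).inner hg (by rw [nm_pt hg r]; linarith) (pt_mem hg _ k1 k3) e] at hw
      have i1 := ((hm _ _ _ r).2.1.1 hw).2
      have i2 := ((hm _ _ _ (by linarith)).1.1 hz).2
      rw [chart_len_k] at i2
      linarith
    · rw [chart_out hg k h1.le (by linarith) h3, chart_out hg k k1.le (by linarith) k3] at e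
      have r : |-b| ≤ 2 - a := by rw [abs_neg]; linarith
      obtain ⟨e1, e2⟩ := pt_inj hg ((fibSt hg).inner hg (by rw [nm_pt hg r]; linarith)
        (chart_TS hg _ k1.le (by linarith) k3).1 e)
      rw [show a = a' by linarith, show b = b' by linarith]
  have nev : ∀ z ∈ Qo g k δ, pe g (qe hg k z) ∉ Ev g := by
    intro z hz
    rcases chart_cases hg h0 (sub hz) with ⟨j, a, b, h1, h2, h3, rfl⟩ | ⟨a, b, h1, h2, h3, rfl⟩
    · rw [chart_in hg k j h1 h2 h3, mem_Ev hg h1 h3, not_le]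
      exact ((hm _ _ _ h1).1.1 hz).1
    · rw [chart_out hg k h1.le (by linarith) h3, mem_Ev hg (by rw [abs_neg]; linarith)
        (by linarith), not_le, abs_neg]
      exact ((hm _ _ _ (by linarith)).1.1 hz).1
  have last : ∀ (j : ℤ) (a b : ℝ), |b| ≤ a → a ≤ 1 →
      (pr g (pt g j a b) ∉ (pe g ∘ qe hg k) '' Qo g k δ ↔ 1 / 2 ≤ |b| ∨
        (j ≡ k + 2 * g [ZMOD (4 * g : ℕ)] ∧ a = 1 - δ) ∨
        (a = 1 ∧ (δ = 0 ∨ ¬ j ≡ k [ZMOD (2 * g : ℕ)]))) := by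
    intro j a b h1 h3
    rcases le_or_gt (1 / 2) |b| with h2 | h2
    · refine iff_of_true ?_ (Or.inl h2)
      rintro ⟨z, hz, e⟩
      exact nev z hz (e.symm ▸ (mem_Ev hg h1 h3).2 h2 : (pe g ∘ qe hg k) z ∈ Ev g)
    rw [or_iff_right h2.not_ge]
    constructor
    · intro hn
      have i1 : len g k δ j ≤ a := not_lt.1 fun h =>
        hn ⟨_, (hm _ _ _ h1).1.2 ⟨h2, h⟩, chart_in hg k j h1 h2.le h3⟩
      by_cases c1 : j ≡ k + 2 * g [ZMOD (4 * g : ℕ)]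
      · rw [chart_len_m hg δ c1] at i1
        refine Or.inl ⟨c1, le_antisymm (not_lt.1 fun h => hn ⟨pt g k (2 - a) (-b), ?_, ?_⟩) i1⟩
        · refine (hm _ _ _ (by rw [abs_neg]; linarith)).1.2 ⟨by rwa [abs_neg], ?_⟩
          rw [chart_len_k]
          linarith
        · rw [Function.comp_apply, chart_out hg k (by linarith) (by linarith)
            (by rw [abs_neg]; exact h2.le), neg_neg, sub_sub_cancel, pt_congr hg c1]
      by_cases c2 : j ≡ k [ZMOD (4 * g : ℕ)]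
      · rw [len, if_pos c2] at i1
        exact Or.inr ⟨by linarith, Or.inl (by linarith)⟩
      · rw [len, if_neg c2, if_neg c1] at i1
        exact Or.inr ⟨by linarith, Or.inr fun h => (chart_mod h).elim c2 c1⟩
    · rintro h ⟨z, hz, e⟩
      have i1 : len g k δ j = a := by
        rcases h with ⟨h, rfl⟩ | ⟨rfl, h⟩
        · exact chart_len_m hg δ h
        · exact chart_len_one h
      rw [key z hz _ ((hm _ _ _ h1).2.1.2 ⟨h2.le, i1.ge⟩)
        (e.trans (chart_in hg k j h1 h2.le h3).symm)] at hz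
      exact ((hm _ _ _ h1).1.1 hz).2.ne' i1
  refine ⟨cont, chart_inj hg k h0 h4, ⟨?_, fun z hz w hw => key z hz w (sub hw), ?_, ?_⟩, nev, last⟩
  · rw [hc]
    exact (cov hg).continuous.comp_continuousOn cont
  · have := (fibSt hg).2
    rw [← isClosed_compl_iff]
    have e : ((pe g ∘ qe hg k) '' Qo g k δ)ᶜ = ⋃ n ∈ Finset.range (4 * g),
        (fun p : ℝ × ℝ => pr g (pt g n p.1 p.2)) '' {p | (|p.2| ≤ p.1 ∧ p.1 ≤ 1) ∧ (1 / 2 ≤ |p.2| ∨
          ((n : ℤ) ≡ k + 2 * g [ZMOD (4 * g : ℕ)] ∧ p.1 = 1 - δ) ∨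
          (p.1 = 1 ∧ (δ = 0 ∨ ¬ (n : ℤ) ≡ k [ZMOD (2 * g : ℕ)])))} := by
      ext x
      simp only [mem_iUnion, Finset.mem_range, mem_compl_iff]
      constructor
      · intro hx
        obtain ⟨j, a, b, h1, h2, rfl⟩ := pr_surj_pt hg x
        obtain ⟨n, hn, e⟩ := exists_nat_ze hg j
        rw [pt_congr hg ((ze_eq_iff hg).1 e)] at hx ⊢
        exact ⟨n, hn, (a, b), ⟨⟨h1, h2⟩, (last _ _ _ h1 h2).1 hx⟩, rfl⟩
      · rintro ⟨n, -, p, ⟨⟨h1, h2⟩, h⟩, rfl⟩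
        exact (last _ _ _ h1 h2).2 h
    rw [e]
    refine isClosed_biUnion_finset fun n _ => (IsCompact.image ?_
      ((continuous_pr hg).comp (continuous_pt g n))).isClosed
    refine (isCompact_Icc (a := ((0 : ℝ), (-1 : ℝ))) (b := (1, 1))).of_isClosed_subset ?_ ?_
    · refine IsClosed.and (IsClosed.and (isClosed_le (by fun_prop) (by fun_prop))
        (isClosed_le (by fun_prop) (by fun_prop))) ?_
      exact (isClosed_le continuous_const continuous_snd.abs).union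
        ((isClosed_const.inter (isClosed_eq continuous_fst continuous_const)).union
          ((isClosed_eq continuous_fst continuous_const).inter isClosed_const))
    · rintro p ⟨⟨h1, h2⟩, -⟩
      have := abs_le.1 (h1.trans h2)
      exact ⟨⟨(abs_nonneg _).trans h1, this.1⟩, h2, this.2⟩
  · rw [Set.disjoint_left]
    rintro _ ⟨z, hz, rfl⟩ ⟨w, hw, e⟩
    obtain rfl := key z hz w (hc ▸ frontier_subset_closure hw) e.symm
    obtain ⟨j, a, b, h1, h2, h3, rfl⟩ := hz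
    rcases ((hm _ _ _ h1).2.2.1 hw).2.2 with h | h
    · exact h2.ne h
    · exact h3.ne h

end Pool.Agent.MCG
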