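import Pool.Agent.Lib.MP_c86c76_al.Ba.St

/-!
A homeomorphism whose lift fixes all walls is isotopic to the identity.
-/

set_option autoImplicit false

namespace Pool.Agent.MCG

open Set Topology Metric Pool.Agent.PT

variable {g : ℕ}

theorem falex_len (g : ℕ) (k j : ℤ) : len g k 0 j = 1 := by
  unfold len
  split_ifs <;> norm_num

theorem falex_TS (hg : 0 < g) {k : ℤ} {z : ℂ} (hz : z ∈ Qc g k 0) : z ∈ TS g := by
  obtain ⟨j, a, b, h1, h2, h3, rfl⟩ := hz
  rw [falex_len] at h3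
  exact pt_TS hg j h1 h3 (by linarith)

theorem fAlexSt (hG : GearSt g) (hQ : ChartSt g) (hL : LiftSt g) (hF : FinSt g) :
    FAlexSt g := by
  intro hg f F hf hw
  have := (hF hg).1
  obtain ⟨hD, hcl, -⟩ := hG 0 0 le_rfl (by norm_num)
  obtain ⟨qc, qi, ch, hev, hiff⟩ := hQ hg 0 0 le_rfl (by norm_num)
  obtain ⟨L1, L2⟩ := hL (qe hg 0) (Qo g 0 0) hD (hcl ▸ qc) ch
  have hq : ∀ z ∈ Qc g 0 0, qe hg 0 z = ep hg 1 z := fun z hz => qe_in hg 0 (falex_TS hg hz).1
  have hsub : Qo g 0 0 ⊆ Qc g 0 0 := hcl ▸ subset_closure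
  have hK : IsCompact (Qc g 0 0) := (isCompact_Pol hg).of_isClosed_subset
    (hcl ▸ isClosed_closure) fun z hz => (falex_TS hg hz).1
  have hU : IsPreconnected (Qo g 0 0) := by
    obtain ⟨Φ, hΦ⟩ := hD
    rw [← hΦ.im]
    exact (convex_ball 0 1).isPreconnected.image Φ (hΦ.cont.mono ball_subset_closedBall)
  have offF : ∀ e, pe g e ∉ (pe g ∘ qe hg 0) '' Qo g 0 0 → F e = e := by
    intro e he
    obtain ⟨γ, z, hz, rfl⟩ := ep_surj hg e
    obtain ⟨j, a, b, h, rfl⟩ := exists_pt hg z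
    have ha : a ≤ 1 := by
      have := (mem_Pol hg).1 hz.1
      rwa [nm_pt hg h] at this
    rcases le_or_gt (1 / 2) |b| with hb | hb
    · exact hf.fix _ (by rw [pe_ep hg γ hz]; exact (mem_Ev hg h ha).2 hb)
    rw [pe_ep hg γ hz, hiff j a b h ha] at he
    obtain rfl : a = 1 := by
      rcases he with he | he | he
      · exact absurd he hb.not_ge
      · rw [he.2, sub_zero]
      · exact he.1
    rw [← mul_one γ, ← smul_ep, hf.eqv, hw j _ ⟨b, hb.le, rfl⟩]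
  have off : ∀ x ∉ (pe g ∘ qe hg 0) '' Qo g 0 0, f x = x := by
    intro x hx
    by_cases h : x = vv g
    · exact hf.fx x (h ▸ vv_mem_Ev)
    · obtain ⟨e, rfl⟩ := (cov hg).surj h
      rw [← hf.lift, offF e hx]
  have hFq : ContinuousOn (F ∘ qe hg 0) (Qc g 0 0) := hf.cont.comp_continuousOn qc
  obtain ⟨γ, hγ⟩ := L2 ((F ∘ qe hg 0) '' Qo g 0 0) (hU.image _ (hFq.mono hsub)) (by
    rintro _ ⟨z, hz, rfl⟩
    by_contra h
    have i := hf.inj hg (offF _ h)
    exact h ⟨z, hz, congrArg (pe g) i.symm⟩)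
  have m1 : MapsTo (F ∘ qe hg 0) (Qc g 0 0) ((fun z => γ • qe hg 0 z) '' Qc g 0 0) := by
    have i : MapsTo (F ∘ qe hg 0) (Qo g 0 0) ((fun z => γ • qe hg 0 z) '' Qc g 0 0) :=
      fun z hz => by
        obtain ⟨w, hw, e⟩ := hγ _ ⟨z, hz, rfl⟩
        exact ⟨w, hsub hw, e.symm⟩
    have i2 := i.closure_of_continuousOn (hcl ▸ hFq)
    have i3 : IsClosed ((fun z => γ • qe hg 0 z) '' Qc g 0 0) := (hK.image_of_continuousOn
      (((cov hg).continuous_smul γ).comp_continuousOn qc)).isClosed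
    rwa [hcl, i3.closure_eq] at i2
  obtain rfl : γ = 1 := by
    have hb : |(1 / 2 : ℝ)| = 1 / 2 := abs_of_pos (by norm_num)
    have h1 : |(1 / 2 : ℝ)| ≤ 3 / 4 := by rw [hb]; norm_num
    have hx : pt g 0 (3 / 4) (1 / 2) ∈ Qc g 0 0 :=
      ⟨0, _, _, h1, hb.le, by rw [falex_len]; norm_num, rfl⟩
    obtain ⟨z, hz, e⟩ := m1 hx
    have e' : ep hg γ z = ep hg 1 (pt g 0 (3 / 4) (1 / 2)) := by
      rw [← mul_one γ, ← smul_ep, ← hq z hz, ← hq _ hx]
      refine e.trans (hf.fix _ ?_)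
      rw [hq _ hx, pe_ep hg 1 (falex_TS hg hx)]
      exact (mem_Ev hg h1 (by norm_num)).2 hb.ge
    have e2 := congrArg (pe g) e'
    rw [pe_ep hg γ (falex_TS hg hz), pe_ep hg 1 (falex_TS hg hx)] at e2
    have e3 := (fibSt hg).inner hg (by rw [nm_pt hg h1]; norm_num) (falex_TS hg hz).1 e2.symm
    rw [← e3] at e'
    exact ep_inj hg e'
  simp only [one_smul] at m1 hγ
  have hη : ∀ z ∈ Qc g 0 0, qe hg 0 (Function.invFunOn (qe hg 0) (Qc g 0 0) (F (qe hg 0 z))) =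
      F (qe hg 0 z) := fun z hz => Function.invFunOn_eq (m1 hz)
  have mη : MapsTo (Function.invFunOn (qe hg 0) (Qc g 0 0) ∘ F ∘ qe hg 0) (Qo g 0 0)
      (Qo g 0 0) := fun z hz => by
    obtain ⟨w, hw, e⟩ := hγ _ ⟨z, hz, rfl⟩
    rw [Function.comp, e, qi.leftInvOn_invFunOn (hsub hw)]
    exact hw
  have hR : PT.Rel (Qo g 0 0) (Function.invFunOn (qe hg 0) (Qc g 0 0) ∘ F ∘ qe hg 0) := by
    refine ⟨?_, ⟨mη, ?_, ?_⟩, ?_⟩
    · rw [hcl]
      exact (contOn_invFunOn hK qc qi).comp hFq m1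
    · intro z hz w hw e
      refine qi (hsub hz) (hsub hw) (hf.inj hg ?_)
      rw [← hη z (hsub hz), ← hη w (hsub hw)]
      exact congrArg (qe hg 0) e
    · intro z hz
      obtain ⟨w, hw, e⟩ : f.symm (pe g (qe hg 0 z)) ∈ (pe g ∘ qe hg 0) '' Qo g 0 0 := by
        by_contra h
        have i := off _ h
        rw [f.apply_symm_apply] at i
        exact h ⟨z, hz, i⟩
      refine ⟨w, hw, ch.inj (mη hw) hz ?_⟩
      refine (congrArg (pe g) (hη w (hsub hw))).trans ?_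
      rw [hf.lift]
      exact (congrArg f e).trans (f.apply_symm_apply _)
    · intro z hz
      have hz' : z ∈ Qc g 0 0 := hcl ▸ frontier_subset_closure hz
      rw [Function.comp, Function.comp,
        offF _ fun h => disjoint_left.1 ch.dis h ⟨z, hz, rfl⟩, qi.leftInvOn_invFunOn hz']
  obtain ⟨h, H, i1, i2, i3, -, i4⟩ := L1 _ hev hR
  obtain rfl : h = f := by
    ext x
    by_cases hx : x ∈ (pe g ∘ qe hg 0) '' Qo g 0 0
    · obtain ⟨z, hz, rfl⟩ := hx
      rw [Function.comp, ← i2.lift, ← hf.lift, i4 z (subset_closure hz)]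
      exact congrArg (pe g) (hη z (hsub hz))
    · rw [i3 x hx, off x hx]
  exact i1

end Pool.Agent.MCG
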