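import Pool.Agent.Lib.MP_c86c76_al.Ba.St

/-!
Finiteness properties of the tree of polygons and the existence of leaves.
-/

set_option autoImplicit false

namespace Pool.Agent.MCG

open Set Topology

variable {g : ℕ}

theorem fin_t2 (hg : 0 < g) : T2Space (EE g) := by
  have := (fibSt hg).2
  refine ⟨fun e e' h => ?_⟩
  by_cases h1 : pe g e = pe g e'
  · exact (cov hg).cov.isCoveringMap.isSeparatedMap e e' (Subtype.ext h1) h
  · exact separated_by_continuous (cov hg).continuous h1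

theorem fin_emod (hg : 0 < g) (k : ℤ) :
    k % (4 * g : ℕ) ∈ Ico (0 : ℤ) (4 * g : ℕ) ∧ k ≡ k % (4 * g : ℕ) [ZMOD (4 * g : ℕ)] := by
  have hN : (0 : ℤ) < (4 * g : ℕ) := by omega
  exact ⟨⟨Int.emod_nonneg k hN.ne', Int.emod_lt_of_pos k hN⟩, (Int.mod_modEq _ _).symm⟩

theorem fin_nbhd (hg : 0 < g) (γ : FG g) : ∃ U : Set (EE g), IsOpen U ∧ (∀ z, em γ z ∈ U) ∧
    ∀ γ' z, em γ' z ∈ U → γ' = γ ∨ ∃ k, γ' = γ * ss g k := by
  let S : Set (FG g × TS g) :=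
    {a | a.1 = γ ∨ ∃ k : ℤ, a.1 = γ * ss g k ∧ (a.2 : ℂ) ∈ eCovW g (k + 2 * g)}
  have sat : ∀ a ∈ S, ∀ b : FG g × TS g, em a.1 a.2 = em b.1 b.2 → b ∈ S := by
    intro a ha b e
    rcases (eFibSt hg _ _ _ _).1 e with ⟨e1, e2⟩ | ⟨j, e1, e2⟩
    · exact (Prod.ext e1 e2 : a = b) ▸ ha
    · have hp : (a.2 : ℂ) - 2 * ze g j ∈ Pol g := e1 ▸ b.2.2.1
      rcases ha with a1 | ⟨k, a1, a2⟩
      · obtain ⟨β, hβ, e3⟩ := eFib_side hg a.2.2 hp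
        refine Or.inr ⟨j, by rw [e2, a1], ?_⟩
        rw [e1, e3, pt_sub hg, eCovW_pt hg, abs_neg]
        exact hβ
      · refine Or.inl ?_
        rw [e2, a1, (eCovW_glue hg a.2.2 hp a2).2, ss_add_two, mul_inv_cancel_right]
  have o : IsOpen S := by
    have e : S = Prod.fst ⁻¹' {γ} ∪ ⋃ k : ℤ,
        (Prod.fst ⁻¹' {γ * ss g k} ∩
          (fun a : FG g × TS g => (a.2 : ℂ)) ⁻¹' eCovW g (k + 2 * g)) := by
      ext a
      simp only [S, mem_ofPred_eq, mem_union, mem_preimage, mem_singleton_iff, mem_iUnion,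
        mem_inter_iff]
    rw [e]
    exact ((isOpen_discrete _).preimage continuous_fst).union (isOpen_iUnion fun k =>
      ((isOpen_discrete _).preimage continuous_fst).inter
        ((eCovW_open g _).preimage (continuous_subtype_val.comp continuous_snd)))
  refine ⟨Quot.mk _ '' S, ?_, fun z => ⟨(γ, z), Or.inl rfl, rfl⟩, ?_⟩
  · exact isQuotientMap_quot_mk.isOpen_preimage.1 ((Subset.antisymm (subset_preimage_image _ _)
      fun b ⟨a, ha, e⟩ => sat a ha b e) ▸ o)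
  · rintro γ' z ⟨a, ha, e⟩
    exact (sat a ha (γ', z) e).imp id fun ⟨k, h, _⟩ => ⟨k, h⟩

theorem fin_tiles (hg : 0 < g) (K : Set (EE g)) (hK : IsCompact K) :
    {γ | ∃ z ∈ TS g, ep hg γ z ∈ K}.Finite := by
  choose U hU using fin_nbhd hg
  obtain ⟨t, ht⟩ := hK.elim_finite_subcover U (fun γ => (hU γ).1) (by
    rintro ⟨γ, z⟩ -
    exact mem_iUnion.2 ⟨γ, (hU γ).2.1 z⟩)
  have h1 : ∀ γ : FG g, (insert γ ((fun k => γ * ss g k) '' Ico (0 : ℤ) (4 * g : ℕ))).Finite :=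
    fun γ => ((finite_Ico _ _).image _).insert γ
  refine (t.finite_toSet.biUnion fun γ _ => h1 γ).subset ?_
  rintro γ' ⟨z, hz, h⟩
  obtain ⟨γ, hγ, h2⟩ := mem_iUnion₂.1 (ht h)
  rw [ep_mem hg γ' hz] at h2
  refine mem_iUnion₂.2 ⟨γ, hγ, ?_⟩
  rcases (hU γ).2.2 γ' _ h2 with e | ⟨k, e⟩
  · exact Or.inl e
  · exact Or.inr ⟨_, (fin_emod hg k).1, by rw [e, ss_congr (fin_emod hg k).2]⟩

theorem fin_wall (hg : 0 < g) (γ γ' : FG g) (k k' : ℤ) : ∀ e ∈ Wl hg γ k, e ∈ Wl hg γ' k' →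
    (γ' = γ ∧ k' ≡ k [ZMOD (4 * g : ℕ)]) ∨
      (γ' = γ * ss g k ∧ k' ≡ k + 2 * g [ZMOD (4 * g : ℕ)]) := by
  rintro _ ⟨b, hb, rfl⟩ ⟨b', hb', e⟩
  have h1 : |b| < 1 := by linarith
  have h2 : |b'| < 1 := by linarith
  have m := pt_TS hg k h1.le le_rfl h1
  have m' := pt_TS hg k' h2.le le_rfl h2
  rcases (ep_eq_iff hg m m').1 e with ⟨e1, e2⟩ | ⟨l, e1, e2⟩
  · exact Or.inl ⟨e1.symm, eFib_frame hg h1 h2.le e2⟩
  · obtain ⟨c, hc, e3⟩ := eFib_side hg m (e1 ▸ m'.1)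
    have i1 := eFib_frame hg h1 hc.le e3
    rw [ze_congr hg i1, pt_sub hg] at e1
    exact Or.inr ⟨by rw [e2, ss_congr i1], eFib_frame hg (by rwa [abs_neg]) h2.le e1.symm⟩

theorem finSt : FinSt g := by
  intro hg
  refine ⟨fin_t2 hg, fin_tiles hg, fun F i hF => ?_, fin_wall hg⟩
  have h1 := fin_tiles hg _ ((isCompact_Wl hg 1 i).image hF)
  refine ((h1.prod (finite_Ico (0 : ℤ) (4 * g : ℕ))).image fun p => Wl hg p.1 p.2).subset ?_
  rintro _ ⟨⟨γ, k, rfl⟩, e, he, b, hb, h⟩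
  have h2 : |b| < 1 := by linarith
  exact ⟨(γ, k % (4 * g : ℕ)), ⟨⟨_, pt_TS hg k h2.le le_rfl h2, e, he, h⟩, (fin_emod hg k).1⟩,
    (Wl_congr hg γ (fin_emod hg k).2).symm⟩

theorem fin_letter {α : Type} [DecidableEq α] (a : α × Bool) (w : FreeGroup α) :
    (FreeGroup.mk [a] * w).norm = w.norm + 1 ∨ (w.norm = (FreeGroup.mk [a] * w).norm + 1 ∧
      ∃ tl, w.toWord = (a.1, !a.2) :: tl) := by
  have e : (FreeGroup.mk [a] * w).toWord = FreeGroup.reduce (a :: w.toWord) := by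
    conv_lhs => rw [← FreeGroup.mk_toWord (x := w), FreeGroup.mul_mk, FreeGroup.toWord_mk]
    rfl
  unfold FreeGroup.norm
  rw [e, FreeGroup.reduce.cons, FreeGroup.reduce_toWord]
  rcases w.toWord with _ | ⟨⟨c, d⟩, tl⟩
  · exact Or.inl rfl
  · dsimp only
    split_ifs with h
    · exact Or.inr ⟨rfl, tl, by rw [h.1, h.2, Bool.not_not]⟩
    · exact Or.inl rfl

theorem fin_xx (hg : 0 < g) (k : ℤ) : ∃ a : Fin (2 * g) × Bool, xx g k = FreeGroup.mk [a] ∧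
    ((a.2 = true ∧ ((a.1 : ℕ) : ℤ) = k % (4 * g : ℕ)) ∨
      (a.2 = false ∧ ((a.1 : ℕ) : ℤ) + 2 * g = k % (4 * g : ℕ))) := by
  obtain ⟨h0, h1⟩ := (fin_emod hg k).1
  unfold xx
  split_ifs with h h'
  · exact ⟨(⟨_, h⟩, true), rfl, Or.inl ⟨rfl, by dsimp only; omega⟩⟩
  · exact ⟨(⟨_, h'⟩, false), rfl, Or.inr ⟨rfl, by dsimp only; omega⟩⟩
  · omega

theorem fin_step (hg : 0 < g) (γ : FG g) (k : ℤ) : ∃ a : Fin (2 * g) × Bool,
    ((γ * ss g k).norm = γ.norm + 1 ∨ (γ.norm = (γ * ss g k).norm + 1 ∧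
      ∃ tl, γ⁻¹.toWord = (a.1, !a.2) :: tl)) ∧
    ((a.2 = true ∧ ((a.1 : ℕ) : ℤ) = ((2 * g + 1) * (k + 2 * g) + 2 * g) % (4 * g : ℕ)) ∨
      (a.2 = false ∧
        ((a.1 : ℕ) : ℤ) + 2 * g = ((2 * g + 1) * (k + 2 * g) + 2 * g) % (4 * g : ℕ))) := by
  obtain ⟨a, e, h⟩ := fin_xx hg ((2 * g + 1) * (k + 2 * g) + 2 * g)
  refine ⟨a, ?_, h⟩
  have e1 : FreeGroup.mk [a] * γ⁻¹ = (γ * ss g k)⁻¹ := by
    rw [← e, mul_inv_rev, ← ss_add_two]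
    rfl
  have h1 := fin_letter a γ⁻¹
  rwa [e1, FreeGroup.norm_inv_eq, FreeGroup.norm_inv_eq] at h1

theorem fin_step' (hg : 0 < g) (γ : FG g) (k : ℤ) :
    (γ * ss g k).norm = γ.norm + 1 ∨ γ.norm = (γ * ss g k).norm + 1 :=
  (fin_step hg γ k).elim fun _ h => h.1.imp id And.left

theorem fin_uniq (hg : 0 < g) {γ : FG g} {k j : ℤ} (hk : γ.norm = (γ * ss g k).norm + 1)
    (hj : γ.norm = (γ * ss g j).norm + 1) : j ≡ k [ZMOD (4 * g : ℕ)] := by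
  obtain ⟨a, a1 | ⟨-, t, a1⟩, a2⟩ := fin_step hg γ k
  · omega
  obtain ⟨b, b1 | ⟨-, t', b1⟩, b2⟩ := fin_step hg γ j
  · omega
  rw [a1, List.cons.injEq, Prod.mk.injEq, Bool.not_inj_iff] at b1
  obtain ⟨⟨e1, e2⟩, -⟩ := b1
  rw [← e1, ← e2] at b2
  have h : (2 * g + 1) * (j + 2 * g) + 2 * g ≡ (2 * g + 1) * (k + 2 * g) + 2 * g
      [ZMOD (4 * g : ℕ)] := by
    unfold Int.ModEq
    rcases a2 with ⟨c1, c2⟩ | ⟨c1, c2⟩ <;> rcases b2 with ⟨d1, d2⟩ | ⟨d1, d2⟩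
    · rw [← c2, ← d2]
    · exact absurd (c1.symm.trans d1) (by decide)
    · exact absurd (d1.symm.trans c1) (by decide)
    · rw [← c2, ← d2]
  obtain ⟨n, hn⟩ := Int.modEq_iff_dvd.1 h
  refine Int.modEq_iff_dvd.2 ⟨(2 * g + 1) * n - (g + 1) * (k - j), ?_⟩
  push_cast at hn ⊢
  linear_combination (2 * g + 1) * hn

theorem fin_depth (hF : FinSt g) (hg : 0 < g) {γ γ' : FG g} {k k' : ℤ}
    (e : Wl hg γ k = Wl hg γ' k') :
    max γ.norm (γ * ss g k).norm = max γ'.norm (γ' * ss g k').norm := by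
  have m : ep hg γ (pt g k 1 0) ∈ Wl hg γ k := ⟨0, by norm_num, rfl⟩
  rcases (hF hg).2.2.2 γ γ' k k' _ m (e ▸ m) with ⟨rfl, h⟩ | ⟨rfl, h⟩
  · rw [ss_congr h]
  · rw [ss_congr h, ss_add_two, mul_inv_cancel_right, max_comm]

theorem leafSt (hF : FinSt g) : LeafSt g := by
  rintro hg T i hT hW ⟨W0, m0, n0⟩
  choose! γ k hγ using hW
  obtain ⟨W, ⟨m, n⟩, hmax⟩ := exists_max_image (T \ {Wl hg 1 i})
    (fun W => max (γ W).norm (γ W * ss g (k W)).norm) hT.sdiff ⟨W0, m0, n0⟩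
  obtain ⟨δ, l, e, hl⟩ : ∃ δ l, W = Wl hg δ l ∧ δ.norm = (δ * ss g l).norm + 1 := by
    rcases fin_step' hg (γ W) (k W) with h | h
    · exact ⟨γ W * ss g (k W), k W + 2 * g, (hγ W m).trans (Wl_flip hg _ _).symm, by
        rwa [ss_add_two, mul_inv_cancel_right]⟩
    · exact ⟨_, _, hγ W m, h⟩
  refine ⟨δ, l, e ▸ m, e ▸ n, fun j hj => ?_⟩
  rcases fin_step' hg δ j with h | h
  · exfalso
    by_cases c : Wl hg δ j = Wl hg 1 i
    · have h1 := fin_depth hF hg c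
      have h2 := fin_step' hg 1 i
      rw [FreeGroup.norm_one] at h1 h2
      omega
    · have h1 := hmax _ ⟨hj, c⟩
      have h2 := fin_depth hF hg (hγ _ hj)
      have h3 := fin_depth hF hg (e.symm.trans (hγ W m))
      omega
  · exact fin_uniq hg hl h

end Pool.Agent.MCG
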