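import Pool.Agent.Lib.MP_c86c76_al.Ba.St

/-!
The gear is a disc.
-/

set_option autoImplicit false

namespace Pool.Agent.MCG

open Set Topology Metric Pool.Agent.PT

noncomputable section

variable {g : ℕ}

theorem gearLen (k : ℤ) {δ : ℝ} (h0 : 0 ≤ δ) (h1 : δ ≤ 1 / 4) (j : ℤ) :
    3 / 4 ≤ len g k δ j := by
  unfold len
  split_ifs <;> linarith

theorem gearLenCongr (k : ℤ) (δ : ℝ) {j l : ℤ} (h : j ≡ l [ZMOD (4 * g : ℕ)]) :
    len g k δ j = len g k δ l := by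
  have e : ∀ m : ℤ, j ≡ m [ZMOD (4 * g : ℕ)] ↔ l ≡ m [ZMOD (4 * g : ℕ)] :=
    fun m => ⟨h.symm.trans, h.trans⟩
  simp only [len, e]

theorem gearDiag (k : ℤ) {δ : ℝ} (h0 : 0 ≤ δ) (h1 : δ ≤ 1 / 4) (j : ℤ) {a : ℝ} (ha : 0 ≤ a) :
    max (2 * a) (a / len g k δ j) = 2 * a := by
  have := gearLen (g := g) k h0 h1 j
  refine max_eq_left ?_
  rw [div_le_iff₀ (by linarith)]
  nlinarith

theorem gearWd (hg : 0 < g) (k : ℤ) {δ : ℝ} (h0 : 0 ≤ δ) (h1 : δ ≤ 1 / 4) {j l : ℤ}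
    {a b a' b' : ℝ} (h : |b| ≤ a) (h' : |b'| ≤ a') (e : pt g j a b = pt g l a' b') :
    max (2 * |b|) (a / len g k δ j) = max (2 * |b'|) (a' / len g k δ l) := by
  have ha := (abs_nonneg b).trans h
  rcases ha.eq_or_lt with rfl | hp
  · have i : a' = 0 := by rw [← nm_pt hg h' (k := l), ← e, nm_pt hg h]
    subst i
    rw [abs_nonpos_iff.1 h, abs_nonpos_iff.1 h', zero_div, zero_div]
  obtain ⟨rfl, ⟨i, rfl⟩ | ⟨-, rfl, rfl⟩ | ⟨-, rfl, rfl⟩⟩ := pt_eq_pt hg h h' hp e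
  · rw [gearLenCongr k δ i]
  · rw [abs_neg, abs_of_pos hp, gearDiag k h0 h1 _ ha, gearDiag k h0 h1 _ ha]
  · rw [abs_neg, abs_of_pos hp, gearDiag k h0 h1 _ ha, gearDiag k h0 h1 _ ha]

/-- The gauge of the gear. -/
theorem gearGauge (hg : 0 < g) (k : ℤ) {δ : ℝ} (h0 : 0 ≤ δ) (h1 : δ ≤ 1 / 4) :
    ∃ N : ℂ → ℝ, Continuous N ∧ ∀ (j : ℤ) (a b : ℝ), |b| ≤ a →
      N (pt g j a b) = max (2 * |b|) (a / len g k δ j) := by
  choose J A B hB hz using exists_pt hg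
  have hN : ∀ (j : ℤ) (a b : ℝ), |b| ≤ a →
      max (2 * |B (pt g j a b)|) (A (pt g j a b) / len g k δ (J (pt g j a b))) =
        max (2 * |b|) (a / len g k δ j) :=
    fun j a b h => gearWd hg k h0 h1 (hB _) h (hz _).symm
  refine ⟨fun z => max (2 * |B z|) (A z / len g k δ (J z)), ?_, hN⟩
  have cA : ∀ j, Continuous (fibA g j) := fun j => by unfold fibA; fun_prop
  have cB : ∀ j, Continuous (fibB g j) := fun j => by unfold fibB; fun_prop
  refine (locallyFinite_of_finite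
    (fun n : Fin (4 * g) => {z | |fibB g (n : ℕ) z| ≤ fibA g (n : ℕ) z})).continuous ?_
    (fun n => isClosed_le (cB _).abs (cA _)) fun n => ?_
  · refine eq_univ_of_forall fun z => ?_
    obtain ⟨j, a, b, h, rfl⟩ := exists_pt hg z
    obtain ⟨n, hn, e⟩ := exists_nat_ze hg j
    refine mem_iUnion.2 ⟨⟨n, hn⟩, ?_⟩
    rw [pt_congr hg ((ze_eq_iff hg).1 e)]
    change |fibB g n _| ≤ fibA g n _
    rwa [fibA_pt, fibB_pt hg]
  · have c : Continuous fun z =>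
        max (2 * |fibB g (n : ℕ) z|) (fibA g (n : ℕ) z / len g k δ (n : ℕ)) :=
      (continuous_const.mul (cB _).abs).max ((cA _).div_const _)
    refine c.continuousOn.congr fun z hz => ?_
    have := hN (n : ℕ) _ _ hz
    rwa [fib_pt hg] at this

theorem gearSt (hg : 0 < g) (hD : DiscSt) : GearSt g := by
  intro k δ h0 h1
  obtain ⟨N, hc, hN⟩ := gearGauge hg k h0 h1
  have hl : ∀ j, 0 < len g k δ j := fun j => by linarith [gearLen (g := g) k h0 h1 j]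
  have lt : ∀ (j : ℤ) (a b : ℝ), |b| ≤ a →
      (N (pt g j a b) < 1 ↔ |b| < 1 / 2 ∧ a < len g k δ j) := fun j a b h => by
    rw [hN j a b h, max_lt_iff, div_lt_one (hl j)]
    exact and_congr_left fun _ => ⟨fun _ => by linarith, fun _ => by linarith⟩
  have le : ∀ (j : ℤ) (a b : ℝ), |b| ≤ a →
      (N (pt g j a b) ≤ 1 ↔ |b| ≤ 1 / 2 ∧ a ≤ len g k δ j) := fun j a b h => by
    rw [hN j a b h, max_le_iff, div_le_one (hl j)]
    exact and_congr_left fun _ => ⟨fun _ => by linarith, fun _ => by linarith⟩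
  have eo : Qo g k δ = {z | N z < 1} := by
    ext z
    constructor
    · rintro ⟨j, a, b, h, h2, h3, rfl⟩
      exact (lt j a b h).2 ⟨h2, h3⟩
    · intro hz
      obtain ⟨j, a, b, h, rfl⟩ := exists_pt hg z
      exact ⟨j, a, b, h, ((lt j a b h).1 hz).1, ((lt j a b h).1 hz).2, rfl⟩
  have ec : Qc g k δ = {z | N z ≤ 1} := by
    ext z
    constructor
    · rintro ⟨j, a, b, h, h2, h3, rfl⟩
      exact (le j a b h).2 ⟨h2, h3⟩
    · intro hz
      obtain ⟨j, a, b, h, rfl⟩ := exists_pt hg z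
      exact ⟨j, a, b, h, ((le j a b h).1 hz).1, ((le j a b h).1 hz).2, rfl⟩
  obtain ⟨⟨Φ, hΦ, -⟩, hcl⟩ := hD.2.2.2 N hc (fun s hs z => by
    obtain ⟨j, a, b, h, rfl⟩ := exists_pt hg z
    rw [← pt_smul, hN j a b h, hN j _ _ (by
      rw [abs_mul, abs_of_nonneg hs]; exact mul_le_mul_of_nonneg_left h hs),
      mul_max_of_nonneg _ _ hs, abs_mul, abs_of_nonneg hs, mul_left_comm, mul_div_assoc])
    (fun z hz => by
      obtain ⟨j, a, b, h, rfl⟩ := exists_pt hg z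
      rw [hN j a b h]
      refine lt_max_of_lt_right (div_pos (((abs_nonneg b).trans h).lt_of_ne ?_) (hl j))
      rintro rfl
      exact hz (by rw [abs_nonpos_iff.1 h, pt_zero]))
  rw [eo, ec]
  refine ⟨⟨Φ, hΦ⟩, hcl, fun j a b h => ⟨lt j a b h, le j a b h, ?_⟩⟩
  rw [hΦ.op.frontier_eq, hcl]
  change N _ ≤ 1 ∧ ¬ N _ < 1 ↔ _
  rw [lt j a b h, le j a b h, and_assoc]
  refine and_congr_right fun i1 => and_congr_right fun i2 => ⟨fun i => ?_, fun i i' => ?_⟩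
  · by_contra hn
    rw [not_or] at hn
    exact i ⟨i1.lt_of_ne hn.1, i2.lt_of_ne hn.2⟩
  · exact i.elim i'.1.ne i'.2.ne

end

end Pool.Agent.MCG
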