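import Pool.Agent.Lib.MP_c86c76_al.Ba.St

/-!
Germs at the centre: up to a rotation and a reflection, a homeomorphism that fixes the centre is
isotopic relative to the centre to one which is the identity on the half-size polygon.
-/

set_option autoImplicit false

namespace Pool.Agent.MCG

open Set Topology Metric Pool.Agent.PT

variable {g : ℕ}

theorem germs_conj_mem (hg : 0 < g) {z : ℂ} (hz : z ∈ Pol g) : (starRingEnd ℂ) z ∈ Pol g := by
  rw [mem_Pol hg, nm_le_iff] at hz ⊢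
  intro k
  have := hz (-k)
  rwa [← Complex.conj_re, map_div₀, conj_ze, neg_neg] at this

/-- The reflection as a map. -/
noncomputable def germsRef (hg : 0 < g) : Surf g → Surf g :=
  desc (fun z => pr g ((starRingEnd ℂ) z)) fun z k h h' => by
    have e : (starRingEnd ℂ) (z - 2 * ze g k) = (starRingEnd ℂ) z - 2 * ze g (-k) := by
      rw [map_sub, map_mul, conj_ze, map_ofNat]
    have := germs_conj_mem hg h'
    rw [e] at this ⊢
    exact pr_glue (germs_conj_mem hg h) this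

theorem germs_ref_pr (hg : 0 < g) {z : ℂ} (hz : z ∈ Pol g) :
    germsRef hg (pr g z) = pr g ((starRingEnd ℂ) z) := desc_pr _ _ hz

theorem germs_ref_cont (hg : 0 < g) : Continuous (germsRef hg) :=
  continuous_of_pr (((continuous_pr hg).comp Complex.continuous_conj).continuousOn.congr
    fun _ hz => germs_ref_pr hg hz)

theorem germs_ref_ref (hg : 0 < g) (x : Surf g) : germsRef hg (germsRef hg x) = x := by
  obtain ⟨z, hz, rfl⟩ := pr_surj x
  rw [germs_ref_pr hg hz, germs_ref_pr hg (germs_conj_mem hg hz), Complex.conj_conj]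

theorem germs_exists_ref (hg : 0 < g) : ∃ s : Surf g ≃ₜ Surf g, IsRef s :=
  ⟨⟨⟨germsRef hg, germsRef hg, germs_ref_ref hg, germs_ref_ref hg⟩,
    germs_ref_cont hg, germs_ref_cont hg⟩, fun _ hz => germs_ref_pr hg hz⟩

theorem germs_ze (hg : 0 < g) (k : ℕ) : ze g ((g * k : ℕ) : ℤ) = Complex.I ^ k := by
  have h0 : (g : ℂ) ≠ 0 := by exact_mod_cast hg.ne'
  have : ze g (g : ℕ) = Complex.I := by
    refine (ze_eq g _).trans (Eq.trans ?_ Complex.exp_pi_div_two_mul_I)
    congr 2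
    push_cast
    field_simp
  rw [ze_nat, pow_mul, ← ze_nat, this]

theorem germs_norm_qt (k : ℕ) (s : Bool) (z : ℂ) : ‖qt k s z‖ = ‖z‖ := by
  cases s <;> simp [qt]

theorem germs_main (hg : 0 < g) (hG : GermSt) (hC : CDiscSt g) (hN : NearSt g)
    (f : Surf g ≃ₜ Surf g) (hf : f (cc g) = cc g) : ∃ (k : ℕ) (s : Bool),
      ∀ F : Surf g ≃ₜ Surf g, (∀ z ∈ Pol g, F (pr g z) = f (pr g (qt k s z))) → Near F := by
  have hF := fibSt hg
  obtain ⟨cd, cd1, cd2⟩ := hF.exists_cd hg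
  have hb : ∀ z ∈ ball (0 : ℂ) (7 / 8), nm g z < 1 := fun z hz =>
    (nm_le_norm g z).trans_lt ((mem_ball_zero_iff.1 hz).trans (by norm_num))
  have hO : IsOpen (pr g '' ball (0 : ℂ) (7 / 8)) := hF.isOpen_inner hg isOpen_ball hb
  have hc : Continuous fun z => f (pr g z) := f.continuous.comp (continuous_pr hg)
  obtain ⟨ε₀, e0, he⟩ := Metric.isOpen_iff.1 (hO.preimage hc) 0
    ⟨0, mem_ball_self (by norm_num), hf.symm⟩
  obtain ⟨ε, e1, e2, e3⟩ : ∃ ε : ℝ, 0 < ε ∧ ε < 7 / 8 ∧ ε < ε₀ :=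
    ⟨min (1 / 2) (ε₀ / 2), by positivity, (min_le_left _ _).trans_lt (by norm_num),
      (min_le_right _ _).trans_lt (by linarith)⟩
  have hm : ∀ z ∈ closedBall (0 : ℂ) ε, f (pr g z) ∈ pr g '' ball (0 : ℂ) (7 / 8) := fun z hz =>
    he (closedBall_subset_ball e3 hz)
  have hk : ∀ z ∈ closedBall (0 : ℂ) ε,
      cd (f (pr g z)) ∈ ball (0 : ℂ) (7 / 8) ∧ pr g (cd (f (pr g z))) = f (pr g z) := by
    intro z hz
    obtain ⟨w, hw, e⟩ := hm z hz
    rw [← e, cd1 w (hb w hw)]
    exact ⟨hw, rfl⟩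
  have hs : closedBall (0 : ℂ) ε ⊆ ball 0 (7 / 8) := closedBall_subset_ball e2
  obtain ⟨k, s, h, x, r, h1, h2, h3, h4⟩ := hG (fun z => cd (f (pr g z))) ε (7 / 8) e1 e2
    (cd2.comp hc.continuousOn fun z hz => image_mono (fun w hw => hb w hw) (hm z hz))
    (fun z hz w hw e => by
      have e' : f (pr g z) = f (pr g w) := by
        rw [← (hk z hz).2, ← (hk w hw).2]
        exact congrArg (pr g) e
      exact hF.inner hg (hb z (hs hz)) ((mem_Pol hg).2 (hb w (hs hw)).le) (f.injective e'))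
    (fun z hz => (hk z hz).1)
    (fun V hV hVo => by
      have e : (fun z => cd (f (pr g z))) '' V =
          ball (0 : ℂ) (7 / 8) ∩ pr g ⁻¹' (f '' (pr g '' V)) := by
        ext w
        constructor
        · rintro ⟨z, hz, rfl⟩
          have := hk z (ball_subset_closedBall (hV hz))
          exact ⟨this.1, _, ⟨z, hz, rfl⟩, this.2.symm⟩
        · rintro ⟨hw, _, ⟨z, hz, rfl⟩, e⟩
          exact ⟨z, hz, by simp only [e, cd1 w (hb w hw)]⟩
      rw [e]
      exact isOpen_ball.inter ((f.isOpenMap _ (hF.isOpen_inner hg hVo fun z hz =>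
        hb z (hs (ball_subset_closedBall (hV hz))))).preimage (continuous_pr hg)))
  obtain ⟨u, u1, u2⟩ := (hC (7 / 8) (by norm_num) (by norm_num)).1 h h1
  have hq : ∀ z ∈ ball (0 : ℂ) ε, z ∈ Pol g ∧ qt k s z ∈ closedBall (0 : ℂ) ε := fun z hz =>
    ⟨(mem_Pol hg).2 (hb z (hs (ball_subset_closedBall hz))).le, by
      rw [mem_closedBall_zero_iff, germs_norm_qt]; exact (mem_ball_zero_iff.1 hz).le⟩
  refine ⟨k, s, fun F hFq => hN F u ε r x ?_ h2 e2.le h3 (fun z hz => ?_) u1 fun z hz => ?_⟩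
  · have : qt k s 0 = 0 := norm_eq_zero.1 (by rw [germs_norm_qt, norm_zero])
    rw [cc, hFq 0 (zero_mem_Pol g), this]
    exact hf
  · rw [hFq z (hq z hz).1]
    exact hm _ (hq z hz).2
  · have i := hq z (h3 hz)
    rw [hFq z i.1, ← (hk _ i.2).2, u2 _ (ball_subset_closedBall (hk _ i.2).1)]
    exact congrArg (pr g) (h4 z hz)

theorem germSSt (hg : 0 < g) (hG : GermSt) (hC : CDiscSt g) (hN : NearSt g) : GermSSt g := by
  refine ⟨germs_exists_ref hg, fun R s f hR hs hf => ?_⟩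
  obtain ⟨k, b, h⟩ := germs_main hg hG hC hN f hf
  refine ⟨g * k, ?_⟩
  cases b
  · refine Or.inl (h _ fun z hz => ?_)
    rw [Homeomorph.mul_apply, hR.pow hg _ hz, germs_ze hg]
    rfl
  · refine Or.inr (h _ fun z hz => ?_)
    rw [Homeomorph.mul_apply, Homeomorph.mul_apply, hs z hz, hR.pow hg _ (germs_conj_mem hg hz),
      germs_ze hg]
    rfl

end Pool.Agent.MCG
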