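import Pool.Agent.Lib.MP_c86c76_al.Ba.St

/-!
Baer's theorem: a homeomorphism with an equivariant lift that is the identity near the vertex
is isotopic to the identity.
-/

set_option autoImplicit false

namespace Pool.Agent.MCG

open Set Topology Metric Pool.Agent.PT

variable {g : ℕ} {f : Surf g ≃ₜ Surf g} {F : EE g → EE g}

theorem kerWall (hg : 0 < g) {j k : ℤ} (h : j ≡ k [ZMOD (2 * g : ℕ)]) (γ : FG g) :
    ∃ δ, Wl hg γ k = Wl hg δ j := by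
  obtain ⟨c, hc⟩ := h.dvd
  obtain ⟨d, rfl | rfl⟩ := Int.even_or_odd' c
  · exact ⟨γ, (Wl_congr hg γ (Int.modEq_iff_dvd.2 ⟨d, by rw [hc]; push_cast; ring⟩)).symm⟩
  · refine ⟨γ * ss g k, (Wl_flip hg γ k).symm.trans
      (Wl_congr hg _ (Int.modEq_iff_dvd.2 ⟨d + 1, ?_⟩)).symm⟩
    push_cast at hc ⊢
    linear_combination hc

theorem kerFix (hg : 0 < g) (a : Lf f F) {j k : ℤ} (b : Fx hg F j)
    (h : j ≡ k [ZMOD (2 * g : ℕ)]) (γ : FG g) : ∀ e ∈ Wl hg γ k, F e = e := by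
  obtain ⟨δ, hδ⟩ := kerWall hg h γ
  intro e he
  have := smul_mem_Wl hg δ⁻¹ (hδ ▸ he)
  rw [inv_mul_cancel] at this
  have := b _ this
  rw [a.eqv] at this
  exact smul_left_cancel _ this

theorem kerEq (hg : 0 < g) (hF : FinSt g) {γ γ' : FG g} {k k' : ℤ} {e : EE g}
    (h : e ∈ Wl hg γ k) (h' : e ∈ Wl hg γ' k') : Wl hg γ' k' = Wl hg γ k := by
  rcases (hF hg).2.2.2 γ γ' k k' e h h' with ⟨rfl, i⟩ | ⟨rfl, i⟩
  · exact Wl_congr hg _ i
  · rw [Wl_congr hg _ i, Wl_flip]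

theorem kerBase (hg : 0 < g) (h1 : Last1St g) (h2 : Last2St g) (i : ℤ) (a : Lf f F)
    (hT : Tch hg F i ⊆ {Wl hg 1 i}) : ∃ h H, IsoId h ∧ Lf h H ∧ Fx hg (H ∘ F) i ∧
      ∀ j, ¬ j ≡ i [ZMOD (2 * g : ℕ)] → Fx hg F j → Fx hg (H ∘ F) j := by
  have := compactSpace_surf hg
  have := (fibSt hg).2
  obtain ⟨h, H, i1, i2, i3, i4⟩ := h1 hg f F i a hT
  have hs : Tch hg (H ∘ F) i ⊆ Tch hg F i := by
    rintro _ ⟨⟨γ, k, rfl⟩, e, he, hW⟩
    have := i2.inj hg (kerFix hg i2 (i3 k) (Int.ModEq.refl _) γ _ hW)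
    exact ⟨⟨γ, k, rfl⟩, e, he, this ▸ hW⟩
  obtain ⟨h', H', j1, j2, j3, j4⟩ := h2 hg _ _ i (i2.comp a) (hs.trans hT) i4
  refine ⟨h' * h, H' ∘ H, j1.mul i1, j2.comp i2, j4, fun j hj hx e he => ?_⟩
  simp only [Function.comp]
  rw [hx e he, i3 j e he, j3 j hj e he]

theorem kerStr (hg : 0 < g) (hF : FinSt g) (hL : LeafSt g) (hP : PshSt g) (h1 : Last1St g)
    (h2 : Last2St g) (i : ℤ) (n : ℕ) : ∀ (f : Surf g ≃ₜ Surf g) (F : EE g → EE g), Lf f F →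
      (Tch hg F i).ncard < n → ∃ h H, IsoId h ∧ Lf h H ∧ Fx hg (H ∘ F) i ∧
        ∀ j, ¬ j ≡ i [ZMOD (2 * g : ℕ)] → Fx hg F j → Fx hg (H ∘ F) j := by
  have := compactSpace_surf hg
  have := (fibSt hg).2
  induction n with
  | zero => exact fun _ _ _ h => absurd h (Nat.not_lt_zero _)
  | succ n ih =>
    intro f F a hn
    by_cases hT : Tch hg F i ⊆ {Wl hg 1 i}
    · exact kerBase hg h1 h2 i a hT
    have fin := (hF hg).2.2.1 F i a.cont
    obtain ⟨γ, k, m, ne, hk⟩ := hL hg _ i fin (fun W hW => hW.1) (not_subset.1 hT)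
    obtain ⟨h, H, i1, i2, i3, i4⟩ := hP hg f F i γ k a m ne hk
    have lt : (Tch hg (H ∘ F) i).ncard < (Tch hg F i).ncard :=
      ncard_lt_ncard ⟨i4.trans sdiff_subset, fun hs => (i4 (hs m)).2 rfl⟩ fin
    obtain ⟨h', H', j1, j2, j3, j4⟩ := ih _ _ (i2.comp a) (by omega)
    refine ⟨h' * h, H' ∘ H, j1.mul i1, j2.comp i2, j3, fun j hj hx => j4 j hj fun e he => ?_⟩
    have hjk : ¬ j ≡ k [ZMOD (2 * g : ℕ)] := fun hjk => by
      obtain ⟨-, e, he, hW⟩ := m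
      have := a.inj hg (kerFix hg a hx hjk γ _ hW)
      exact ne (kerEq hg hF he (this ▸ hW))
    rw [Function.comp, hx e he, i3 j hjk e he]

theorem kerSt (hg : 0 < g) (hF : FinSt g) (hL : LeafSt g) (hP : PshSt g) (h1 : Last1St g)
    (h2 : Last2St g) (hA : FAlexSt g) : KerSt g := by
  have := compactSpace_surf hg
  have := (fibSt hg).2
  intro f F a
  have key : ∀ n : ℕ, ∃ h H, IsoId h ∧ Lf h H ∧ ∀ j : ℕ, j < n → Fx hg (H ∘ F) j := by
    intro n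
    induction n with
    | zero => exact ⟨1, id, isoId_one, Lf.one, fun _ h => absurd h (Nat.not_lt_zero _)⟩
    | succ n ih =>
      obtain ⟨h, H, i1, i2, i3⟩ := ih
      obtain ⟨h', H', j1, j2, j3, j4⟩ :=
        kerStr hg hF hL hP h1 h2 n _ _ _ (i2.comp a) (Nat.lt_succ_self _)
      refine ⟨h' * h, H' ∘ H, j1.mul i1, j2.comp i2, fun j hj => ?_⟩
      by_cases hn : (j : ℤ) ≡ n [ZMOD (2 * g : ℕ)]
      · exact kerFix hg (j2.comp (i2.comp a)) j3 hn.symm 1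
      · exact j4 j hn (i3 j (lt_of_le_of_ne (Nat.lt_succ_iff.1 hj)
          fun e => hn (e ▸ Int.ModEq.refl _)))
  obtain ⟨h, H, i1, i2, i3⟩ := key (2 * g)
  have p : (0 : ℤ) < (2 * g : ℕ) := by positivity
  have := hA hg _ _ (i2.comp a) fun j => by
    have n0 := Int.emod_nonneg j p.ne'
    have n1 := Int.emod_lt_of_pos j p
    refine kerFix hg (i2.comp a) (i3 (j % (2 * g : ℕ)).toNat (by omega)) ?_ 1
    rw [Int.toNat_of_nonneg n0]
    exact Int.mod_modEq _ _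
  have e := i1.inv.mul this
  rwa [inv_mul_cancel_left] at e

end Pool.Agent.MCG
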