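import Pool.Agent.Lib.MP_c86c76_al.Ba.St

/-!
The last step for one wall: the image of the wall is moved back onto the wall.
-/

set_option autoImplicit false

namespace Pool.Agent.MCG

open Set Topology Metric Pool.Agent.PT

variable {g : ℕ}

theorem last2_len (i : ℤ) (δ : ℝ) : len g i δ i = 1 + δ := if_pos (Int.ModEq.refl i)

theorem last2_len' (hg : 0 < g) {i j : ℤ} (δ : ℝ) (h : j ≡ i + 2 * g [ZMOD (4 * g : ℕ)]) :
    len g i δ j = 1 - δ := by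
  have h1 : ¬ j ≡ i [ZMOD (4 * g : ℕ)] := fun h' => by
    have h2 := (h'.symm.trans h).dvd
    have h3 : (0 : ℤ) < 2 * g := by positivity
    rw [add_sub_cancel_left] at h2
    have := Int.le_of_dvd h3 h2
    push_cast at this
    omega
  rw [len, if_neg h1, if_pos h]

theorem last2_mod {i j : ℤ} (h : i ≡ j [ZMOD (4 * g : ℕ)] ∨ i ≡ j + 2 * g [ZMOD (4 * g : ℕ)]) :
    j ≡ i [ZMOD (2 * g : ℕ)] := by
  have hd : ((2 * g : ℕ) : ℤ) ∣ ((4 * g : ℕ) : ℤ) := ⟨2, by push_cast; ring⟩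
  rcases h with h | h
  · exact (h.of_dvd hd).symm
  · refine ((h.of_dvd hd).trans ?_).symm
    exact (Int.modEq_iff_dvd.2 ⟨-1, by push_cast; ring⟩)

theorem last2_cpt {U : Set ℂ} (h : Disc U) : IsCompact (closure U) := by
  obtain ⟨Φ, h⟩ := h
  have hK := (isCompact_closedBall (0 : ℂ) 1).image_of_continuousOn h.cont
  refine hK.of_isClosed_subset isClosed_closure (closure_minimal ?_ hK.isClosed)
  rw [← h.im]
  exact image_mono ball_subset_closedBall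

theorem last2St (hM : MoveSt) (hG : GearSt g) (hQ : ChartSt g) (hL : LiftSt g) (hF : FinSt g) :
    Last2St g := by
  intro hg f F i hf hT hcut
  obtain ⟨hD, hcl, hm⟩ := hG i (1 / 4) (by norm_num) le_rfl
  obtain ⟨cq, iq, ch, hEv, hiff⟩ := hQ hg i (1 / 4) (by norm_num) le_rfl
  obtain ⟨t2, -, -, hW⟩ := hF hg
  obtain ⟨hL1, hL2⟩ := hL (qe hg i) _ hD (hcl ▸ cq) ch
  have hK : IsCompact (Qc g i (1 / 4)) := hcl ▸ last2_cpt hD
  set a : ℝ → ℂ := fun t => pt g i 1 (t - 1 / 2) with ha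
  set c : ℝ → EE g := fun t => F (ep hg 1 (a t)) with hc
  have hb : ∀ t ∈ Icc (0 : ℝ) 1, |t - 1 / 2| ≤ 1 / 2 := fun t ht =>
    abs_le.2 ⟨by linarith [ht.1], by linarith [ht.2]⟩
  have hb' : ∀ t ∈ Ioo (0 : ℝ) 1, |t - 1 / 2| < 1 / 2 := fun t ht =>
    abs_lt.2 ⟨by linarith [ht.1], by linarith [ht.2]⟩
  have hb1 : ∀ t ∈ Icc (0 : ℝ) 1, |t - 1 / 2| ≤ 1 := fun t ht => (hb t ht).trans (by norm_num)
  have haT : ∀ t ∈ Icc (0 : ℝ) 1, a t ∈ TS g := fun t ht =>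
    pt_TS hg i (hb1 t ht) le_rfl ((hb t ht).trans_lt (by norm_num))
  have haW : ∀ t ∈ Icc (0 : ℝ) 1, ep hg 1 (a t) ∈ Wl hg 1 i := fun t ht => ⟨_, hb t ht, rfl⟩
  have haq : ∀ t ∈ Icc (0 : ℝ) 1, qe hg i (a t) = ep hg 1 (a t) := fun t ht =>
    qe_in hg i (haT t ht).1
  have haQ : ∀ t ∈ Icc (0 : ℝ) 1, a t ∈ Qc g i (1 / 4) := fun t ht =>
    (hm i 1 _ (hb1 t ht)).2.1.2 ⟨hb t ht, by rw [last2_len]; norm_num⟩
  have hac : Continuous a :=
    (continuous_pt g i).comp (f := fun t : ℝ => ((1 : ℝ), t - 1 / 2)) (by fun_prop)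
  have hai : Function.Injective a := fun s t h => by
    have := (pt_inj hg h).2
    linarith
  have hcc : ContinuousOn c (Icc 0 1) :=
    hf.cont.comp_continuousOn ((continuousOn_ep hg 1).comp hac.continuousOn haT)
  have hend : ∀ t ∈ Icc (0 : ℝ) 1, |t - 1 / 2| = 1 / 2 →
      c t = qe hg i (a t) ∧ a t ∈ frontier (Qo g i (1 / 4)) := by
    intro t ht e
    refine ⟨?_, (hm i 1 _ (hb1 t ht)).2.2.2 ⟨hb t ht, by rw [last2_len]; norm_num, Or.inl e⟩⟩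
    rw [haq t ht]
    refine hf.fix _ ?_
    rw [pe_ep hg 1 (haT t ht)]
    exact (mem_Ev hg (hb1 t ht) le_rfl).2 e.ge
  have h0 : (0 : ℝ) ∈ Icc (0 : ℝ) 1 := left_mem_Icc.2 zero_le_one
  have h1 : (1 : ℝ) ∈ Icc (0 : ℝ) 1 := right_mem_Icc.2 zero_le_one
  have e0 := hend 0 h0 (by norm_num [abs_of_pos])
  have e1 := hend 1 h1 (by norm_num [abs_of_pos])
  have hA : ∀ e ∈ c '' Ioo 0 1, pe g e ∈ (pe g ∘ qe hg i) '' Qo g i (1 / 4) := by
    rintro _ ⟨t, ht, rfl⟩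
    have ht' := Ioo_subset_Icc_self ht
    obtain ⟨γ, z, hz, e⟩ := ep_surj hg (c t)
    obtain ⟨j, x, y, hxy, rfl⟩ := exists_pt hg z
    have hx : x ≤ 1 := by
      have := (mem_Pol hg).1 hz.1
      rwa [nm_pt hg hxy] at this
    have hp : pe g (c t) = pr g (pt g j x y) := by rw [e, pe_ep hg γ hz]
    by_contra hn
    rw [hp] at hn
    have hy : |y| < 1 / 2 := by
      by_contra hy
      have i1 : F (c t) = c t := hf.fix _ (hp ▸ (mem_Ev hg hxy hx).2 (not_lt.1 hy))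
      have i2 : c t = ep hg 1 (a t) := hf.inj hg i1
      have i3 := (mem_Ev hg (k := j) hxy hx).2 (not_lt.1 hy)
      rw [← hp, i2, pe_ep hg 1 (haT t ht')] at i3
      exact (hb' t ht).not_ge ((mem_Ev hg (hb1 t ht') le_rfl).1 i3)
    rcases (hiff j x y hxy hx).1 hn with h | ⟨h, rfl⟩ | ⟨rfl, h | h⟩
    · exact hy.not_ge h
    · refine hcut _ (haW t ht') y hy.le (hp.trans ?_)
      rw [pt_congr hg h]
      norm_num
    · norm_num at h
    · have i1 : c t ∈ Wl hg γ j := ⟨y, hy.le, e⟩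
      have i2 : Wl hg γ j = Wl hg 1 i := hT ⟨⟨γ, j, rfl⟩, _, haW t ht', i1⟩
      exact h (last2_mod ((hW γ 1 j i _ i1 (i2 ▸ i1)).imp And.right And.right))
  obtain ⟨γ, hγ⟩ := hL2 _ (isPreconnected_Ioo.image c (hcc.mono Ioo_subset_Icc_self)) hA
  have hγ1 : γ = 1 := by
    have hC : IsClosed ((fun z => γ • qe hg i z) '' Qc g i (1 / 4)) :=
      (hK.image_of_continuousOn (((cov hg).continuous_smul γ).comp_continuousOn cq)).isClosed
    have hm0 : c 0 ∈ closure (c '' Ioo 0 1) :=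
      ((hcc 0 h0).mono Ioo_subset_Icc_self).mem_closure_image
        (by rw [closure_Ioo zero_ne_one]; exact h0)
    obtain ⟨z, hz, e⟩ := closure_minimal (fun e he => by
      obtain ⟨z, hz, rfl⟩ := hγ e he
      exact ⟨z, hcl ▸ subset_closure hz, rfl⟩) hC hm0
    rw [e0.1, haq 0 h0] at e
    have hin : ∀ (j : ℤ) (x y : ℝ), |y| ≤ x → x < 1 → pr g (pt g j x y) ≠ pr g (a 0) := by
      intro j x y hxy hx h
      have := congrArg (nm g) ((fibSt hg).inner hg (by rwa [nm_pt hg hxy]) (haT 0 h0).1 h)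
      rw [nm_pt hg hxy, ha, nm_pt hg (hb1 0 h0)] at this
      exact hx.ne this
    have e' : pe g (qe hg i z) = pr g (a 0) := by
      rw [← pe_ep hg 1 (haT 0 h0), ← e, (cov hg).smul]
    obtain ⟨j, x, y, hxy, hy, hx, rfl⟩ := hz
    have hy1 : |y| < 1 := hy.trans_lt (by norm_num)
    rcases lt_trichotomy x 1 with h | rfl | h
    · rw [qe_in hg i (pt_mem hg j hxy h.le), pe_ep hg 1 (pt_TS hg j hxy h.le hy1)] at e'
      exact absurd e' (hin j x y hxy h)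
    · simp only [qe_in hg i (pt_mem hg j hxy le_rfl), smul_ep, mul_one] at e
      rcases hW 1 γ i j _ (haW 0 h0) ⟨y, hy, e.symm⟩ with h | h
      · exact h.1
      · rw [last2_len' hg _ h.2] at hx
        norm_num at hx
    · have hj : j ≡ i [ZMOD (4 * g : ℕ)] := by
        by_contra hj
        rw [len, if_neg hj] at hx
        split_ifs at hx <;> linarith
      have hx' : x ≤ 1 + 1 / 4 := by rwa [len, if_pos hj] at hx
      have hy2 : |-y| ≤ 2 - x := by rw [abs_neg]; linarith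
      rw [pt_congr hg hj, qe_out hg i h.le hy1,
        pe_ep hg _ (pt_TS hg _ hy2 (by linarith) (by rwa [abs_neg]))] at e'
      exact absurd e' (hin _ _ _ hy2 (by linarith))
  subst hγ1
  have hmid : ∀ t ∈ Ioo (0 : ℝ) 1, ∃ z ∈ Qo g i (1 / 4), c t = qe hg i z := fun t ht => by
    simpa only [one_smul] using hγ _ ⟨t, ht, rfl⟩
  have hcQ : MapsTo c (Icc 0 1) (qe hg i '' Qc g i (1 / 4)) := by
    intro t ht
    rcases ht.1.lt_or_eq with i0 | rfl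
    · rcases ht.2.lt_or_eq with i1 | rfl
      · obtain ⟨z, hz, e⟩ := hmid t ⟨i0, i1⟩
        exact ⟨z, hcl ▸ subset_closure hz, e.symm⟩
      · exact ⟨_, haQ 1 h1, e1.1.symm⟩
    · exact ⟨_, haQ 0 h0, e0.1.symm⟩
  set κ : ℝ → ℂ := fun t => Function.invFunOn (qe hg i) (Qc g i (1 / 4)) (c t) with hκ
  have hκQ : ∀ t ∈ Icc (0 : ℝ) 1, κ t ∈ Qc g i (1 / 4) := fun t ht =>
    Function.invFunOn_mem (hcQ ht)
  have hκq : ∀ t ∈ Icc (0 : ℝ) 1, qe hg i (κ t) = c t := fun t ht =>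
    Function.invFunOn_eq (hcQ ht)
  have k0 : κ 0 = a 0 := iq (hκQ 0 h0) (haQ 0 h0) ((hκq 0 h0).trans e0.1)
  have k1 : κ 1 = a 1 := iq (hκQ 1 h1) (haQ 1 h1) ((hκq 1 h1).trans e1.1)
  have hκc : Cut (Qo g i (1 / 4)) κ := by
    refine ⟨⟨(contOn_invFunOn hK cq iq).comp hcc hcQ, fun s hs t ht e => ?_⟩, k0 ▸ e0.2,
      k1 ▸ e1.2, fun t ht => ?_⟩
    · have i1 : c s = c t := by rw [← hκq s hs, ← hκq t ht, e]
      have i2 := hf.inj hg i1
      rw [← haq s hs, ← haq t ht] at i2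
      exact hai (iq (haQ s hs) (haQ t ht) i2)
    · obtain ⟨z, hz, e⟩ := hmid t ht
      have ht' := Ioo_subset_Icc_self ht
      rwa [iq (hκQ t ht') (hcl ▸ subset_closure hz) ((hκq t ht').trans e)]
  have hcut' : Cut (Qo g i (1 / 4)) a :=
    ⟨⟨hac.continuousOn, hai.injOn⟩, e0.2, e1.2, fun t ht =>
      (hm i 1 _ (hb1 t (Ioo_subset_Icc_self ht))).1.2 ⟨hb' t ht, by rw [last2_len]; norm_num⟩⟩
  obtain ⟨η, hη, hηκ⟩ := hM _ κ a hD hκc hcut' k0 k1
  obtain ⟨h, H, i1, i2, -, i3, i4⟩ := hL1 η hEv hη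
  refine ⟨h, H, i1, i2, ?_, ?_⟩
  · rintro j hj _ ⟨b, hb2, rfl⟩
    have hb3 : |b| ≤ 1 := hb2.trans (by norm_num)
    refine i3 _ ?_
    rw [pe_ep hg 1 (pt_TS hg j hb3 le_rfl (hb2.trans_lt (by norm_num)))]
    exact (hiff j 1 b hb3 le_rfl).2 (Or.inr (Or.inr ⟨rfl, Or.inr hj⟩))
  · rintro _ ⟨b, hb2, rfl⟩
    have ht : b + 1 / 2 ∈ Icc (0 : ℝ) 1 :=
      ⟨by linarith [(abs_le.1 hb2).1], by linarith [(abs_le.1 hb2).2]⟩
    have e : pt g i 1 b = a (b + 1 / 2) := by simp [ha]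
    rw [e]
    show H (c (b + 1 / 2)) = _
    rw [← hκq _ ht, i4 _ (hcl ▸ hκQ _ ht), hηκ _ ht, haq _ ht]

end Pool.Agent.MCG
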