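import Pool.Agent.Lib.MP_c86c76_al.Ba.St

/-!
Homeomorphisms supported in a chart and their lifts.
-/

set_option autoImplicit false

namespace Pool.Agent.MCG

open Set Topology Metric Pool.Agent.PT
open scoped unitInterval

theorem lift_maps {U : Set ℂ} {h : ℂ → ℂ} (a : PT.Rel U h) : MapsTo h (closure U) (closure U) := by
  intro z hz
  rcases (closure_eq_self_union_frontier U).subset hz with hz' | hz'
  · exact subset_closure (a.bij.mapsTo hz')
  · rwa [a.fix z hz']

theorem lift_inv {S : Type} [TopologicalSpace S] [T2Space S] {Q : ℂ → S} {U : Set ℂ}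
    (hK : IsCompact (closure U)) (hC : Chart Q U) :
    ContinuousOn (Function.invFunOn Q U) (Q '' U) := by
  refine continuousOn_iff_isClosed.2 fun t ht => ⟨Q '' (closure U ∩ t),
    ((hK.inter_right ht).image_of_continuousOn (hC.cont.mono inter_subset_left)).isClosed, ?_⟩
  ext x
  refine and_congr_left ?_
  rintro ⟨z, hz, rfl⟩
  rw [mem_preimage, hC.inj.leftInvOn_invFunOn hz]
  refine ⟨fun h => ⟨z, ⟨subset_closure hz, h⟩, rfl⟩, fun ⟨w, hw, e⟩ => ?_⟩
  rcases (closure_eq_self_union_frontier U).subset hw.1 with h | h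
  · exact hC.inj h hz e ▸ hw.2
  · exact absurd ⟨w, h, e⟩ (disjoint_left.1 hC.dis ⟨z, hz, rfl⟩)

/-- The lift of an isotopy that fixes the puncture. -/
theorem lift_iso {G E S : Type} [Group G] [MulAction G E] [TopologicalSpace E]
    [TopologicalSpace S] {q : E → S} {c : S} (h : Cov G q c) {H : I → S ≃ₜ S} (hH : IFam H)
    (hc : ∀ t, H t c = c) (h0 : H 0 = 1) : ∃ F : E → E, Continuous F ∧
      (∀ e, q (F e) = H 1 (q e)) ∧ (∀ (γ : G) (e : E), F (γ • e) = γ • F e) ∧
      ∀ a : I → E, Continuous a → (∀ t, q (a t) = H t (q (a 0))) → F (a 0) = a 1 := by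
  have hne : ∀ t e, H t (q e) ≠ c := fun t e he => h.ne e ((H t).injective (he.trans (hc t).symm))
  let K : C(I × E, {x // x ≠ c}) := ⟨fun p => ⟨H p.1 (q p.2), hne _ _⟩,
    (hH.comp (continuous_fst.prodMk (h.continuous.comp continuous_snd))).subtype_mk _⟩
  have K0 : ∀ e, K (0, e) = ⟨q (ContinuousMap.id E e), h.ne _⟩ := fun e =>
    Subtype.ext (by show H 0 (q e) = q e; rw [h0]; rfl)
  let L := h.cov.isCoveringMap.liftHomotopy K (ContinuousMap.id E) K0
  have b1 : ∀ p, q (L p) = H p.1 (q p.2) := fun p => congrArg Subtype.val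
    (congrFun (h.cov.isCoveringMap.liftHomotopy_lifts K (ContinuousMap.id E) K0) p)
  have b0 : ∀ e, L (0, e) = e :=
    h.cov.isCoveringMap.liftHomotopy_zero K (ContinuousMap.id E) K0
  have b2 : ∀ a : I → E, Continuous a → (∀ t, q (a t) = H t (q (a 0))) → L (1, a 0) = a 1 :=
    fun a ha e => congrFun (h.eq_of_eq (a := fun t : I => L (t, a 0)) (by fun_prop) ha
      (fun t => by rw [b1, e t]) 0 (b0 _)) 1
  refine ⟨fun e => L (1, e), by fun_prop, fun e => b1 (1, e), fun γ e => ?_, b2⟩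
  have := b2 (fun t => γ • L (t, e)) ((h.continuous_smul γ).comp (by fun_prop))
    fun t => by simp only [h.smul, b1, b0]
  simpa only [b0] using this

theorem liftSt {g : ℕ} (hg : 0 < g) (hD : DiscSt) (hA : AlexSt) (hT : TransSt) : LiftSt g := by
  rintro q U ⟨Φ, hΦ⟩ hq hC
  have := compactSpace_surf hg
  have : T2Space (Surf g) := (fibSt hg).2
  have hK := (hD.1 Φ U hΦ).2.2.1
  refine ⟨fun η hE hη => ?_, fun C hC' hm => ?_⟩
  · obtain ⟨η', i1, i2, -⟩ := hA Φ U η hΦ hη
    obtain ⟨H, j1, j2, j3⟩ :=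
      (hT (Surf g) _ U hΦ.op (hK.isBounded.subset subset_closure) hC).1 η' i1
    have hE' : ∀ x ∈ Ev g, x ∉ (pe g ∘ q) '' U := by
      rintro _ hx ⟨z, hz, rfl⟩
      exact hE z hz hx
    obtain ⟨F, k1, k2, k3, k4⟩ := lift_iso (cov hg) (H := H) j1
      (fun t => (j3 t).1 _ (hE' _ vv_mem_Ev)) j2
    have k5 : ∀ e, pe g e ∉ (pe g ∘ q) '' U → F e = e := fun e he =>
      k4 (fun _ => e) continuous_const fun t => ((j3 t).1 _ he).symm
    refine ⟨H 1, F, ((famSt _).2.1 _).2 ⟨H, j1, j2, rfl⟩,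
      ⟨k1, k2, k3, fun e he => k5 e (hE' _ he), fun x hx => (j3 1).1 x (hE' x hx)⟩,
      (j3 1).1, k5, fun z hz => ?_⟩
    have := k4 (fun t => q (η' t z)) (hq.comp_continuous
      (i1.cont.comp_continuous (f := fun t : I => (t, z)) (by fun_prop) fun _ => ⟨trivial, hz⟩)
      fun t => lift_maps (i1.rel t) hz) fun t => by
        simp only [i1.zero z hz]
        exact ((j3 t).2 z hz).symm
    simpa only [i1.zero z hz, i2 z hz] using this
  · rcases C.eq_empty_or_nonempty with rfl | ⟨e₀, h₀⟩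
    · exact ⟨1, fun _ h => h.elim⟩
    have m1 : ∀ e ∈ C, Function.invFunOn (pe g ∘ q) U (pe g e) ∈ U := fun e he =>
      Function.invFunOn_mem (hm e he)
    have m2 : ∀ e ∈ C, pe g e = pe g (q (Function.invFunOn (pe g ∘ q) U (pe g e))) := fun e he =>
      (Function.invFunOn_eq (hm e he)).symm
    obtain ⟨γ, hγ⟩ := (cov hg).exists_smul (m2 e₀ h₀)
    refine ⟨γ, fun e he => ⟨_, m1 e he, (cov hg).eqOn_of_eq hC' continuousOn_id
      (b := fun e => γ • q (Function.invFunOn (pe g ∘ q) U (pe g e)))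
      (((cov hg).continuous_smul γ).comp_continuousOn (hq.comp ((lift_inv hK hC).comp
        (cov hg).continuous.continuousOn hm) fun e he => subset_closure (m1 e he)))
      (fun e he => by rw [(cov hg).smul]; exact m2 e he) h₀ hγ.symm he⟩⟩

end Pool.Agent.MCG
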