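import Pool.Agent.Lib.MP_c86c76_al.Ba.St

/-!
Pushing the image of a wall off a leaf wall.
-/

set_option autoImplicit false

namespace Pool.Agent.MCG

open Set Topology Metric Pool.Agent.PT

variable {g : ℕ}

theorem psh_ne (hg : 0 < g) (k : ℤ) : ¬ k ≡ k + 2 * g [ZMOD (4 * g : ℕ)] := fun h => by
  obtain ⟨c, hc⟩ := Int.modEq_iff_dvd.1 h
  push_cast at hc
  have h0 : (0 : ℤ) < g := by exact_mod_cast hg
  have : (g : ℤ) * (2 * c - 1) = 0 := by linarith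
  rcases mul_eq_zero.1 this with h1 | h1 <;> omega

theorem psh_split {j k : ℤ} (h : j ≡ k [ZMOD (2 * g : ℕ)]) :
    j ≡ k [ZMOD (4 * g : ℕ)] ∨ j ≡ k + 2 * g [ZMOD (4 * g : ℕ)] := by
  obtain ⟨c, hc⟩ := Int.modEq_iff_dvd.1 h
  push_cast at hc
  rcases Int.even_or_odd' c with ⟨d, rfl | rfl⟩
  · exact Or.inl (Int.modEq_iff_dvd.2 ⟨d, by push_cast; linarith⟩)
  · exact Or.inr (Int.modEq_iff_dvd.2 ⟨d + 1, by push_cast; linarith⟩)

theorem psh_half {j k : ℤ}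
    (h : j ≡ k [ZMOD (4 * g : ℕ)] ∨ j ≡ k + 2 * g [ZMOD (4 * g : ℕ)]) :
    j ≡ k [ZMOD (2 * g : ℕ)] := by
  rcases h with h | h <;> obtain ⟨c, hc⟩ := Int.modEq_iff_dvd.1 h <;> push_cast at hc
  · exact Int.modEq_iff_dvd.2 ⟨2 * c, by push_cast; linarith⟩
  · exact Int.modEq_iff_dvd.2 ⟨2 * c - 1, by push_cast; linarith⟩

theorem psh_len0 (k j : ℤ) : len g k 0 j = 1 := by
  unfold len
  split_ifs <;> simp

theorem psh_lenk (k : ℤ) (δ : ℝ) : len g k δ k = 1 + δ := if_pos (Int.ModEq.refl k)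

theorem psh_wl_eq (hF : FinSt g) (hg : 0 < g) {γ γ' : FG g} {k k' : ℤ} {e : EE g}
    (h : e ∈ Wl hg γ k) (h' : e ∈ Wl hg γ' k') : Wl hg γ' k' = Wl hg γ k := by
  rcases (hF hg).2.2.2 γ γ' k k' e h h' with ⟨rfl, i⟩ | ⟨rfl, i⟩
  · exact Wl_congr hg _ i
  · rw [Wl_congr hg _ i, Wl_flip]

theorem psh_side (hg : 0 < g) (k : ℤ) {b : ℝ} (h : |b| ≤ 1 / 2) : pt g k 1 b ∈ TS g :=
  pt_TS hg k (by linarith) le_rfl (by linarith)

theorem psh_Qc (hg : 0 < g) (k : ℤ) : Qc g k 0 ⊆ TS g := by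
  rintro z ⟨j, a, b, h1, h2, h3, rfl⟩
  rw [psh_len0] at h3
  exact pt_TS hg j h1 h3 (by linarith)

theorem psh_fib (hg : 0 < g) (k : ℤ) {z : ℂ} (hz : z ∈ Qo g k 0) : -1 < fibA g k z := by
  obtain ⟨j, a, b, h1, -, h3, e⟩ := hz
  rw [psh_len0] at h3
  have i1 : nm g z = a := by rw [e, nm_pt hg h1]
  have i2 := re_le_nm g z (k + 2 * g)
  rw [ze_add_two hg, div_neg, Complex.neg_re] at i2
  unfold fibA
  linarith

theorem psh_cut {U : Set ℂ} {κ : ℝ → ℂ} (h : Cut U κ) {t : ℝ} (ht : t ∈ Icc (0 : ℝ) 1) :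
    κ t ∈ closure U := by
  rcases ht.1.eq_or_lt with rfl | h0
  · exact frontier_subset_closure h.f0
  rcases ht.2.eq_or_lt with rfl | h1
  · exact frontier_subset_closure h.f1
  exact subset_closure (h.mid ⟨h0, h1⟩)

theorem psh_abs {t : ℝ} (ht : t ∈ Icc (0 : ℝ) 1) : |t - 1 / 2| ≤ 1 / 2 :=
  abs_le.2 ⟨by linarith [ht.1], by linarith [ht.2]⟩

theorem psh_arc (hg : 0 < g) (k : ℤ) : IsArc fun t => pt g k 1 (t - 1 / 2) :=
  ⟨((continuous_pt g k).comp (f := fun t : ℝ => ((1 : ℝ), t - 1 / 2)) (by fun_prop)).continuousOn,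
    fun s _ t _ e => by linarith [(pt_inj hg e).2]⟩

/-- A crosscut of the small gear that misses the traces of the image of the wall. -/
theorem psh_kappa (hC : CutSt) (hG : GearSt g) (hF : FinSt g) (hg : 0 < g)
    {f : Surf g ≃ₜ Surf g} {F : EE g → EE g} {i : ℤ} {γ : FG g} {k : ℤ} (hf : Lf f F)
    (hT : Wl hg γ k ∈ Tch hg F i) (hne : Wl hg γ k ≠ Wl hg 1 i)
    (hu : ∀ j, Wl hg γ j ∈ Tch hg F i → j ≡ k [ZMOD (4 * g : ℕ)]) :
    ∃ κ, Cut (Qo g k 0) κ ∧ κ 0 = pt g k 1 (0 - 1 / 2) ∧ κ 1 = pt g k 1 (1 - 1 / 2) ∧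
      ∀ t ∈ Icc (0 : ℝ) 1, ∀ γ', ∀ e ∈ Wl hg 1 i, F e = ep hg γ' (κ t) →
        γ' ≠ γ ∧ Wl hg γ' k ∈ Tch hg F i := by
  obtain ⟨hT2, hfin, -, -⟩ := hF hg
  obtain ⟨hD, hcl, hm⟩ := hG k 0 le_rfl (by norm_num)
  have hK : IsCompact (F '' Wl hg 1 i) := (isCompact_Wl hg 1 i).image hf.cont
  have hQ : IsClosed (Qc g k 0) := hcl ▸ isClosed_closure
  let A : FG g → Set ℂ := fun γ' => Qc g k 0 ∩ ep hg γ' ⁻¹' (F '' Wl hg 1 i)
  have hA : ∀ γ', IsCompact (A γ') := fun γ' =>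
    (isCompact_Pol hg).of_isClosed_subset
      (((continuousOn_ep hg γ').mono (psh_Qc hg k)).preimage_isClosed_of_isClosed hQ hK.isClosed)
      fun z hz => (psh_Qc hg k hz.1).1
  let S : Set (FG g) := {γ' | ∃ z ∈ TS g, ep hg γ' z ∈ F '' Wl hg 1 i} ∩
    {γ' | Wl hg γ' k ∉ Tch hg F i}
  have hS : S.Finite := (hfin _ hK).inter_of_left _
  have tch : ∀ (γ' : FG g) (j : ℤ) (b : ℝ), |b| ≤ 1 / 2 →
      ep hg γ' (pt g j 1 b) ∈ F '' Wl hg 1 i → Wl hg γ' j ∈ Tch hg F i := by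
    rintro γ' j b hb ⟨e, he, e'⟩
    exact ⟨⟨γ', j, rfl⟩, e, he, b, hb, e'⟩
  obtain ⟨κ, c1, c2, c3, c4⟩ := hC (Qo g k 0) (A γ) (⋃ γ' ∈ S, A γ') _ hD (psh_arc hg k)
    (by
      rintro _ ⟨t, ht, rfl⟩
      have := psh_abs ht
      exact (hm k 1 _ (by linarith)).2.2.2
        ⟨this, (psh_len0 k k).ge, Or.inr (psh_len0 k k).symm⟩)
    (hA γ) (hS.isCompact_biUnion fun γ' _ => hA γ')
    (by
      refine disjoint_left.2 fun z hz hz' => ?_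
      obtain ⟨γ', hγ', hz'⟩ := mem_iUnion₂.1 hz'
      obtain ⟨hq, _, ⟨b, hb, rfl⟩, e⟩ := hz
      obtain ⟨-, _, ⟨b', hb', rfl⟩, e'⟩ := hz'
      have i1 := congrArg (pe g) e
      have i2 := congrArg (pe g) e'
      rw [hf.lift, pe_ep hg _ (psh_side hg i ‹_›), pe_ep hg _ (psh_Qc hg k hq)] at i1 i2
      rcases pr_side_eq hg (by linarith) (by linarith) (f.injective (i1.trans i2.symm)) with
        ⟨-, rfl⟩ | ⟨h, -⟩
      · obtain rfl := ep_inj hg (e.symm.trans e')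
        exact hγ'.2 hT
      · exact psh_ne hg i h)
    (by
      rintro z ⟨⟨hq, hz⟩, hfr⟩
      obtain ⟨j, a, b, h1, rfl⟩ := exists_pt hg z
      obtain ⟨h2, h3, h4⟩ := (hm j a b h1).2.2.1 hfr
      rw [psh_len0] at h3 h4
      by_cases hb : |b| = 1 / 2
      · exfalso
        have hz' : ep hg γ (pt g j a b) ∈ Wl hg 1 i := by
          obtain ⟨e, he, e'⟩ := hz
          have := hf.fix (ep hg γ (pt g j a b)) (by
            rw [pe_ep hg _ (psh_Qc hg k hq)]; exact (mem_Ev hg h1 h3).2 hb.ge)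
          rwa [← hf.inj hg (e'.trans this.symm)]
        obtain rfl : a = 1 := by
          obtain ⟨b', hb', e⟩ := hz'
          rcases (ep_eq_iff hg (psh_Qc hg k hq) (psh_side hg i hb')).1 e with ⟨-, e⟩ | ⟨l, e, -⟩
          · rw [← nm_pt hg h1 (k := j), e, nm_pt hg (by linarith)]
          · obtain ⟨c, hc, e'⟩ := eFib_side hg (psh_Qc hg k hq) (e ▸ (psh_side hg i hb').1)
            rw [← nm_pt hg h1 (k := j), e', nm_pt hg hc.le]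
        exact hne ((Wl_congr hg γ (hu j (tch γ j b h2 hz))).symm.trans
          (psh_wl_eq hF hg hz' ⟨b, h2, rfl⟩))
      · obtain rfl := h4.resolve_left hb
        have := abs_lt.1 (h2.lt_of_ne hb)
        refine ⟨b + 1 / 2, ⟨by linarith, by linarith⟩, ?_⟩
        simp only [add_sub_cancel_right, pt_congr hg (hu j (tch γ j b h2 hz))])
    (by
      refine disjoint_left.2 ?_
      rintro _ hz ⟨t, ht, rfl⟩
      obtain ⟨γ', hγ', hz⟩ := mem_iUnion₂.1 hz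
      exact hγ'.2 (tch γ' k _ (psh_abs ht) hz.2))
  refine ⟨κ, c1, c2, c3, fun t ht γ' e he e' => ?_⟩
  have hq : κ t ∈ Qc g k 0 := hcl ▸ psh_cut c1 ht
  have hm' : κ t ∈ A γ' := ⟨hq, e, he, e'⟩
  refine ⟨fun h => c4 t ht (Or.inl (h ▸ hm')), by_contra fun h => c4 t ht (Or.inr ?_)⟩
  exact mem_iUnion₂.2 ⟨γ', ⟨⟨_, psh_Qc hg k hq, hm'.2⟩, h⟩, hm'⟩

theorem pshSt (_hA : ArcBasSt) (hM : MoveSt) (hC : CutSt) (hG : GearSt g) (hQ : ChartSt g)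
    (hL : LiftSt g) (hF : FinSt g) : PshSt g := by
  intro hg f F i γ k hf hT hne hu
  obtain ⟨κ, c1, c2, c3, c4⟩ := psh_kappa hC hG hF hg hf hT hne hu
  have hq : ∀ t ∈ Icc (0 : ℝ) 1, κ t ∈ TS g := fun t ht =>
    psh_Qc hg k ((hG k 0 le_rfl (by norm_num)).2.1 ▸ psh_cut c1 ht)
  obtain ⟨δ, d0, d1, hd⟩ : ∃ δ : ℝ, 0 < δ ∧ δ ≤ 1 / 4 ∧
      ∀ t ∈ Icc (0 : ℝ) 1, -1 + δ < fibA g k (κ t) := by
    have hc : Continuous (fibA g k) := by unfold fibA; fun_prop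
    obtain ⟨s, hs, hmin⟩ := isCompact_Icc.exists_isMinOn (nonempty_Icc.2 zero_le_one)
      (hc.comp_continuousOn c1.arc.1)
    have : -1 < fibA g k (κ s) := by
      rcases hs.1.eq_or_lt with rfl | h0
      · rw [c2, fibA_pt]; norm_num
      rcases hs.2.eq_or_lt with rfl | h1
      · rw [c3, fibA_pt]; norm_num
      exact psh_fib hg k (c1.mid ⟨h0, h1⟩)
    refine ⟨min (1 / 4) ((fibA g k (κ s) + 1) / 2), lt_min (by norm_num) (by linarith),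
      min_le_left _ _, fun t ht => ?_⟩
    have i1 : fibA g k (κ s) ≤ fibA g k (κ t) := hmin ht
    have i2 := min_le_right (1 / 4) ((fibA g k (κ s) + 1) / 2)
    linarith
  obtain ⟨hD, hcl, hm⟩ := hG k δ d0.le d1
  obtain ⟨q1, -, q3, q4, q5⟩ := hQ hg k δ d0.le d1
  have fr : ∀ b : ℝ, |b| = 1 / 2 → pt g k 1 b ∈ frontier (Qo g k δ) := fun b hb =>
    (hm k 1 b (by linarith)).2.2.2 ⟨hb.le, by rw [psh_lenk]; linarith, Or.inl hb⟩
  have f0 := fr (0 - 1 / 2) (by norm_num [abs_of_pos])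
  have f1 := fr (1 - 1 / 2) (by norm_num [abs_of_pos])
  have k1 : Cut (Qo g k δ) κ := ⟨c1.arc, c2 ▸ f0, c3 ▸ f1, fun t ht => by
    obtain ⟨j, a, b, h1, h2, h3, e⟩ := c1.mid ht
    rw [psh_len0] at h3
    refine ⟨j, a, b, h1, h2, ?_, e⟩
    unfold len
    split_ifs with i1 i2
    · linarith
    · have := hd t (Ioo_subset_Icc_self ht)
      rw [e, pt_congr hg i2, pt_add_two hg, fibA_pt] at this
      linarith
    · exact h3⟩
  have k2 : Cut (Qo g k δ) fun t => pt g k 1 (t - 1 / 2) := ⟨psh_arc hg k, f0, f1, fun t ht => by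
    have : |t - 1 / 2| < 1 / 2 := abs_lt.2 ⟨by linarith [ht.1], by linarith [ht.2]⟩
    exact ⟨k, 1, _, by linarith, this, by rw [psh_lenk]; linarith, rfl⟩⟩
  obtain ⟨η, r1, r2⟩ := hM _ _ _ hD k1 k2 c2 c3
  obtain ⟨h, H, l1, l2, -, l4, l5⟩ := (hL (qe hg k) _ hD (hcl ▸ q1) q3).1 η q4 r1
  have fx : ∀ j, ¬ j ≡ k [ZMOD (2 * g : ℕ)] → ∀ γ', ∀ e ∈ Wl hg γ' j, H e = e := by
    rintro j hj γ' _ ⟨b, hb, rfl⟩
    refine l4 _ ?_
    rw [pe_ep hg _ (psh_side hg j hb)]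
    exact (q5 j 1 b (by linarith) le_rfl).2 (Or.inr (Or.inr ⟨rfl, Or.inr hj⟩))
  have key : ∀ γ', ∀ e ∈ Wl hg 1 i, H (F e) ∈ Wl hg γ' k →
      Wl hg γ' k ∈ Tch hg F i \ {Wl hg γ k} := by
    rintro γ' e he ⟨b, hb, e'⟩
    have ht : b + 1 / 2 ∈ Icc (0 : ℝ) 1 :=
      ⟨by linarith [(abs_le.1 hb).1], by linarith [(abs_le.1 hb).2]⟩
    have i1 := l5 _ (psh_cut k1 ht)
    rw [r2 _ ht, add_sub_cancel_right, qe_in hg k (hq _ ht).1,
      qe_in hg k (psh_side hg k hb).1] at i1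
    have i2 : H (ep hg γ' (κ (b + 1 / 2))) = ep hg γ' (pt g k 1 b) := by
      rw [← mul_one γ', ← smul_ep, ← smul_ep, l2.eqv, i1]
    obtain ⟨n1, n2⟩ := c4 _ ht γ' e he (l2.inj hg (e'.trans i2.symm))
    refine ⟨n2, fun hw => ?_⟩
    have m : ep hg γ' (pt g k 1 b) ∈ Wl hg γ' k := ⟨b, hb, rfl⟩
    rcases (hF hg).2.2.2 γ γ' k k _ (mem_singleton_iff.1 hw ▸ m) m with ⟨i3, -⟩ | ⟨-, i3⟩
    · exact n1 i3
    · exact psh_ne hg k i3
  refine ⟨h, H, l1, l2, fun j hj => fx j hj 1, ?_⟩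
  rintro _ ⟨⟨γ', j, rfl⟩, e, he, m⟩
  change H (F e) ∈ _ at m
  by_cases hj : j ≡ k [ZMOD (2 * g : ℕ)]
  · rcases psh_split hj with i1 | i1
    · rw [Wl_congr hg γ' i1] at m ⊢
      exact key γ' e he m
    · rw [Wl_congr hg γ' i1, ← inv_mul_cancel_right γ' (ss g k), Wl_flip] at m ⊢
      exact key _ e he m
  · have i1 : F e = H (F e) := l2.inj hg (fx j hj γ' _ m).symm
    refine ⟨⟨⟨γ', j, rfl⟩, e, he, i1 ▸ m⟩, fun hw => hj (psh_half ?_)⟩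
    exact ((hF hg).2.2.2 γ γ' k j _ (mem_singleton_iff.1 hw ▸ m) m).imp And.right And.right

end Pool.Agent.MCG
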