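import Pool.Agent.Lib.MP_c86c76_al.Ba.St

/-!
Rotations near the centre.
-/

set_option autoImplicit false

namespace Pool.Agent.MCG

open Set Topology Metric Pool.Agent.PT

noncomputable section

variable {g : ℕ}

theorem rot_tt (hg : 0 < g) : tt g ≤ 1 := by
  rw [tt, ← Real.tan_pi_div_four]
  exact Real.strictMonoOn_tan.monotoneOn
    ⟨by linarith [ang_pos hg, Real.pi_pos], by linarith [ang_le hg, Real.pi_pos]⟩
    ⟨by linarith [Real.pi_pos], by linarith [Real.pi_pos]⟩ (ang_le hg)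

theorem rot_norm (hg : 0 < g) (z : ℂ) (h : nm g z ≤ 1 / 2) : ‖z‖ ≤ 3 / 4 := by
  obtain ⟨k, a, b, hb, rfl⟩ := exists_pt hg z
  rw [nm_pt hg hb] at h
  have h0 := (abs_nonneg b).trans hb
  have h1 : |b * tt g| ≤ 1 / 2 := by
    rw [abs_mul, abs_of_pos (tt_pos hg)]
    exact (mul_le_of_le_one_right (abs_nonneg b) (rot_tt hg)).trans (hb.trans h)
  rw [pt, norm_mul, norm_ze, one_mul, Complex.norm_add_mul_I]
  refine Real.sqrt_le_iff.2 ⟨by norm_num, ?_⟩
  rw [← sq_abs (b * tt g)]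
  nlinarith [abs_nonneg (b * tt g)]

theorem rot_lam0 {s : ℝ} (h : 7 / 8 ≤ s) : lam s = 0 :=
  max_eq_left ((min_le_right _ _).trans (by linarith))

theorem rot_lam1 {s : ℝ} (h : s ≤ 3 / 4) : lam s = 1 := by
  rw [lam, min_eq_left (by linarith), max_eq_right zero_le_one]

theorem rot_ex (hg : 0 < g) (hR : RelSt) (hC : CDiscSt g) (α : ℝ) :
    ∃ u : Surf g ≃ₜ Surf g, IsoAt (cc g) u ∧
      ∀ z ∈ Pol g, u (pr g z) = pr g (z * Complex.exp ((α * lam ‖z‖ : ℝ) * Complex.I)) := by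
  obtain ⟨c1, c2⟩ := hC (7 / 8) (by norm_num) (by norm_num)
  obtain ⟨u, u1, u2⟩ := c1 _ (hR.2.2.2.2.2.1 (7 / 8) (fun s => α * lam s) (by norm_num)
    (by unfold lam; fun_prop) (by rw [rot_lam0 le_rfl, mul_zero]))
  refine ⟨u, (c2 u u1).2 ?_, fun z hz => ?_⟩
  · rw [cc, u2 0 (mem_closedBall_self (by norm_num)), zero_mul]
  · rcases le_or_gt ‖z‖ (7 / 8) with c | c
    · exact u2 z (mem_closedBall_zero_iff.2 c)
    · rw [rot_lam0 c.le, mul_zero, Complex.ofReal_zero, zero_mul, Complex.exp_zero, mul_one]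
      refine u1 _ ?_
      rintro ⟨w, hw, e⟩
      have hw' := mem_ball_zero_iff.1 hw
      obtain rfl := (fibSt hg).inner hg ((nm_le_norm g w).trans_lt (by linarith)) hz e
      linarith

theorem rot_tw (hg : 0 < g) {T : Surf g ≃ₜ Surf g} (hT : IsTw T) {z : ℂ} (hz : ‖z‖ ≤ 1)
    (h1 : -tt g ≤ z.im) (h2 : z.im ≤ 0) : T (pr g z) = pr g z := by
  have ht := tt_pos hg
  have e : z = pt g 0 z.re (z.im / tt g) := by
    rw [pt, ze_zero, one_mul, div_mul_cancel₀ _ ht.ne', Complex.re_add_im]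
  have ha : |z.re| ≤ 1 := (Complex.abs_re_le_norm z).trans hz
  have hb : z.im / tt g ≤ 0 := div_nonpos_of_nonpos_of_nonneg h2 ht.le
  have := hT.1 z.re (z.im / tt g) z.re 1 ha
    (by rw [abs_div, abs_of_pos ht, div_le_one ht, abs_le]; constructor <;> linarith) ha
    (by simp only [min_eq_left (show (1 : ℝ) ≤ 1 - z.im / tt g by linarith)]; norm_num)
  rwa [← e] at this

theorem rotSt (hg : 0 < g) (hR : RelSt) (hC : CDiscSt g) (hN : NearSt g) : RotSt g := by
  refine ⟨rot_ex hg hR hC, rot_norm hg, fun R hr => ?_, fun T hT => ?_⟩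
  · obtain ⟨u, u1, u2⟩ := rot_ex hg hR hC (-(Real.pi / (2 * g)))
    refine ⟨u, u1, fun z hz => ?_⟩
    have hz' : z ∈ Pol g := (mem_Pol hg).2 (by linarith)
    rw [hr z hz', u2 _ (ze_mul_mem hg 1 hz'), norm_mul, norm_ze, one_mul,
      rot_lam1 (rot_norm hg z hz), mul_one, mul_right_comm, ze_eq, ← Complex.exp_add]
    congr 1
    rw [← add_mul, ← Complex.ofReal_add, Int.cast_one, one_mul, add_neg_cancel,
      Complex.ofReal_zero, zero_mul, Complex.exp_zero, one_mul]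
  · have ht := tt_pos hg
    have h0 : T (pr g 0) = pr g 0 := rot_tw hg hT (by simp) (by simpa using ht.le) (by simp)
    have hO : IsOpen (pr g '' ball 0 (7 / 8)) := (fibSt hg).isOpen_inner hg isOpen_ball
      fun z hz => (nm_le_norm g z).trans_lt ((mem_ball_zero_iff.1 hz).trans (by norm_num))
    obtain ⟨ε0, e0, e1⟩ := Metric.isOpen_iff.1
      (hO.preimage (T.continuous.comp (continuous_pr hg))) 0
      ⟨0, mem_ball_self (by norm_num), h0.symm⟩
    obtain ⟨ε, p0, p1, p2, p3⟩ : ∃ ε : ℝ, 0 < ε ∧ ε ≤ ε0 ∧ ε ≤ 7 / 8 ∧ ε ≤ tt g :=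
      ⟨min ε0 (min (7 / 8) (tt g)), by positivity, min_le_left _ _,
        (min_le_right _ _).trans (min_le_left _ _), (min_le_right _ _).trans (min_le_right _ _)⟩
    have hb : ball ((-(ε / 2) : ℝ) * Complex.I) (ε / 2) ⊆ ball (0 : ℂ) ε := by
      refine ball_subset_ball' (le_of_eq ?_)
      rw [dist_zero_right, norm_mul, Complex.norm_I, mul_one, Complex.norm_real, norm_neg,
        Real.norm_of_nonneg (by positivity), add_halves]
    refine hN T 1 ε (ε / 2) _ h0 (by positivity) p2 hb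
      (fun z hz => e1 (ball_subset_ball p1 hz)) (fun _ _ => rfl) fun z hz => ?_
    have i1 := mem_ball_zero_iff.1 (hb hz)
    have i2 := (Complex.abs_im_le_norm _).trans_lt (mem_ball_iff_norm.1 hz)
    rw [Complex.sub_im, Complex.im_ofReal_mul, Complex.I_im, abs_lt] at i2
    exact rot_tw hg hT (by linarith) (by linarith [i2.1]) (by linarith [i2.2])

end

end Pool.Agent.MCG
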