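import Pool.Agent.Lib.MP_c86c76_al.Ba.St

/-!
The annulus round a diagonal of the polygon.
-/

set_option autoImplicit false

namespace Pool.Agent.MCG

open Set Topology Metric Pool.Agent.PT
open scoped Real

noncomputable section

variable {g : ℕ}

/-- The unit vector of angle `θ`, measured in sectors. -/
def tgeoE (g : ℕ) (θ : ℝ) : ℂ := Complex.exp ((θ * π / (2 * g) : ℝ) * Complex.I)

/-- The boundary point of the polygon in the direction `θ`. -/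
def tgeoG (g : ℕ) (θ : ℝ) : ℂ := tgeoE g θ / nm g (tgeoE g θ)

/-- A logarithm of `ρ * tgeoG g θ`. -/
def tgeoL (g : ℕ) (ρ θ : ℝ) : ℂ :=
  (Real.log ρ - Real.log (nm g (tgeoE g θ)) : ℝ) + (θ * π / (2 * g) : ℝ) * Complex.I

theorem tgeo_pos (hg : 0 < g) (θ : ℝ) : 0 < nm g (tgeoE g θ) :=
  (nm_nonneg hg _).lt_of_ne' fun h => Complex.exp_ne_zero _ (eq_zero_of_nm hg h)

theorem tgeo_contE (g : ℕ) : Continuous (tgeoE g) := by
  unfold tgeoE
  fun_prop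

theorem tgeo_contG (hg : 0 < g) : Continuous (tgeoG g) :=
  (tgeo_contE g).div (Complex.continuous_ofReal.comp ((continuous_nm g).comp (tgeo_contE g)))
    fun θ => Complex.ofReal_ne_zero.2 (tgeo_pos hg θ).ne'

theorem tgeo_exp (hg : 0 < g) {ρ : ℝ} (h : 0 < ρ) (θ : ℝ) :
    Complex.exp (tgeoL g ρ θ) = ρ * tgeoG g θ := by
  rw [tgeoL, Complex.exp_add, ← Complex.ofReal_exp, Real.exp_sub, Real.exp_log h,
    Real.exp_log (tgeo_pos hg θ), tgeoG, Complex.ofReal_div, ← tgeoE]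
  ring

theorem tgeo_im (g : ℕ) (ρ θ : ℝ) : (tgeoL g ρ θ).im = θ * π / (2 * g) := by
  rw [tgeoL, Complex.add_im, Complex.ofReal_im, Complex.im_ofReal_mul, Complex.I_im, zero_add,
    mul_one]

theorem tgeo_form (hg : 0 < g) (k : ℤ) {θ : ℝ} (h : |θ - k| ≤ 1 / 2) :
    |Real.tan ((θ - k) * π / (2 * g)) / tt g| ≤ 1 ∧
      tgeoG g θ = pt g k 1 (Real.tan ((θ - k) * π / (2 * g)) / tt g) := by
  have h0 : (0 : ℝ) < g := by positivity
  have hp := Real.pi_pos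
  have ha := ang_le hg
  have ha0 := ang_pos hg
  have ht := tt_pos hg
  set φ := (θ - k) * π / (2 * g) with hφ
  have h1 : |φ| ≤ π / (4 * g) := by
    rw [hφ, mul_div_assoc, abs_mul, abs_of_pos (by positivity : 0 < π / (2 * g))]
    calc _ ≤ 1 / 2 * (π / (2 * g)) := by gcongr
      _ = _ := by field_simp; ring
  obtain ⟨h2, h3⟩ := abs_le.1 h1
  have hm : φ ∈ Ioo (-(π / 2)) (π / 2) := ⟨by linarith, by linarith⟩
  have hc := Real.cos_pos_of_mem_Ioo hm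
  have hb : |Real.tan φ / tt g| ≤ 1 := by
    rw [abs_div, abs_of_pos ht, div_le_one ht, abs_le, tt, ← Real.tan_neg]
    exact ⟨Real.strictMonoOn_tan.monotoneOn ⟨by linarith, by linarith⟩ hm h2,
      Real.strictMonoOn_tan.monotoneOn hm ⟨by linarith, by linarith⟩ h3⟩
  have e : tgeoE g θ = Real.cos φ * pt g k 1 (Real.tan φ / tt g) := by
    have e1 := polar hg k 1 φ
    rw [← pt_smul, mul_one, ← mul_div_assoc, Real.tan_eq_sin_div_cos, mul_div_cancel₀ _ hc.ne']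
    rw [one_mul, one_mul, Complex.ofReal_one, one_mul] at e1
    rw [← e1, ze_eq, ← Complex.exp_add, tgeoE, hφ]
    congr 1
    push_cast
    ring
  refine ⟨hb, ?_⟩
  rw [tgeoG, e, nm_smul hg hc.le, nm_pt hg hb, mul_one,
    mul_div_cancel_left₀ _ (Complex.ofReal_ne_zero.2 hc.ne')]

theorem tgeo_mid (hg : 0 < g) (k : ℤ) : tgeoG g k = pt g k 1 0 := by
  rw [(tgeo_form hg k (by simp)).2]
  simp

theorem tgeo_lo (hg : 0 < g) (k : ℤ) : tgeoG g (k - 1 / 2) = pt g k 1 (-1) := by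
  have h0 : (0 : ℝ) < g := by positivity
  rw [(tgeo_form hg k (by rw [sub_sub_cancel_left, abs_neg, abs_of_pos one_half_pos])).2,
    show ((k : ℝ) - 1 / 2 - k) * π / (2 * g) = -(π / (4 * g)) by field_simp; ring,
    Real.tan_neg, ← tt, neg_div, div_self (tt_pos hg).ne']

theorem tgeo_hi (hg : 0 < g) (k : ℤ) : tgeoG g (k + 1 / 2) = pt g k 1 1 := by
  rw [← pt_diag hg, ← tgeo_lo hg]
  congr 1
  push_cast
  ring

theorem tgeo_onto (hg : 0 < g) (k : ℤ) {t : ℝ} (ht : |t| ≤ 1) :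
    ∃ θ : ℝ, |θ - k| ≤ 1 / 2 ∧ tgeoG g θ = pt g k 1 t := by
  have hc : Continuous fun θ => fibB g k (tgeoG g θ) := by
    have := tgeo_contG hg
    unfold fibB
    fun_prop
  obtain ⟨θ, h1, h2⟩ := intermediate_value_Icc (by linarith : (k : ℝ) - 1 / 2 ≤ k + 1 / 2)
    hc.continuousOn (show t ∈ Icc (fibB g k (tgeoG g (k - 1 / 2))) (fibB g k (tgeoG g (k + 1 / 2))) by
      rw [tgeo_lo hg, tgeo_hi hg, fibB_pt hg, fibB_pt hg]
      exact abs_le.1 ht)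
  have h3 : |θ - k| ≤ 1 / 2 := abs_le.2 ⟨by linarith [h1.1], by linarith [h1.2]⟩
  refine ⟨θ, h3, ?_⟩
  have h4 := (tgeo_form hg k h3).2
  have h5 : fibB g k (tgeoG g θ) = t := h2
  rw [h4, fibB_pt hg] at h5
  rw [h4, h5]

theorem tgeo_sec {m M : ℤ} {θ : ℝ} (hm : m < M) (h1 : m - 1 / 2 ≤ θ) (h2 : θ ≤ M - 1 / 2) :
    ∃ k : ℤ, m ≤ k ∧ k < M ∧ |θ - k| ≤ 1 / 2 := by
  rcases h2.eq_or_lt with rfl | h2
  · refine ⟨M - 1, by omega, by omega, ?_⟩
    push_cast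
    rw [show (M : ℝ) - 1 / 2 - (M - 1) = 1 / 2 by ring, abs_of_pos one_half_pos]
  · have h3 := Int.floor_le (θ + 1 / 2)
    have h4 := Int.lt_floor_add_one (θ + 1 / 2)
    exact ⟨⌊θ + 1 / 2⌋, Int.le_floor.2 (by linarith), Int.floor_lt.2 (by linarith),
      abs_le.2 ⟨by linarith, by linarith⟩⟩

theorem tgeo_pt (hg : 0 < g) (k : ℤ) {θ ρ : ℝ} (h : |θ - k| ≤ 1 / 2) (hρ : 0 ≤ ρ) :
    ∃ b, |b| ≤ ρ ∧ ρ * tgeoG g θ = pt g k ρ b := by
  obtain ⟨h1, h2⟩ := tgeo_form hg k h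
  refine ⟨ρ * (Real.tan ((θ - k) * π / (2 * g)) / tt g), ?_, by rw [h2, ← pt_smul, mul_one]⟩
  rw [abs_mul, abs_of_nonneg hρ]
  exact mul_le_of_le_one_right hρ h1

theorem tgeo_nm (hg : 0 < g) {ρ : ℝ} (hρ : 0 ≤ ρ) (θ : ℝ) : nm g (ρ * tgeoG g θ) = ρ := by
  obtain ⟨b, h1, h2⟩ := tgeo_pt hg (round θ) (abs_sub_round θ) hρ
  rw [h2, nm_pt hg h1]

theorem tgeo_inj (hg : 0 < g) {ρ ρ' θ θ' : ℝ} (h : 0 < ρ) (h' : 0 < ρ') (hθ : |θ - θ'| < 4 * g)
    (e : ρ * tgeoG g θ = ρ' * tgeoG g θ') : ρ = ρ' ∧ θ = θ' := by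
  have h0 : (0 : ℝ) < g := by positivity
  have hp := Real.pi_pos
  refine ⟨by rw [← tgeo_nm hg h.le θ, e, tgeo_nm hg h'.le], ?_⟩
  rw [← tgeo_exp hg h, ← tgeo_exp hg h', Complex.exp_eq_exp_iff_exists_int] at e
  obtain ⟨m, e⟩ := e
  have e1 := congrArg Complex.im e
  rw [Complex.add_im, tgeo_im, tgeo_im] at e1
  have e2 : ((m : ℂ) * (2 * π * Complex.I)).im = m * (2 * π) := by simp
  rw [e2] at e1
  have e3 : θ - θ' = 4 * g * m := by
    field_simp at e1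
    linarith
  rw [e3, abs_mul, abs_of_pos (by positivity)] at hθ
  have e4 : |(m : ℝ)| < 1 := by nlinarith
  have e5 : m = 0 := Int.abs_lt_one_iff.1 (by exact_mod_cast e4)
  rw [e5, Int.cast_zero, mul_zero] at e3
  linarith

theorem tgeo_mod (hg : 0 < g) {j y : ℤ} (h : j ≡ y [ZMOD (4 * g : ℕ)]) (h1 : y - j < 8 * g)
    (h2 : j - y < 8 * g) : j = y ∨ j = y + 4 * g ∨ j = y - 4 * g := by
  obtain ⟨c, hc⟩ := h.dvd
  push_cast at hc
  have h0 : (0 : ℤ) < g := by omega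
  have h3 : c < 2 := by nlinarith
  have h4 : -2 < c := by nlinarith
  obtain rfl | rfl | rfl : c = 0 ∨ c = -1 ∨ c = 1 := by omega
  all_goals omega

/-- The sectors whose upper half carries a strip. -/
def tgeoU (g n : ℕ) (j : ℤ) : Prop :=
  (0 ≤ j ∧ j < n ∧ j % 2 = 0) ∨ (2 * g ≤ j ∧ j < 2 * g + n ∧ j % 2 = 1)

/-- The sectors whose lower half carries a strip. -/
def tgeoD (g n : ℕ) (j : ℤ) : Prop :=
  (0 ≤ j ∧ j < n ∧ j % 2 = 1) ∨ (2 * g ≤ j ∧ j < 2 * g + n ∧ j % 2 = 0)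

theorem tgeo_dual (hg : 0 < g) {D : Surf g ≃ₜ Surf g} (hD : IsDual D) (k : ℤ) {β c : ℝ}
    (h0 : 0 ≤ β) (hc : 0 ≤ c) (h1 : c ≤ 1 - β) :
    (k % 2 = 0 → D (pr g (pt g k (1 - β) c)) = pr g (pt g k (1 - c) β) ∧
      D (pr g (pt g k (1 - β) (-c))) = pr g (pt g (k + 2 * g) (1 - c) (-β))) ∧
    (k % 2 = 1 → D (pr g (pt g k (1 - β) c)) = pr g (pt g (k + 2 * g) (1 - c) β) ∧
      D (pr g (pt g k (1 - β) (-c))) = pr g (pt g k (1 - c) (-β))) := by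
  obtain ⟨e1, e2⟩ := hD.2 k (1 - β) c hc h1 (by linarith)
  rw [sub_sub_cancel] at e1 e2
  rw [e1, e2]
  refine ⟨fun h => ?_, fun h => ?_⟩
  · obtain ⟨m, rfl⟩ : ∃ m, k = 2 * m := ⟨k / 2, by omega⟩
    exact ⟨congrArg _ (pt_congr hg (dual_mod (-m) (by ring)) _ _),
      congrArg _ (pt_congr hg (dual_mod (-m) (by ring)) _ _)⟩
  · obtain ⟨m, rfl⟩ : ∃ m, k = 2 * m + 1 := ⟨k / 2, by omega⟩
    exact ⟨congrArg _ (pt_congr hg (dual_mod (-m) (by ring)) _ _),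
      congrArg _ (pt_congr hg (dual_mod (-(m + 1)) (by ring)) _ _)⟩

theorem tgeo_vA (hg : 0 < g) {D : Surf g ≃ₜ Surf g} (hD : IsDual D) {n : ℕ} (hn : 0 < n) {β θ : ℝ}
    (h0 : 0 ≤ β) (h1 : β ≤ 1) (h2 : -(1 / 2) ≤ θ) (h3 : θ ≤ n - 1 / 2) :
    ∃ (j : ℤ) (a b : ℝ), β ≤ a ∧ a ≤ 1 ∧ ((tgeoU g n j ∧ b = β) ∨ (tgeoD g n j ∧ b = -β)) ∧
      D (pr g ((1 - β : ℝ) * tgeoG g θ)) = pr g (pt g j a b) := by
  obtain ⟨k, k1, k2, k3⟩ := tgeo_sec (m := 0) (M := n) (θ := θ) (by omega) (by simpa using h2)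
    (by simpa using h3)
  obtain ⟨b, b1, b2⟩ := tgeo_pt hg k k3 (sub_nonneg.2 h1)
  rw [b2]
  obtain ⟨i1, i2⟩ := tgeo_dual hg hD k h0 (abs_nonneg b) b1
  have a1 : β ≤ 1 - |b| := by linarith
  have a2 : 1 - |b| ≤ 1 := by linarith [abs_nonneg b]
  rcases Int.emod_two_eq_zero_or_one k with h | h <;> rcases le_total 0 b with hb | hb
  · exact ⟨k, _, _, a1, a2, Or.inl ⟨Or.inl ⟨k1, k2, h⟩, rfl⟩, by
      rw [← (i1 h).1, abs_of_nonneg hb]⟩
  · exact ⟨k + 2 * g, _, _, a1, a2, Or.inr ⟨Or.inr (by omega), rfl⟩, by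
      rw [← (i1 h).2, abs_of_nonpos hb, neg_neg]⟩
  · exact ⟨k + 2 * g, _, _, a1, a2, Or.inl ⟨Or.inr (by omega), rfl⟩, by
      rw [← (i2 h).1, abs_of_nonneg hb]⟩
  · exact ⟨k, _, _, a1, a2, Or.inr ⟨Or.inl ⟨k1, k2, h⟩, rfl⟩, by
      rw [← (i2 h).2, abs_of_nonpos hb, neg_neg]⟩

theorem tgeo_vB (hg : 0 < g) {D : Surf g ≃ₜ Surf g} (hD : IsDual D) {n : ℕ} {j : ℤ} {β a b : ℝ}
    (h0 : 0 ≤ β) (h1 : β < 1) (h2 : β ≤ a) (h3 : a ≤ 1)
    (h : (tgeoU g n j ∧ b = β) ∨ (tgeoD g n j ∧ b = -β)) :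
    ∃ θ : ℝ, -(1 / 2) ≤ θ ∧ θ ≤ n - 1 / 2 ∧
      D (pr g ((1 - β : ℝ) * tgeoG g θ)) = pr g (pt g j a b) := by
  have hβ : 0 < 1 - β := sub_pos.2 h1
  have key : ∀ (k : ℤ) (c : ℝ), 0 ≤ k → k < n → |c| = 1 - a → ∃ θ : ℝ, -(1 / 2) ≤ θ ∧
      θ ≤ n - 1 / 2 ∧ (1 - β : ℝ) * tgeoG g θ = pt g k (1 - β) c := fun k c k1 k2 hc => by
    obtain ⟨θ, t1, t2⟩ := tgeo_onto hg k (t := c / (1 - β)) (by
      rw [abs_div, abs_of_pos hβ, div_le_one hβ, hc]
      linarith)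
    have k3 : (0 : ℝ) ≤ k := by exact_mod_cast k1
    have k4 : (k : ℝ) + 1 ≤ n := by exact_mod_cast k2
    obtain ⟨t3, t4⟩ := abs_le.1 t1
    exact ⟨θ, by linarith, by linarith, by
      rw [t2, ← pt_smul, mul_one, mul_div_cancel₀ _ hβ.ne']⟩
  have ha : 0 ≤ 1 - a := sub_nonneg.2 h3
  have hd := fun k => tgeo_dual hg hD k h0 ha (by linarith)
  simp only [sub_sub_cancel] at hd
  rcases h with ⟨h | h, rfl⟩ | ⟨h | h, rfl⟩
  · obtain ⟨θ, t1, t2, t3⟩ := key j (1 - a) h.1 h.2.1 (abs_of_nonneg ha)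
    exact ⟨θ, t1, t2, by rw [t3, ((hd j).1 h.2.2).1]⟩
  · obtain ⟨θ, t1, t2, t3⟩ := key (j - 2 * g) (1 - a) (by omega) (by omega) (abs_of_nonneg ha)
    exact ⟨θ, t1, t2, by rw [t3, ((hd _).2 (by omega)).1, sub_add_cancel]⟩
  · obtain ⟨θ, t1, t2, t3⟩ := key j (-(1 - a)) h.1 h.2.1 (by rw [abs_neg, abs_of_nonneg ha])
    exact ⟨θ, t1, t2, by rw [t3, ((hd j).2 h.2.2).2]⟩
  · obtain ⟨θ, t1, t2, t3⟩ := key (j - 2 * g) (-(1 - a)) (by omega) (by omega)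
      (by rw [abs_neg, abs_of_nonneg ha])
    exact ⟨θ, t1, t2, by rw [t3, ((hd _).1 (by omega)).2, sub_add_cancel]⟩

/-- The open annulus in the coordinates of the sector `j`. -/
def tgeoP (g n : ℕ) (j : ℤ) (a b : ℝ) : Prop :=
  (tgeoU g n j ∧ 1 / 8 < b ∧ b < 3 / 8) ∨ (tgeoD g n j ∧ 1 / 8 < -b ∧ -b < 3 / 8) ∨
    (n ≤ j ∧ j < 2 * g ∧ 1 / 8 < a ∧ a < 3 / 8)

theorem tgeo_sat (hg : 0 < g) {n : ℕ} (hn : n % 2 = 1) (hn' : n < 2 * g) {j j' : ℤ}
    {a b a' b' : ℝ} (h : |b| ≤ a) (ha : a ≤ 1) (h' : |b'| ≤ a') (ha' : a' ≤ 1) (j1 : 0 ≤ j')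
    (j2 : j' < 4 * g) (e : pr g (pt g j a b) = pr g (pt g j' a' b')) (hP : tgeoP g n j a b) :
    tgeoP g n j' a' b' := by
  obtain ⟨b1, b2⟩ := abs_le.1 h
  have j3 : 0 ≤ j ∧ j < 4 * g := by
    rcases hP with ⟨h | h, -⟩ | ⟨h | h, -⟩ | h <;> omega
  rcases ha.lt_or_eq with ha | rfl
  · have h0 : 0 < a := by
      rcases hP with ⟨-, h, -⟩ | ⟨-, h, -⟩ | ⟨-, -, h, -⟩ <;> linarith
    have e1 := (fibSt hg).inner hg (by rwa [nm_pt hg h]) (pt_mem hg j' h' ha') e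
    obtain ⟨rfl, e2⟩ := pt_eq_pt hg h h' h0 e1
    unfold tgeoP tgeoU tgeoD at *
    rcases e2 with ⟨i, rfl⟩ | ⟨i, rfl, rfl⟩ | ⟨i, rfl, rfl⟩
    · obtain rfl : j' = j := by
        have := tgeo_mod hg i (by omega) (by omega)
        omega
      exact hP
    · have := tgeo_mod hg i (by omega) (by omega)
      rw [neg_neg]
      rcases hP with ⟨h, p⟩ | ⟨-, p, -⟩ | ⟨h1, h2, p⟩
      · by_cases q : j' = n
        · exact Or.inr (Or.inr ⟨by omega, by omega, p⟩)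
        · exact Or.inr (Or.inl ⟨by omega, p⟩)
      · linarith
      · by_cases q : j' = 2 * g
        · exact Or.inr (Or.inl ⟨by omega, p⟩)
        · exact Or.inr (Or.inr ⟨by omega, by omega, p⟩)
    · have := tgeo_mod hg i (by omega) (by omega)
      rw [neg_neg] at hP
      rcases hP with ⟨-, p, -⟩ | ⟨h, p⟩ | ⟨h1, h2, p⟩
      · linarith
      · by_cases q : j = 2 * g
        · exact Or.inr (Or.inr ⟨by omega, by omega, p⟩)
        · exact Or.inl ⟨by omega, p⟩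
      · by_cases q : j = n
        · exact Or.inl ⟨by omega, p⟩
        · exact Or.inr (Or.inr ⟨by omega, by omega, p⟩)
  · have hb : |b| < 1 := by
      rcases hP with ⟨-, p, q⟩ | ⟨-, p, q⟩ | ⟨-, -, -, q⟩
      · exact abs_lt.2 ⟨by linarith, by linarith⟩
      · exact abs_lt.2 ⟨by linarith, by linarith⟩
      · linarith
    rcases ha'.lt_or_eq with ha' | rfl
    · have e1 := (fibSt hg).inner hg (by rwa [nm_pt hg h']) (pt_mem hg j h le_rfl) e.symm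
      have e2 := congrArg (nm g) e1
      rw [nm_pt hg h, nm_pt hg h'] at e2
      exact absurd e2 ha'.ne
    unfold tgeoP tgeoU tgeoD at *
    rcases pr_side_eq hg hb h' e with ⟨i, rfl⟩ | ⟨i, rfl⟩
    · obtain rfl : j' = j := by
        have := tgeo_mod hg i (by omega) (by omega)
        omega
      exact hP
    · have := tgeo_mod hg i (by omega) (by omega)
      rw [neg_neg]
      rcases hP with ⟨h, p⟩ | ⟨h, p⟩ | ⟨-, -, -, p⟩
      · exact Or.inr (Or.inl ⟨by omega, p⟩)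
      · exact Or.inl ⟨by omega, p⟩
      · linarith

theorem tgeo_open (hg : 0 < g) {n : ℕ} (hn : n % 2 = 1) (hn' : n < 2 * g) :
    IsOpen {x | ∃ (j : ℤ) (a b : ℝ), |b| ≤ a ∧ a ≤ 1 ∧ tgeoP g n j a b ∧ x = pr g (pt g j a b)} := by
  have := (fibSt hg).2
  have hK : IsCompact {p : ℝ × ℝ | |p.2| ≤ p.1 ∧ p.1 ≤ 1} := by
    refine (isCompact_Icc (a := ((0 : ℝ), (-1 : ℝ))) (b := (1, 1))).of_isClosed_subset
      ((isClosed_le continuous_snd.abs continuous_fst).inter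
        (isClosed_le continuous_fst continuous_const)) fun p hp => ?_
    obtain ⟨h1, h2⟩ := abs_le.1 (hp.1.trans hp.2)
    exact ⟨⟨(abs_nonneg _).trans hp.1, h1⟩, hp.2, h2⟩
  have hO : ∀ j : ℤ, IsOpen {p : ℝ × ℝ | tgeoP g n j p.1 p.2} := fun j => by
    have hl : ∀ f : ℝ × ℝ → ℝ, Continuous f → IsOpen {p | 1 / 8 < f p ∧ f p < 3 / 8} :=
      fun f hf => isOpen_Ioo.preimage hf
    exact (isOpen_const.inter (hl _ continuous_snd)).union
      ((isOpen_const.inter (hl _ continuous_snd.neg)).union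
        (isOpen_const.inter (isOpen_const.inter (hl _ continuous_fst))))
  rw [← isClosed_compl_iff]
  have hc := (finite_Ico (0 : ℤ) (4 * g)).isCompact_biUnion fun j _ =>
    (hK.diff (hO j)).image ((continuous_pr hg).comp (continuous_pt g j))
  convert hc.isClosed using 1
  ext x
  simp only [mem_compl_iff, mem_ofPred_eq, mem_iUnion]
  constructor
  · intro hx
    obtain ⟨k, a, b, h1, h2, rfl⟩ := pr_surj_pt hg x
    have hN : (0 : ℤ) < (4 * g : ℕ) := by omega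
    have e := pt_congr hg (Int.mod_modEq k (4 * g : ℕ)) a b
    have i1 := Int.emod_nonneg k hN.ne'
    have i2 := Int.emod_lt_of_pos k hN
    exact ⟨k % (4 * g : ℕ), ⟨i1, by omega⟩, (a, b),
      ⟨⟨h1, h2⟩, fun hP => hx ⟨_, a, b, h1, h2, hP, by rw [e]⟩⟩, congrArg (pr g) e⟩
  · rintro ⟨j, hj, p, ⟨hp, hP⟩, rfl⟩ ⟨k, a, b, h1, h2, h3, e⟩
    exact hP (tgeo_sat hg hn hn' h1 h2 hp.1 hp.2 hj.1 hj.2 e.symm h3)

theorem tgeo_val (hg : 0 < g) {D : Surf g ≃ₜ Surf g} {L : ℂ → EE g} (hL : VA hg D L) (k : ℕ)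
    {β : ℝ} (h0 : 0 ≤ β) (h1 : β < 1) : L (tgeoL g (1 - β) (k - 1 / 2)) =
      ep hg (xw g 0 k) (pt g ((2 * g + 1) * k + 2 * g) β (-β)) := by
  have h2 := tgeo_lo hg k
  rw [Int.cast_natCast] at h2
  rw [hL.val k (1 - β) _ (sub_pos.2 h1) (by linarith)
    (by rw [tgeo_exp hg (sub_pos.2 h1), h2, ← pt_smul, mul_one, mul_neg, mul_one])
    (tgeo_im g _ _), sub_sub_cancel]

/-- The lifted annulus in the coordinates `β`, `θ`. -/
def tgeoA (hg : 0 < g) (n : ℕ) (L : ℂ → EE g) (β θ : ℝ) : EE g :=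
  if θ ≤ n - 1 / 2 then L (tgeoL g (1 - β) θ) else ep hg (xw g 0 n) (β * tgeoG g θ)

section A

variable (hg : 0 < g) {n : ℕ} {D : Surf g ≃ₜ Surf g} {L : ℂ → EE g} {β θ : ℝ}

theorem tgeo_c (hn : n % 2 = 1) (hL : VA hg D L) (h0 : 0 ≤ β) (h1 : β < 1) (h : n - 1 / 2 ≤ θ) :
    tgeoA hg n L β θ = ep hg (xw g 0 n) (β * tgeoG g θ) := by
  rcases h.eq_or_lt with rfl | h
  · have h2 := tgeo_lo hg n
    rw [Int.cast_natCast] at h2
    obtain ⟨m, hm⟩ : ∃ m : ℤ, (n : ℤ) = 2 * m + 1 := ⟨n / 2, by omega⟩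
    rw [tgeoA, if_pos le_rfl, tgeo_val hg hL n h0 h1, h2, ← pt_smul, mul_one, mul_neg, mul_one,
      pt_congr hg (dual_mod (y := n) (-(m + 1)) (by rw [hm]; ring))]
  · exact if_neg (not_le.2 h)

theorem tgeo_pc (hn : n % 2 = 1) (hL : VA hg D L) (h0 : 0 ≤ β) (h1 : β < 1) (h : n - 1 / 2 ≤ θ) :
    pe g (tgeoA hg n L β θ) = pr g (β * tgeoG g θ) := by
  rw [tgeo_c hg hn hL h0 h1 h, pe_ep hg _ (mem_TS_of_lt hg (by rwa [tgeo_nm hg h0]))]

theorem tgeo_pv (hL : VA hg D L) (h1 : β < 1) (h : θ ≤ n - 1 / 2) :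
    pe g (tgeoA hg n L β θ) = D (pr g ((1 - β : ℝ) * tgeoG g θ)) := by
  rw [tgeoA, if_pos h, hL.lift, tgeo_exp hg (sub_pos.2 h1)]

include hg in
theorem tgeo_vc (hn : n % 2 = 1) (hn' : n < 2 * g) (hD : IsDual D) {β' θ' : ℝ} (h0 : 0 < β)
    (h1 : β < 1) (h0' : 0 < β') (h1' : β' < 1) (t1 : -(1 / 2) ≤ θ) (t2 : θ ≤ n - 1 / 2)
    (t3 : n - 1 / 2 < θ') (t4 : θ' < 2 * g - 1 / 2) :
    D (pr g ((1 - β : ℝ) * tgeoG g θ)) ≠ pr g (β' * tgeoG g θ') := fun e => by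
  obtain ⟨j, a, b, a1, a2, hj, e1⟩ := tgeo_vA hg hD (n := n) (by omega) h0.le h1.le t1 t2
  obtain ⟨k, k1, k2, k3⟩ := tgeo_sec (m := n) (M := 2 * g) (θ := θ') (by omega)
    (by simpa using t3.le) (by simpa using t4.le)
  obtain ⟨c, c1, c2⟩ := tgeo_pt hg k k3 h0'.le
  have hb : |b| ≤ a := by
    rcases hj with ⟨-, rfl⟩ | ⟨-, rfl⟩
    · rwa [abs_of_pos h0]
    · rwa [abs_neg, abs_of_pos h0]
  have e2 : pt g k β' c = pt g j a b := (fibSt hg).inner hg (by rwa [nm_pt hg c1])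
    (pt_mem hg j hb a2) (by rw [← c2, ← e, e1])
  have k4 : (n : ℝ) ≤ k := by exact_mod_cast k1
  have k5 : (k : ℝ) + 1 ≤ 2 * g := by exact_mod_cast k2
  have g0 : (0 : ℝ) < g := by positivity
  obtain ⟨k6, k7⟩ := abs_le.1 k3
  unfold tgeoU tgeoD at hj
  obtain ⟨-, ⟨i, -⟩ | ⟨i, rfl, -⟩ | ⟨i, rfl, -⟩⟩ := pt_eq_pt hg c1 hb h0' e2
  · have := tgeo_mod hg i (by omega) (by omega)
    omega
  · have := tgeo_mod hg i (by omega) (by omega)
    have i1 : k + 1 = 2 * g := by omega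
    have i2 : (k : ℝ) + 1 = 2 * g := by exact_mod_cast i1
    have := (tgeo_inj hg h0' h0' (θ := θ') (θ' := k + 1 / 2) (abs_lt.2 ⟨by linarith, by linarith⟩)
      (by rw [c2, tgeo_hi hg, ← pt_smul, mul_one])).2
    linarith
  · have := tgeo_mod hg i (by omega) (by omega)
    have i1 : k = n := by omega
    have i2 : (k : ℝ) = n := by exact_mod_cast i1
    have := (tgeo_inj hg h0' h0' (θ := θ') (θ' := k - 1 / 2) (abs_lt.2 ⟨by linarith, by linarith⟩)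
      (by rw [c2, tgeo_lo hg, ← pt_smul, mul_one, mul_neg, mul_one])).2
    linarith

theorem tgeo_img (hn : n % 2 = 1) (hn' : n < 2 * g) (hD : IsDual D) (hL : VA hg D L) :
    (pe g ∘ fun p : ℝ × ℝ => tgeoA hg n L (1 / 8 + p.1 / 4) (2 * g * p.2 - 1 / 2)) ''
      (Ioo 0 1 ×ˢ Icc 0 1) =
      {x | ∃ (j : ℤ) (a b : ℝ), |b| ≤ a ∧ a ≤ 1 ∧ tgeoP g n j a b ∧ x = pr g (pt g j a b)} := by
  have g0 : (0 : ℝ) < g := by positivity
  have n0 : (0 : ℝ) ≤ n := by positivity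
  have n1 : (n : ℝ) < 2 * g := by exact_mod_cast hn'
  ext x
  constructor
  · rintro ⟨⟨s, t⟩, ⟨⟨s0, s1⟩, t0, t1⟩, rfl⟩
    dsimp only at s0 s1 t0 t1
    have t2 : 0 ≤ 2 * g * t := by positivity
    have t3 : 2 * g * t ≤ 2 * g := by nlinarith
    rcases le_total (2 * g * t - 1 / 2) (n - 1 / 2) with h | h
    · obtain ⟨j, a, b, a1, a2, hj, e⟩ := tgeo_vA hg hD (n := n) (by omega)
        (β := 1 / 8 + s / 4) (by linarith) (by linarith) (by linarith) h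
      refine ⟨j, a, b, ?_, a2, ?_, (tgeo_pv hg hL (by linarith) h).trans e⟩
      · rcases hj with ⟨-, rfl⟩ | ⟨-, rfl⟩
        · rwa [abs_of_pos (by linarith)]
        · rwa [abs_neg, abs_of_pos (by linarith)]
      · rcases hj with ⟨i, rfl⟩ | ⟨i, rfl⟩
        · exact Or.inl ⟨i, by linarith, by linarith⟩
        · exact Or.inr (Or.inl ⟨i, by linarith, by linarith⟩)
    · obtain ⟨k, k1, k2, k3⟩ := tgeo_sec (m := n) (M := 2 * g) (θ := 2 * g * t - 1 / 2)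
        (by omega) (by simpa using h) (by simpa using t3)
      obtain ⟨c, c1, c2⟩ := tgeo_pt hg k k3 (ρ := 1 / 8 + s / 4) (by linarith)
      exact ⟨k, _, c, c1, by linarith, Or.inr (Or.inr ⟨k1, k2, by linarith, by linarith⟩),
        (tgeo_pc hg hn hL (by linarith) (by linarith) h).trans (congrArg _ c2)⟩
  · rintro ⟨j, a, b, h1, h2, hP, rfl⟩
    have key : ∀ β θ : ℝ, 1 / 8 < β → β < 3 / 8 → -(1 / 2) ≤ θ → θ ≤ 2 * g - 1 / 2 →
        pe g (tgeoA hg n L β θ) ∈ (pe g ∘ fun p : ℝ × ℝ =>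
          tgeoA hg n L (1 / 8 + p.1 / 4) (2 * g * p.2 - 1 / 2)) '' (Ioo 0 1 ×ˢ Icc 0 1) :=
      fun β θ b1 b2 t1 t2 => ⟨(4 * β - 1 / 2, (θ + 1 / 2) / (2 * g)),
        ⟨⟨by linarith, by linarith⟩, div_nonneg (by linarith) (by linarith),
          (div_le_one (by linarith)).2 (by linarith)⟩, by
        rw [Function.comp_apply, mul_div_cancel₀ _ (by positivity), add_sub_cancel_right,
          show 1 / 8 + (4 * β - 1 / 2) / 4 = β by ring]⟩
    obtain ⟨b1, b2⟩ := abs_le.1 h1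
    rcases hP with ⟨i, p, q⟩ | ⟨i, p, q⟩ | ⟨i1, i2, p, q⟩
    · obtain ⟨θ, t1, t2, e⟩ := tgeo_vB hg hD (β := b) (by linarith) (by linarith) b2 h2
        (Or.inl ⟨i, rfl⟩)
      rw [← e, ← tgeo_pv hg hL (by linarith) t2]
      exact key _ _ p q t1 (by linarith)
    · obtain ⟨θ, t1, t2, e⟩ := tgeo_vB hg hD (β := -b) (b := b) (by linarith) (by linarith)
        (by linarith) h2 (Or.inr ⟨i, (neg_neg b).symm⟩)
      rw [← e, ← tgeo_pv hg hL (by linarith) t2]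
      exact key _ _ p q t1 (by linarith)
    · have a0 : 0 < a := by linarith
      obtain ⟨θ, t1, t2⟩ := tgeo_onto hg j (t := b / a) (by
        rwa [abs_div, abs_of_pos a0, div_le_one a0])
      have k4 : (n : ℝ) ≤ j := by exact_mod_cast i1
      have k5 : (j : ℝ) + 1 ≤ 2 * g := by exact_mod_cast i2
      obtain ⟨t3, t4⟩ := abs_le.1 t1
      have e : pt g j a b = a * tgeoG g θ := by
        rw [t2, ← pt_smul, mul_one, mul_div_cancel₀ _ a0.ne']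
      rw [e, ← tgeo_pc hg hn hL a0.le (by linarith) (by linarith)]
      exact key _ _ p q (by linarith) (by linarith)

theorem tgeo_injOn (hn : n % 2 = 1) (hn' : n < 2 * g) (hD : IsDual D) (hL : VA hg D L) :
    InjOn (pe g ∘ fun p : ℝ × ℝ => tgeoA hg n L (1 / 8 + p.1 / 4) (2 * g * p.2 - 1 / 2))
      (Icc 0 1 ×ˢ Ico 0 1) := by
  have g0 : (0 : ℝ) < g := by positivity
  rintro ⟨s, t⟩ ⟨⟨s0, s1⟩, t0, t1⟩ ⟨s', t'⟩ ⟨⟨s0', s1'⟩, t0', t1'⟩ e
  dsimp only [Function.comp] at s0 s1 t0 t1 s0' s1' t0' t1' e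
  have t2 : 0 ≤ 2 * g * t := by positivity
  have t3 : 2 * g * t < 2 * g := by nlinarith
  have t2' : 0 ≤ 2 * g * t' := by positivity
  have t3' : 2 * g * t' < 2 * g := by nlinarith
  have hθ : |2 * g * t - 1 / 2 - (2 * g * t' - 1 / 2)| < 4 * g :=
    abs_lt.2 ⟨by linarith, by linarith⟩
  have fin : s = s' → 2 * g * t - 1 / 2 = 2 * g * t' - 1 / 2 → (s, t) = (s', t') :=
    fun h1 h2 => Prod.ext h1 (mul_left_cancel₀ (by positivity) (sub_left_inj.1 h2))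
  rcases le_or_gt (2 * g * t - 1 / 2) (n - 1 / 2) with h | h <;>
    rcases le_or_gt (2 * g * t' - 1 / 2) (n - 1 / 2) with h' | h'
  · rw [tgeo_pv hg hL (by linarith) h, tgeo_pv hg hL (by linarith) h'] at e
    have e1 := (fibSt hg).inner hg (by rw [tgeo_nm hg (by linarith)]; linarith)
      ((mem_Pol hg).2 (by rw [tgeo_nm hg (by linarith)]; linarith)) (D.injective e)
    obtain ⟨i1, i2⟩ := tgeo_inj hg (by linarith) (by linarith) hθ e1
    exact fin (by linarith) i2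
  · rw [tgeo_pv hg hL (by linarith) h, tgeo_pc hg hn hL (by linarith) (by linarith) h'.le] at e
    exact absurd e (tgeo_vc hg hn hn' hD (by linarith) (by linarith) (by linarith) (by linarith)
      (by linarith) h h' (by linarith))
  · rw [tgeo_pv hg hL (by linarith) h', tgeo_pc hg hn hL (by linarith) (by linarith) h.le] at e
    exact absurd e.symm (tgeo_vc hg hn hn' hD (by linarith) (by linarith) (by linarith)
      (by linarith) (by linarith) h' h (by linarith))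
  · rw [tgeo_pc hg hn hL (by linarith) (by linarith) h.le,
      tgeo_pc hg hn hL (by linarith) (by linarith) h'.le] at e
    have e1 := (fibSt hg).inner hg (by rw [tgeo_nm hg (by linarith)]; linarith)
      ((mem_Pol hg).2 (by rw [tgeo_nm hg (by linarith)]; linarith)) e
    obtain ⟨i1, i2⟩ := tgeo_inj hg (by linarith) (by linarith) hθ e1
    exact fin (by linarith) i2

theorem tgeo_cont (hn : n % 2 = 1) (hL : VA hg D L) :
    ContinuousOn (fun p : ℝ × ℝ => tgeoA hg n L p.1 p.2) (Ioo 0 1 ×ˢ univ) := by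
  have hG := tgeo_contG hg
  have h1 : Continuous fun θ => Real.log (nm g (tgeoE g θ)) :=
    ((continuous_nm g).comp (tgeo_contE g)).log fun θ => (tgeo_pos hg θ).ne'
  have h2 : ContinuousOn (fun p : ℝ × ℝ => Real.log (1 - p.1)) (Ioo 0 1 ×ˢ univ) :=
    ContinuousOn.log (by fun_prop) fun p hp => (sub_pos.2 hp.1.2).ne'
  have h3 : ContinuousOn (fun p : ℝ × ℝ => tgeoL g (1 - p.1) p.2) (Ioo 0 1 ×ˢ univ) :=
    (Complex.continuous_ofReal.comp_continuousOn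
      (h2.sub (h1.comp continuous_snd).continuousOn)).add (by fun_prop)
  have h4 : Continuous fun p : ℝ × ℝ => (p.1 : ℂ) * tgeoG g p.2 := by fun_prop
  have h5 : ContinuousOn (fun p : ℝ × ℝ => ep hg (xw g 0 n) (p.1 * tgeoG g p.2))
      (Ioo 0 1 ×ˢ univ) := (continuousOn_ep hg _).comp h4.continuousOn fun p hp =>
    mem_TS_of_lt hg ((tgeo_nm hg hp.1.1.le p.2).trans_lt hp.1.2)
  refine ContinuousOn.if (fun p hp => ?_) ((hL.cont.comp_continuousOn h3).mono inter_subset_left)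
    (h5.mono inter_subset_left)
  have e : p.2 = n - 1 / 2 := frontier_le_subset_eq continuous_snd continuous_const hp.2
  rw [← tgeo_c hg hn hL hp.1.1.1.le hp.1.1.2 e.ge, tgeoA, if_pos e.le]

end A

theorem tGeoSt (hV : VArcSt g) : TGeoSt g := by
  intro hg n hn hn'
  obtain ⟨D, hD⟩ := dualSt hg (fibSt hg)
  obtain ⟨L, hL⟩ := hV hg D hD
  have g0 : (0 : ℝ) < g := by positivity
  have n0 : (0 : ℝ) ≤ n := by positivity
  have n1 : (n : ℝ) < 2 * g := by exact_mod_cast hn'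
  have hU := tgeo_img hg hn hn' hD hL
  refine ⟨fun p => tgeoA hg n L (1 / 8 + p.1 / 4) (2 * g * p.2 - 1 / 2),
    ⟨?_, ?_, tgeo_injOn hg hn hn' hD hL, ?_⟩, ?_, ?_⟩
  · exact (tgeo_cont hg hn hL).comp (f := fun p : ℝ × ℝ => (1 / 8 + p.1 / 4, 2 * g * p.2 - 1 / 2))
      (by fun_prop) fun p hp => ⟨⟨by linarith [hp.1.1], by linarith [hp.1.2]⟩, mem_univ _⟩
  · intro s hs
    have h1 := tgeo_val hg hL 0 (β := 1 / 8 + s / 4) (by linarith [hs.1]) (by linarith [hs.2])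
    have h2 := tgeo_lo hg (2 * g)
    push_cast at h1 h2
    dsimp only
    rw [tgeo_c hg hn hL (by linarith [hs.1]) (by linarith [hs.2]) (by linarith), mul_one, h2,
      mul_zero, tgeoA, if_pos (by linarith), h1, smul_ep, xw_zero, mul_one, ← pt_smul, mul_one,
      mul_neg, mul_one, mul_zero, zero_add]
  · rw [hU]
    exact tgeo_open hg hn hn'
  · rw [hU]
    rintro x ⟨j, a, b, h1, h2, hP, rfl⟩
    refine ⟨fun h => ?_, fun k s k1 k2 s0 s1 e => ?_⟩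
    · have h3 := (mem_Ev hg h1 h2).1 h
      rcases hP with ⟨-, p, q⟩ | ⟨-, p, q⟩ | ⟨-, -, p, q⟩
      · rw [abs_of_pos (by linarith)] at h3
        linarith
      · rw [abs_of_neg (by linarith)] at h3
        linarith
      · linarith
    · rcases tgeo_sat hg hn hn' h1 h2 (by rwa [abs_zero]) s1 k1 k2 e hP with
        ⟨-, p, -⟩ | ⟨-, p, -⟩ | h
      · linarith
      · linarith
      · exact h
  · intro j j1 j2
    have k4 : (n : ℝ) ≤ j := by exact_mod_cast j1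
    have k5 : (j : ℝ) + 1 ≤ 2 * g := by exact_mod_cast j2
    refine ⟨(j + 1 / 2) / (2 * g), ⟨div_nonneg (by linarith) (by linarith),
      (div_le_one (by linarith)).2 (by linarith)⟩, ?_, ?_⟩
    all_goals
      dsimp only
      rw [mul_div_cancel₀ _ (by positivity), add_sub_cancel_right,
        tgeo_c hg hn hL (by norm_num) (by norm_num) (by linarith), tgeo_mid hg, ← pt_smul]
      norm_num

end

end Pool.Agent.MCG
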