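import Pool.Agent.Lib.MP_c86c76_al.Ba.St

/-!
The action of the twist about a diagonal on the covering group.
-/

set_option autoImplicit false

namespace Pool.Agent.MCG

open Set Topology Metric Pool.Agent.PT

noncomputable section

variable {g : ℕ}

/-- The axis through the side `j`. -/
def tphiAx (hg : 0 < g) (j : ℤ) (s : ℝ) : EE g := qe hg j (pt g j s 0)

theorem tphi_in (hg : 0 < g) (j : ℤ) {s : ℝ} (h0 : 0 ≤ s) (h1 : s ≤ 1) :
    tphiAx hg j s = ep hg 1 (pt g j s 0) :=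
  qe_in hg j (pt_mem hg j (by simpa using h0) h1)

theorem tphi_out (hg : 0 < g) (j : ℤ) {s : ℝ} (h1 : 1 ≤ s) :
    tphiAx hg j s = ep hg (ss g j) (pt g (j + 2 * g) (2 - s) 0) := by
  rw [tphiAx, qe_out hg j h1 (by simp), neg_zero]

theorem tphi_zero (hg : 0 < g) (j : ℤ) : tphiAx hg j 0 = e0 hg := by
  rw [tphi_in hg j le_rfl zero_le_one, pt_zero, ep_zero, one_smul]

theorem tphi_two (hg : 0 < g) (j : ℤ) : tphiAx hg j 2 = ss g j • e0 hg := by
  rw [tphi_out hg j one_le_two, sub_self, pt_zero, ep_zero]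

theorem tphi_cont (hg : 0 < g) (j : ℤ) : ContinuousOn (tphiAx hg j) (Icc 0 2) := by
  refine (continuousOn_qe hg j).comp
    ((continuous_pt g j).comp (f := fun s : ℝ => (s, (0 : ℝ))) (by fun_prop)).continuousOn
    fun s hs => ?_
  rcases le_total s 1 with h | h
  · exact Or.inl (pt_TS hg j (by simpa using hs.1) h (by simp))
  · refine Or.inr ?_
    change pt g j s 0 - 2 * ze g j ∈ TS g
    rw [pt_sub' hg]
    exact pt_TS hg _ (by simpa using hs.2) (by linarith) (by simp)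

theorem tphi_seg (hg : 0 < g) (j : ℤ) {T : Surf g ≃ₜ Surf g} {F : EE g → EE g}
    (hF : Continuous F) (hl : ∀ e, pe g (F e) = T (pe g e)) (γ : FG g) {p q : ℝ} (h0 : 0 ≤ p)
    (hpq : p ≤ q) (h2 : q ≤ 2)
    (hT : ∀ s ∈ Icc p q, T (pe g (tphiAx hg j s)) = pe g (tphiAx hg j s))
    (hp : F (tphiAx hg j p) = γ • tphiAx hg j p) : F (tphiAx hg j q) = γ • tphiAx hg j q := by
  have hc := (tphi_cont hg j).mono (Icc_subset_Icc h0 h2)
  exact (cov hg).eqOn_of_eq (a := fun s => F (tphiAx hg j s)) (b := fun s => γ • tphiAx hg j s)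
    isPreconnected_Icc (hF.comp_continuousOn hc)
    (((cov hg).continuous_smul γ).comp_continuousOn hc)
    (fun s hs => by rw [hl, hT s hs, (cov hg).smul]) (left_mem_Icc.2 hpq) hp (right_mem_Icc.2 hpq)

theorem tphi_odd (g : ℕ) {j : ℕ} (h : j % 2 = 1) : ss g j = xx g j := by
  obtain ⟨m, rfl⟩ : ∃ m, j = 2 * m + 1 := ⟨j / 2, by omega⟩
  exact xx_congr g (Int.modEq_iff_dvd.2 ⟨-(m + 1), by push_cast; ring⟩)

theorem tphi_even (g : ℕ) {j : ℕ} (h : ¬ j % 2 = 1) : ss g j = (xx g j)⁻¹ := by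
  obtain ⟨m, rfl⟩ : ∃ m, j = 2 * m := ⟨j / 2, by omega⟩
  rw [← xx_add_two]
  exact xx_congr g (Int.modEq_iff_dvd.2 ⟨-m, by push_cast; ring⟩)

theorem tPhiSt (hg : 0 < g) (hT : TwSt g) (hG : TGeoSt g) : TPhiSt g := by
  intro n hn hn2
  obtain ⟨a, hA, hoff, hθ⟩ := hG hg n hn hn2
  obtain ⟨T, hT1, hT2⟩ := hT a _ hA
  have hEv : ∀ x ∈ Ev g, T x = x := fun x hx => hT1 x fun h => (hoff x h).1 hx
  have hax : ∀ (j : ℤ) (s : ℝ), 0 ≤ j → j < 4 * g → 0 ≤ s → s ≤ 1 →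
      ¬ ((n : ℤ) ≤ j ∧ j < 2 * g ∧ 1 / 8 < s ∧ s < 3 / 8) →
      T (pr g (pt g j s 0)) = pr g (pt g j s 0) := fun j s a1 a2 a3 a4 a5 =>
    hT1 _ fun h => a5 ((hoff _ h).2 j s a1 a2 a3 a4 rfl)
  have hfix : ∀ (j : ℤ) (s : ℝ), 0 ≤ j → j < 2 * g → 0 ≤ s → s ≤ 2 →
      ¬ ((n : ℤ) ≤ j ∧ 1 / 8 < s ∧ s < 3 / 8) →
      T (pe g (tphiAx hg j s)) = pe g (tphiAx hg j s) := by
    intro j s a1 a2 a3 a4 a5
    rcases le_total s 1 with h | h
    · rw [tphi_in hg j a3 h, pe_ep hg 1 (pt_TS hg j (by simpa using a3) h (by simp))]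
      exact hax j s a1 (by omega) a3 h fun b => a5 ⟨b.1, b.2.2⟩
    · rw [tphi_out hg j h, pe_ep hg _ (pt_TS hg _ (by simpa using a4) (by linarith) (by simp))]
      exact hax _ _ (by omega) (by omega) (by linarith) (by linarith) fun b => by omega
  have h0 : pe g (e0 hg) = T (pe g (e0 hg)) := by
    have := hfix 0 0 le_rfl (by omega) le_rfl (by norm_num) (by norm_num)
    rw [tphi_zero] at this
    exact this.symm
  have := (eLiftSt hg).2
  obtain ⟨F, φ, F0, Fl, Fe⟩ :=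
    (cov hg).exists_ind (eLiftSt hg).1 T (hEv _ vv_mem_Ev) (e0 hg) h0
  have hend : ∀ (j : ℤ) (γ : FG g), F (tphiAx hg j 2) = γ • tphiAx hg j 2 →
      φ (ss g j) = γ * ss g j := fun j γ h => by
    rw [tphi_two, Fe, F0, smul_smul] at h
    exact (cov hg).cancel h
  have hst : ∀ j : ℤ, F (tphiAx hg j 0) = (1 : FG g) • tphiAx hg j 0 := fun j => by
    rw [tphi_zero, F0, one_smul]
  refine ⟨T, φ, hEv, ⟨F, Fl, Fe⟩, fun j hj => ?_⟩
  have j0 : (0 : ℤ) ≤ j := by omega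
  have j2 : (j : ℤ) < 2 * g := by omega
  by_cases hjn : j < n
  · rw [if_pos hjn]
    have h := hend j 1 (tphi_seg hg j F.continuous Fl 1 le_rfl (by norm_num) le_rfl
      (fun s hs => hfix j s j0 j2 hs.1 hs.2 fun b => by omega) (hst j))
    rw [one_mul] at h
    by_cases ho : j % 2 = 1
    · rwa [tphi_odd g ho] at h
    · rwa [tphi_even g ho, map_inv, inv_inj] at h
  · rw [if_neg hjn]
    obtain ⟨θ, t0, t1, t2⟩ := hθ j (by omega) j2
    have h1 := tphi_seg hg j F.continuous Fl 1 (q := 1 / 8) le_rfl (by norm_num) (by norm_num)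
      (fun s hs => hfix j s j0 j2 hs.1 (by linarith [hs.2]) fun b => by linarith [hs.2, b.2.1])
      (hst j)
    have e1 : tphiAx hg j (1 / 8) = (xw g 0 n)⁻¹ • a (0, θ) := by
      rw [t1, smul_ep, inv_mul_cancel, tphi_in hg j (by norm_num) (by norm_num)]
    have e3 : tphiAx hg j (3 / 8) = (xw g 0 n)⁻¹ • a (1, θ) := by
      rw [t2, smul_ep, inv_mul_cancel, tphi_in hg j (by norm_num) (by norm_num)]
    rw [one_smul, e1] at h1
    have h2 := hT2 F F.continuous Fl θ t0 _ _ h1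
    have h3 : F (tphiAx hg j (3 / 8)) = xw g 0 n • tphiAx hg j (3 / 8) := by
      rw [e3, h2, smul_smul, inv_mul_cancel, mul_inv_cancel]
    have h := hend j _ (tphi_seg hg j F.continuous Fl _ (by norm_num) (by norm_num) le_rfl
      (fun s hs => hfix j s j0 j2 (by linarith [hs.1]) hs.2 fun b => by linarith [hs.1, b.2.2]) h3)
    split_ifs with ho
    · rwa [tphi_odd g ho] at h
    · rw [tphi_even g ho, map_inv, inv_eq_iff_eq_inv] at h
      rw [h, mul_inv_rev, inv_inv]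

end

end Pool.Agent.MCG
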