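import Pool.Agent.Lib.MP_c86c76_al.Ba.St

/-!
The twist along a lifted annulus.
-/

set_option autoImplicit false

namespace Pool.Agent.MCG

open Set Topology

noncomputable section

section General

variable {S : Type} [TopologicalSpace S]

open Classical in
/-- The shear along the periodic parametrisation `b`. -/
def twMap (b : ℝ × ℝ → S) (s : ℝ) (x : S) : S :=
  if h : ∃ p : ℝ × ℝ, p.1 ∈ Icc (0 : ℝ) 1 ∧ b p = x then
    b (h.choose.1, h.choose.2 + s * h.choose.1) else x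

/-- A periodic parametrisation of an annulus whose interior `O` is open. -/
structure TwB (b : ℝ × ℝ → S) (O : Set S) : Prop where
  cont : Continuous b
  per : ∀ (β θ θ' : ℝ), Int.fract θ = Int.fract θ' → b (β, θ) = b (β, θ')
  inj : ∀ β ∈ Icc (0 : ℝ) 1, ∀ β' ∈ Icc (0 : ℝ) 1, ∀ θ θ' : ℝ, b (β, θ) = b (β', θ') →
    β = β' ∧ Int.fract θ = Int.fract θ'
  op : IsOpen O
  sub : O ⊆ b '' (Icc 0 1 ×ˢ Icc 0 1)
  mem : ∀ β ∈ Ioo (0 : ℝ) 1, ∀ θ : ℝ, b (β, θ) ∈ O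

variable {b : ℝ × ℝ → S} {O : Set S}

theorem tw_on (h : TwB b O) (s : ℝ) {β : ℝ} (hβ : β ∈ Icc (0 : ℝ) 1) (θ : ℝ) :
    twMap b s (b (β, θ)) = b (β, θ + s * β) := by
  have e : ∃ p : ℝ × ℝ, p.1 ∈ Icc (0 : ℝ) 1 ∧ b p = b (β, θ) := ⟨(β, θ), hβ, rfl⟩
  rw [twMap, dif_pos e]
  obtain ⟨e1, e2⟩ := h.inj _ e.choose_spec.1 _ hβ e.choose.2 θ e.choose_spec.2
  rw [e1]
  obtain ⟨z, hz⟩ := Int.fract_eq_fract.1 e2
  exact h.per _ _ _ (Int.fract_eq_fract.2 ⟨z, by linarith⟩)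

theorem tw_off (h : TwB b O) (s : ℤ) {x : S} (hx : x ∉ O) : twMap b s x = x := by
  by_cases e : ∃ p : ℝ × ℝ, p.1 ∈ Icc (0 : ℝ) 1 ∧ b p = x
  · obtain ⟨⟨β, θ⟩, hβ, rfl⟩ := e
    rw [tw_on h s hβ]
    rcases hβ.1.eq_or_lt with h0 | h0
    · obtain rfl : 0 = β := h0
      rw [mul_zero, add_zero]
    rcases hβ.2.eq_or_lt with h1 | h1
    · obtain rfl : β = 1 := h1
      exact h.per _ _ _ (Int.fract_eq_fract.2 ⟨s, by ring⟩)
    · exact absurd (h.mem β ⟨h0, h1⟩ θ) hx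
  · rw [twMap, dif_neg e]

theorem tw_inv (h : TwB b O) (s t : ℝ) (e : s + t = 0) (x : S) :
    twMap b s (twMap b t x) = x := by
  by_cases e' : ∃ p : ℝ × ℝ, p.1 ∈ Icc (0 : ℝ) 1 ∧ b p = x
  · obtain ⟨⟨β, θ⟩, hβ, rfl⟩ := e'
    rw [tw_on h t hβ, tw_on h s hβ, show θ + t * β + s * β = θ by linear_combination β * e]
  · have : ∀ r, twMap b r x = x := fun r => by rw [twMap, dif_neg e']
    rw [this, this]

theorem tw_cont [T2Space S] (h : TwB b O) (s : ℤ) : Continuous (twMap b s) := by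
  refine continuous_iff_isClosed.2 fun D hD => ?_
  have hc : Continuous fun p : ℝ × ℝ => b (p.1, p.2 + s * p.1) := h.cont.comp (by fun_prop)
  have : twMap b s ⁻¹' D = (Oᶜ ∩ D) ∪
      b '' ((Icc 0 1 ×ˢ Icc 0 1) ∩ (fun p : ℝ × ℝ => b (p.1, p.2 + s * p.1)) ⁻¹' D) := by
    ext x
    constructor
    · intro hx
      by_cases ho : x ∈ O
      · obtain ⟨⟨β, θ⟩, hp, rfl⟩ := h.sub ho
        rw [mem_preimage, tw_on h s hp.1] at hx
        exact Or.inr ⟨(β, θ), ⟨hp, hx⟩, rfl⟩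
      · rw [mem_preimage, tw_off h s ho] at hx
        exact Or.inl ⟨ho, hx⟩
    · rintro (⟨ho, hx⟩ | ⟨⟨β, θ⟩, ⟨hp, hx⟩, rfl⟩)
      · rwa [mem_preimage, tw_off h s ho]
      · rw [mem_preimage, tw_on h s hp.1]
        exact hx
  rw [this]
  exact (h.op.isClosed_compl.inter hD).union
    (((isCompact_Icc.prod isCompact_Icc).inter_right (hD.preimage hc)).image h.cont).isClosed

theorem tw_homeo [T2Space S] (h : TwB b O) : ∃ T : S ≃ₜ S, (∀ x ∉ O, T x = x) ∧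
    ∀ β ∈ Icc (0 : ℝ) 1, ∀ θ : ℝ, T (b (β, θ)) = b (β, θ + β) := by
  refine ⟨⟨⟨twMap b (1 : ℤ), twMap b (-1 : ℤ), tw_inv h _ _ (by simp), tw_inv h _ _ (by simp)⟩,
    tw_cont h 1, tw_cont h (-1)⟩, fun x hx => tw_off h 1 hx, fun β hβ θ => ?_⟩
  have := tw_on h (1 : ℤ) hβ θ
  rw [Int.cast_one, one_mul, ← Int.cast_one (R := ℝ)] at this
  exact this

end General

theorem twSt {g : ℕ} (hg : 0 < g) : TwSt g := by
  intro a w ha
  have hc := cov hg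
  have : T2Space (Surf g) := (fibSt hg).2
  have i0 : (0 : ℝ) ∈ Icc (0 : ℝ) 1 := left_mem_Icc.2 zero_le_one
  have i1 : (1 : ℝ) ∈ Icc (0 : ℝ) 1 := right_mem_Icc.2 zero_le_one
  have cl : ∀ β : ℝ, max 0 (min 1 β) ∈ Icc (0 : ℝ) 1 := fun β =>
    ⟨le_max_left _ _, max_le zero_le_one (min_le_left _ _)⟩
  have cl' : ∀ β ∈ Icc (0 : ℝ) 1, max 0 (min 1 β) = β := fun β h => by
    rw [min_eq_right h.2, max_eq_right h.1]
  have fr : ∀ θ : ℝ, Int.fract θ ∈ Ico (0 : ℝ) 1 := fun θ =>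
    ⟨Int.fract_nonneg θ, Int.fract_lt_one θ⟩
  obtain ⟨b, hb⟩ : ∃ b : ℝ × ℝ → Surf g,
      ∀ β θ, b (β, θ) = pe g (a (max 0 (min 1 β), Int.fract θ)) :=
    ⟨fun p => pe g (a (max 0 (min 1 p.1), Int.fract p.2)), fun _ _ => rfl⟩
  have bc : Continuous b := by
    have : b = fun p : ℝ × ℝ =>
        (fun β θ : ℝ => pe g (a (max 0 (min 1 β), θ))) p.1 (Int.fract p.2) :=
      funext fun p => hb p.1 p.2
    have h : ContinuousOn (fun p : ℝ × ℝ => pe g (a (max 0 (min 1 p.1), p.2)))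
        (univ ×ˢ Icc 0 1) := hc.continuous.comp_continuousOn
      (ha.cont.comp (f := fun p : ℝ × ℝ => (max 0 (min 1 p.1), p.2)) (by fun_prop)
        fun p hp => ⟨cl _, hp.2⟩)
    rw [this]
    refine ContinuousOn.comp_fract' (f := fun β θ : ℝ => pe g (a (max 0 (min 1 β), θ))) h
      fun β => ?_
    rw [ha.per _ (cl β), hc.smul]
  have ba : ∀ p ∈ Icc (0 : ℝ) 1 ×ˢ Icc (0 : ℝ) 1, b p = pe g (a p) := by
    rintro ⟨β, θ⟩ ⟨hβ, hθ⟩
    rw [hb, cl' β hβ]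
    rcases hθ.2.eq_or_lt with h | h
    · obtain rfl : θ = 1 := h
      rw [Int.fract_one, ha.per β hβ, hc.smul]
    · rw [Int.fract_eq_self.2 ⟨hθ.1, h⟩]
  have hB : TwB b ((pe g ∘ a) '' (Ioo 0 1 ×ˢ Icc 0 1)) := by
    refine ⟨bc, fun β θ θ' e => by rw [hb, hb, e], fun β hβ β' hβ' θ θ' e => ?_, ha.op, ?_,
      fun β hβ θ => ?_⟩
    · rw [hb, hb, cl' β hβ, cl' β' hβ'] at e
      exact Prod.mk.inj (ha.inj (mk_mem_prod hβ (fr θ)) (mk_mem_prod hβ' (fr θ')) e)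
    · rintro _ ⟨p, hp, rfl⟩
      have hp' : p ∈ Icc (0 : ℝ) 1 ×ˢ Icc (0 : ℝ) 1 := ⟨Ioo_subset_Icc_self hp.1, hp.2⟩
      exact ⟨p, hp', ba p hp'⟩
    · rw [hb, cl' β (Ioo_subset_Icc_self hβ)]
      exact ⟨(β, Int.fract θ), ⟨hβ, Ico_subset_Icc_self (fr θ)⟩, rfl⟩
  obtain ⟨T, hT, hT'⟩ := tw_homeo hB
  refine ⟨T, hT, fun F hF hl θ hθ γ δ h0 => ?_⟩
  obtain ⟨A, Ac, A0, Al⟩ := hc.exists_lift bc (fun p => by
    rw [show p = (p.1, p.2) from rfl, hb]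
    exact hc.ne _) (0, 0) (a (0, 0)) (ba _ ⟨i0, i0⟩).symm
  have Aa : EqOn A a (Icc 0 1 ×ˢ Icc 0 1) :=
    hc.eqOn_of_eq (isPreconnected_Icc.prod isPreconnected_Icc) Ac.continuousOn ha.cont
      (fun p hp => (Al p).trans (ba p hp)) (mk_mem_prod i0 i0) A0
  have Ap : (fun p : ℝ × ℝ => A (p.1, p.2 + 1)) = fun p => w • A p := by
    refine hc.eq_of_eq (Ac.comp (by fun_prop)) ((hc.continuous_smul w).comp Ac)
      (fun p => ?_) (0, 0) ?_
    · rw [hc.smul, Al, Al]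
      exact hB.per _ _ _ (Int.fract_add_one _)
    · simp only [zero_add]
      rw [Aa (mk_mem_prod i0 i1), A0, ha.per 0 i0]
  have key : EqOn (fun β : ℝ => F (γ • A (β, θ))) (fun β => δ • A (β, θ + β)) (Icc 0 1) := by
    refine hc.eqOn_of_eq isPreconnected_Icc
      (hF.comp ((hc.continuous_smul γ).comp (Ac.comp (by fun_prop)))).continuousOn
      ((hc.continuous_smul δ).comp (Ac.comp (by fun_prop))).continuousOn (fun β hβ => ?_) i0 ?_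
    · rw [hl, hc.smul, hc.smul, Al, Al, hT' β hβ]
    · simp only [add_zero]
      rw [Aa (mk_mem_prod i0 hθ), h0]
  have e := key i1
  have e' := congrFun Ap (1, θ)
  simp only at e e'
  rw [e', Aa (mk_mem_prod i1 hθ), smul_smul] at e
  exact e

end

end Pool.Agent.MCG
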