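import Pool.Agent.Lib.MP_c86c76_al.Ba.St

/-!
Logarithmic coordinates at the vertex, lifted to the tree of polygons.
-/

set_option autoImplicit false

namespace Pool.Agent.MCG

open Set Complex
open scoped Real

variable {g : ℕ}

/-- A logarithm of the point `pt g k a b`. -/
noncomputable def varcW (g : ℕ) (k : ℤ) (a b : ℝ) : ℂ :=
  (k * π / (2 * g) : ℝ) * I + Complex.log (a + (b * tt g : ℝ) * I)

theorem varc_slit {a : ℝ} (ha : 0 < a) (c : ℝ) : (a + c * I : ℂ) ∈ slitPlane :=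
  Or.inl (by simpa using ha)

theorem varc_exp (k : ℤ) {a : ℝ} (ha : 0 < a) (b : ℝ) : cexp (varcW g k a b) = pt g k a b := by
  rw [varcW, Complex.exp_add, ← ze_eq, Complex.exp_log (slitPlane_ne_zero (varc_slit ha _)), pt]

theorem varc_cont (k : ℤ) {a b : ℝ → ℝ} (ha : Continuous a) (hb : Continuous b) {s : Set ℝ}
    (h : ∀ x ∈ s, 0 < a x) : ContinuousOn (fun x => varcW g k (a x) (b x)) s :=
  continuousOn_const.add (ContinuousOn.clog (by fun_prop) fun x hx => varc_slit (h x hx) _)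

theorem varc_arg (hg : 0 < g) {a θ c : ℝ} (ha : 0 < a) (hθ : |θ| = π / (4 * g))
    (hc : c = a * Real.tan θ) : arg (a + c * I) = θ := by
  have h1 : Real.cos θ = Real.cos (π / (4 * g)) := by rw [← hθ, Real.cos_abs]
  have h2 : 0 < Real.cos θ := h1 ▸ cos_ang_pos hg
  have h3 := abs_le.1 (hθ.le.trans (ang_le hg))
  have := arg_mul_cos_add_sin_mul_I (div_pos ha h2) (θ := θ)
    ⟨by linarith [Real.pi_pos], by linarith [Real.pi_pos]⟩
  rw [← this, hc, Real.tan_eq_sin_div_cos, ← ofReal_cos, ← ofReal_sin]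
  congr 1
  have : (Real.cos θ : ℂ) ≠ 0 := by exact_mod_cast h2.ne'
  simp only [ofReal_mul, ofReal_div]
  field_simp

theorem varc_im (hg : 0 < g) (k : ℤ) {a : ℝ} (ha : 0 < a) :
    (varcW g k a (-a)).im = (k - 1 / 2) * π / (2 * g) ∧
      (varcW g k a a).im = (k + 1 - 1 / 2) * π / (2 * g) := by
  have h0 : (g : ℝ) ≠ 0 := by positivity
  have h1 := abs_of_pos (ang_pos hg)
  simp only [varcW, add_im, log_im, im_ofReal_mul, I_im, mul_one]
  rw [varc_arg hg ha (θ := -(π / (4 * g))) (by rw [abs_neg, h1]) (by rw [Real.tan_neg, tt]; ring),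
    varc_arg hg ha (c := a * tt g) h1 rfl]
  constructor <;> field_simp <;> ring

theorem varc_eq {w w' : ℂ} (h : cexp w = cexp w') (hi : w.im = w'.im) : w = w' := by
  obtain ⟨n, rfl⟩ := Complex.exp_eq_exp_iff_exists_int.1 h
  have : (n : ℝ) = 0 := by simpa [Real.pi_ne_zero] using hi
  have : n = 0 := by exact_mod_cast this
  simp [this]

theorem varc_ne (hg : 0 < g) {D : Surf g ≃ₜ Surf g} (hD : IsDual D) (w : ℂ) :
    D (pr g (cexp w)) ≠ vv g := fun e => by
  have e1 : pr g (cexp w) = cc g := D.injective (e.trans hD.cc.symm)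
  have e2 : pr g (cexp w / (max 1 (nm g (cexp w)) : ℝ)) = pr g (cexp w) := by
    rw [pr_of_mem (retr_mem hg _), pr, dif_pos (retr_mem hg _)]
  have e3 := ((fibSt hg).centre hg (retr_mem hg _)).1 (e2.trans e1)
  have h : (0 : ℝ) < max 1 (nm g (cexp w)) := lt_max_of_lt_left one_pos
  exact div_ne_zero (Complex.exp_ne_zero w) (by exact_mod_cast h.ne') e3

theorem varc_TS (hg : 0 < g) (j : ℤ) {ρ a b : ℝ} (h0 : 0 < ρ) (h1 : ρ ≤ 1) (h2 : 1 - ρ ≤ a)
    (h3 : a ≤ 1) (hb : b = 1 - ρ ∨ b = -(1 - ρ)) : pt g j a b ∈ TS g := by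
  have : |b| = 1 - ρ := (abs_eq (by linarith)).2 hb
  exact pt_TS hg j (by linarith) h3 (by linarith)

/-- Crossing one sector. -/
theorem varc_step (hg : 0 < g) {D : Surf g ≃ₜ Surf g} (hD : IsDual D) {L : ℂ → EE g}
    (hL : Continuous L) (hl : ∀ w, pe g (L w) = D (pr g (cexp w))) (k : ℤ) (γ : FG g) {ρ : ℝ}
    (h0 : 0 < ρ) (h1 : ρ ≤ 1)
    (h : L (varcW g k ρ (-ρ)) = ep hg γ (pt g ((2 * g + 1) * k + 2 * g) (1 - ρ) (-(1 - ρ)))) :
    L (varcW g (k + 1) ρ (-ρ)) =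
      ep hg (γ * xx g k) (pt g ((2 * g + 1) * (k + 1) + 2 * g) (1 - ρ) (-(1 - ρ))) := by
  set j : ℤ := (2 * g + 1) * k + 2 * g with hj
  have hb : |(-(1 - ρ))| < 1 := by rw [abs_neg, abs_of_nonneg (by linarith)]; linarith
  have hin : ∀ s, -ρ ≤ s → s ≤ 0 → pt g j (1 + s) (-(1 - ρ)) ∈ TS g := fun s a b =>
    varc_TS hg j h0 h1 (by linarith) (by linarith) (Or.inr rfl)
  have hout : ∀ s, 0 ≤ s → s ≤ ρ → pt g (j + 2 * g) (2 - (1 + s)) (- -(1 - ρ)) ∈ TS g :=
    fun s a b => varc_TS hg _ h0 h1 (by linarith) (by linarith) (Or.inl (neg_neg _))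
  have key := (cov hg).eqOn_of_eq (s := Icc (-ρ) ρ) isPreconnected_Icc
    (a := fun s => L (varcW g k ρ s)) (b := fun s => γ • qe hg j (pt g j (1 + s) (-(1 - ρ))))
    (hL.comp_continuousOn (varc_cont k continuous_const continuous_id fun _ _ => h0))
    (((cov hg).continuous_smul γ).comp_continuousOn ((continuousOn_qe hg j).comp
      ((continuous_pt g j).comp (f := fun s : ℝ => (1 + s, -(1 - ρ))) (by fun_prop)).continuousOn
      fun s hs => ?_)) (fun s hs => ?_) (left_mem_Icc.2 (by linarith)) ?_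
      (right_mem_Icc.2 (by linarith))
  · have e : varcW g (k + 1) ρ (-ρ) = varcW g k ρ ρ :=
      varc_eq (by rw [varc_exp _ h0, varc_exp _ h0, pt_diag hg])
        (by rw [(varc_im hg _ h0).1, (varc_im hg _ h0).2]; push_cast; rfl)
    have e2 : ss g j = xx g k :=
      (xx_congr g (side_mod (-((g + 1) * k + g + 1)) (by rw [hj]; ring))).symm
    simp only at key
    rw [e, key, qe_out hg j (by linarith) hb, smul_ep, e2, neg_neg,
      show 2 - (1 + ρ) = 1 - ρ by ring, ← pt_diag hg]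
    congr 2
    rw [hj]
    ring
  · rcases le_total s 0 with c | c
    · exact Or.inl (hin s hs.1 c)
    · refine Or.inr ?_
      show pt g j (1 + s) (-(1 - ρ)) - 2 * ze g j ∈ TS g
      rw [pt_sub' hg]
      exact hout s c hs.2
  · rw [hl, varc_exp _ h0, (cov hg).smul]
    rcases le_total s 0 with c | c
    · have := (hD.2 k ρ (-s) (by linarith) (by linarith [hs.1]) h1).2
      rw [neg_neg, sub_neg_eq_add] at this
      rw [this, qe_in hg j (hin s hs.1 c).1, pe_ep hg _ (hin s hs.1 c)]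
    · rw [(hD.2 k ρ s c hs.2 h1).1, qe_out hg j (by linarith) hb, pe_ep hg _ (hout s c hs.2),
        neg_neg, show 2 - (1 + s) = 1 - s by ring,
        pt_congr hg (side_mod (a := j + 2 * g) (b := (2 * g + 1) * k) 1 (by rw [hj]; ring))]
  · rw [h, qe_in hg j (hin _ le_rfl (by linarith)).1, smul_ep, mul_one, sub_eq_add_neg 1 ρ]

theorem vArcSt : VArcSt g := by
  intro hg D hD
  have hT : ∀ (j : ℤ) (ρ : ℝ), 0 < ρ → ρ ≤ 1 → pt g j (1 - ρ) (-(1 - ρ)) ∈ TS g :=
    fun j ρ h0 h1 => varc_TS hg j h0 h1 le_rfl (by linarith) (Or.inr rfl)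
  have hp : ∀ ρ : ℝ, 0 < ρ → ρ ≤ 1 →
      pe g (ep hg 1 (pt g ((2 * g + 1) * 0 + 2 * g) (1 - ρ) (-(1 - ρ)))) =
        D (pr g (cexp (varcW g 0 ρ (-ρ)))) := fun ρ h0 h1 => by
    rw [pe_ep hg _ (hT _ ρ h0 h1), varc_exp _ h0, (hD.2 0 ρ ρ h0.le le_rfl h1).2]
  obtain ⟨L, hL, hb, hl⟩ := (cov hg).exists_lift (f := fun w => D (pr g (cexp w)))
    (D.continuous.comp ((continuous_pr hg).comp Complex.continuous_exp)) (varc_ne hg hD)
    (varcW g 0 1 (-1)) _ (hp 1 one_pos le_rfl)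
  have v0 := (cov hg).eqOn_of_eq (s := Ioc (0 : ℝ) 1) isPreconnected_Ioc
    (a := fun ρ => L (varcW g 0 ρ (-ρ)))
    (b := fun ρ => ep hg 1 (pt g ((2 * g + 1) * 0 + 2 * g) (1 - ρ) (-(1 - ρ))))
    (hL.comp_continuousOn (varc_cont 0 continuous_id continuous_neg fun _ h => h.1))
    ((continuousOn_ep hg 1).comp ((continuous_pt g _).comp
      (f := fun s : ℝ => (1 - s, -(1 - s))) (by fun_prop)).continuousOn
      fun s hs => hT _ s hs.1 hs.2) (fun s hs => by rw [hl, hp s hs.1 hs.2])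
    (right_mem_Ioc.2 one_pos) hb
  have v : ∀ (k : ℕ) (ρ : ℝ), 0 < ρ → ρ ≤ 1 → L (varcW g k ρ (-ρ)) =
      ep hg (xw g 0 k) (pt g ((2 * g + 1) * k + 2 * g) (1 - ρ) (-(1 - ρ))) := by
    intro k ρ h0 h1
    induction k with
    | zero => exact v0 ⟨h0, h1⟩
    | succ k ih =>
      rw [xw_succ, zero_add, Nat.cast_succ]
      exact varc_step hg hD hL hl k _ h0 h1 ih
  have val : ∀ (k : ℕ) (ρ : ℝ) (w : ℂ), 0 < ρ → ρ ≤ 1 → cexp w = pt g k ρ (-ρ) →
      w.im = (k - 1 / 2) * π / (2 * g) →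
      L w = ep hg (xw g 0 k) (pt g ((2 * g + 1) * k + 2 * g) (1 - ρ) (-(1 - ρ))) := by
    intro k ρ w h0 h1 e hi
    rw [varc_eq (w := w) (w' := varcW g k ρ (-ρ)) (by rw [e, varc_exp _ h0])
      (by rw [hi, (varc_im hg _ h0).1, Int.cast_natCast]), v k ρ h0 h1]
  refine ⟨L, hL, hl, congrFun ((cov hg).eq_of_eq (a := fun w => L (w + 2 * π * I))
    (b := fun w => rr g • L w) (hL.comp (by fun_prop)) (((cov hg).continuous_smul _).comp hL)
    (fun w => by rw [(cov hg).smul, hl, hl, Complex.exp_add, exp_two_pi_mul_I, mul_one])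
    (varcW g 0 1 (-1)) ?_), val⟩
  have h0 : (g : ℝ) ≠ 0 := by positivity
  rw [hb, val (4 * g) 1 _ one_pos le_rfl, smul_ep, mul_one, rr]
  · exact congrArg _ (pt_congr hg (side_mod (2 * g + 1) (by push_cast; ring)) _ _)
  · rw [Complex.exp_add, exp_two_pi_mul_I, mul_one, varc_exp _ one_pos]
    exact pt_congr hg (side_mod (-1) (by push_cast; ring)) _ _
  · rw [add_im, (varc_im hg 0 one_pos).1]
    simp only [mul_im, mul_re, re_ofNat, im_ofNat, ofReal_re, ofReal_im, I_re, I_im]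
    push_cast
    field_simp
    ring

end Pool.Agent.MCG
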