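import Pool.Agent.Lib.MP_c86c76_al.J.All2
import Pool.Agent.Lib.MP_c86c76_al.Ba.Asm
import Pool.Agent.Lib.MP_c86c76_al.Ba.BTw
import Pool.Agent.Lib.MP_c86c76_al.Ba.CDisc
import Pool.Agent.Lib.MP_c86c76_al.Ba.Chart
import Pool.Agent.Lib.MP_c86c76_al.Ba.FAlex
import Pool.Agent.Lib.MP_c86c76_al.Ba.Fin
import Pool.Agent.Lib.MP_c86c76_al.Ba.Gear
import Pool.Agent.Lib.MP_c86c76_al.Ba.GermS
import Pool.Agent.Lib.MP_c86c76_al.Ba.Ker
import Pool.Agent.Lib.MP_c86c76_al.Ba.Last1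
import Pool.Agent.Lib.MP_c86c76_al.Ba.Last2
import Pool.Agent.Lib.MP_c86c76_al.Ba.Lift
import Pool.Agent.Lib.MP_c86c76_al.Ba.Psh
import Pool.Agent.Lib.MP_c86c76_al.Ba.Rot
import Pool.Agent.Lib.MP_c86c76_al.Ba.TGeo
import Pool.Agent.Lib.MP_c86c76_al.Ba.TPhi
import Pool.Agent.Lib.MP_c86c76_al.Ba.Tw
import Pool.Agent.Lib.MP_c86c76_al.Ba.VArc

/-!
From the stabiliser of the boundary word to the mapping class group.
-/

set_option autoImplicit false

namespace Pool.Agent.MCG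

open Pool.Agent.PT Pool.Agent.MT

variable {g : ℕ}

theorem kerA (hg : 0 < g) : KerSt g :=
  have hG := gearSt hg discSt
  have hQ := chartSt hG
  have hL := liftSt hg discSt alex transSt
  kerSt hg finSt (leafSt finSt) (pshSt arcBasSt move cut hG hQ hL finSt)
    (last1St arcBasSt move cut hG hQ hL finSt) (last2St move hG hQ hL finSt)
    (fAlexSt hG hQ hL finSt)

theorem theta (hg : 0 < g) : ∃ Θ : AutC g →* ModPM (Surf g), Θ.range.FiniteIndex ∧
    Θ.range ≤ ModP (Surf g) ∧ (∀ w, Θ ⟨MulAut.conj w, conj_mem_AutC g w⟩ = 1) ∧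
    Commute (Θ ⟨rho g, rho_mem g⟩ ^ (2 * g)) (Θ ⟨tau g, tau_mem g⟩) :=
  have hC := cDiscSt hg discSt alex transSt
  have hN := nearSt hg relSt hC
  have hR := rotSt hg relSt hC hN
  theta_of hg (kerA hg) vArcSt (bTwSt hR) (germSSt hg germ hC hN) hR
    (tPhiSt hg (twSt hg) (tGeoSt vArcSt))

/-- Property (T) for the stabiliser of the boundary word gives property (T) for the mapping class
group. -/
theorem surf_hasT (hg : 0 < g) (hT : HasT (St g)) (Γ : Subgroup (ModPM (Surf g)))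
    (hΓ : Γ.relIndex (ModP (Surf g)) ≠ 0) :
    Group.FG Γ ∧ ∀ S : Finset Γ, Subgroup.closure (S : Set Γ) = ⊤ → ∃ ε > 0, Kaz S ε := by
  obtain ⟨Θ, h1, h2, h3, -⟩ := theta hg
  exact hasT_of h1 h2 (MG.stab_fg g) hT _ (stA_surj h3) Γ hΓ

end Pool.Agent.MCG
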