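import Pool.Agent.Lib.MP_c86c76_al.Ba.Cl
import Pool.Agent.Lib.MP_c86c76_al.Bi.Arc
import Pool.Agent.Lib.MP_c86c76_al.Bi.Ch
import Pool.Agent.Lib.MP_c86c76_al.Bi.Cn
import Pool.Agent.Lib.MP_c86c76_al.Bi.Col
import Pool.Agent.Lib.MP_c86c76_al.Bi.Ex
import Pool.Agent.Lib.MP_c86c76_al.Bi.Fin
import Pool.Agent.Lib.MP_c86c76_al.Bi.Gam
import Pool.Agent.Lib.MP_c86c76_al.Bi.Gap
import Pool.Agent.Lib.MP_c86c76_al.Bi.Hn
import Pool.Agent.Lib.MP_c86c76_al.Bi.Ker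
import Pool.Agent.Lib.MP_c86c76_al.Bi.Let
import Pool.Agent.Lib.MP_c86c76_al.Bi.Om
import Pool.Agent.Lib.MP_c86c76_al.Bi.One
import Pool.Agent.Lib.MP_c86c76_al.Bi.P1
import Pool.Agent.Lib.MP_c86c76_al.Bi.P2
import Pool.Agent.Lib.MP_c86c76_al.Bi.Pin
import Pool.Agent.Lib.MP_c86c76_al.Bi.Rel
import Pool.Agent.Lib.MP_c86c76_al.Bi.Sh
import Pool.Agent.Lib.MP_c86c76_al.Bi.Sl
import Pool.Agent.Lib.MP_c86c76_al.Bi.Sp
import Pool.Agent.Lib.MP_c86c76_al.Bi.Tau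
import Pool.Agent.Lib.MP_c86c76_al.Bi.Up

/-!
The kernel of the action on the surface group.
-/

set_option autoImplicit false

namespace Pool.Agent.MCG

theorem trivSt {g : ℕ} (hg : 2 ≤ g) : TrivSt g :=
  have hUp := MI.upSt MI.chSt
  have hG := MI.gapSt MI.chSt hUp
  have hO := MI.omSt MI.chSt MI.tauSt
  have hA := MI.arcSt MI.chSt MI.tauSt hO MI.relSt
  have hL := MI.letSt MI.cnSt
  have hS := MI.shSt MI.cnSt MI.chSt hG
  have h1 := MI.oneSt MI.cnSt hL hUp hG MI.relSt hA hS (MI.spSt MI.cnSt hUp hG MI.exSt hS)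
  have hC := MI.colSt MI.hnSt
  triv_of MI.relSt hA (MI.gamSt hC)
    (MI.finSt MI.chSt MI.relSt hA hS hC
      (MI.p1St MI.cnSt MI.relSt hA hS h1 (MI.pinSt MI.cnSt MI.hnSt))
      (MI.p2St MI.cnSt hL MI.chSt MI.relSt hA hS h1))
    (MI.kerSt MI.chSt MI.tauSt (MI.slSt MI.tauSt) hO) hg

end Pool.Agent.MCG
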