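import Pool.Agent.Lib.MP_c86c76_al.Ba.All
import Pool.Agent.Lib.MP_c86c76_al.Bi.Asm

/-!
From the outer automorphism group of the surface group to the mapping class group.
-/

set_option autoImplicit false

namespace Pool.Agent.MCG

open Pool.Agent.MB Pool.Agent.MG Pool.Agent.MT Pool.Agent.MI Pool.Agent.Lib.MP_c86c76_al

variable {g : ℕ}

/-- Automorphisms that fix the boundary word and act trivially on the surface group. -/
def TrivSt (g : ℕ) : Prop := ∀ φ : St g, (∀ w, Cg (ev _ (rW g)) (φ.1 w) w) →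
  φ.1 ∈ Subgroup.zpowers (MulAut.conj (ev (2 * g) (rW g)))

theorem triv_of (hR : MI.RelSt) (hA : MI.ArcSt) (hG : MI.GamSt) (hF : MI.FinSt) (hK : MI.KerSt)
    (hg : 2 ≤ g) : TrivSt g := fun φ e => by
  obtain ⟨h, rfl⟩ : ∃ h, g = h + 1 := ⟨g - 1, by omega⟩
  exact asm_one hR hA hG hF hK (by omega) φ.2 e

theorem cl_cj {G : Type} [Group G] {r u : G} {φ : MulAut G} (σ : MulAut G) (h : Inr r φ u) :
    Inr (σ r) (σ * φ * σ⁻¹) (σ u) := fun w => by
  refine cg_iff.2 (((h (σ⁻¹ w)).hom ((pj (σ r)).comp σ.toMonoidHom) (pj_r _)).trans ?_)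
  change pj _ (σ _) = _
  rw [map_mul σ, map_mul σ, map_inv σ, MulAut.apply_inv_self]

theorem cl_mem {φ : MulAut (FG g)} (h : φ (rr g) = rr g) : φ ∈ AutC g := by
  change IsConj _ _
  rw [h]

/-- The commutator of the half turn and the twist is a push. -/
theorem cl_push (hg : 0 < g) {j : MulAut (FG g)}
    (hj : j = MulAut.conj (xw g (1 + (2 * g : ℕ)) (2 * g - 1)) *
      (rho g ^ (2 * g) * tau g * (rho g ^ (2 * g))⁻¹ * (tau g)⁻¹)) :
    j (rr g) = rr g ∧ Inr (rr g) j (xw g (1 + (2 * g : ℕ)) (2 * g - 1)) := by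
  have hι : ∀ k, (rho g ^ (2 * g)) (xx g k) = (xx g k)⁻¹ := fun k => by
    rw [rho_pow hg, ← xx_add_two]; push_cast; rfl
  have hA := rho_pow_xw hg (2 * g) 1 (2 * g - 1)
  have e : rr g = xx g 0 * xw g 1 (2 * g - 1) *
      ((xx g 0)⁻¹ * xw g (1 + (2 * g : ℕ)) (2 * g - 1)) := by
    have e1 : 4 * g = (2 * g - 1 + 1) + (2 * g - 1 + 1) := by omega
    have e2 : ((2 * g - 1 + 1 : ℕ) : ℤ) = 2 * g := by omega
    rw [rr, e1, xw_add, xw_succ', xw_succ', e2, xx_add_two]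
    congr 3
    push_cast
    ring
  have t0 : tau g (xx g 0) = xx g 0 * xw g 1 (2 * g - 1) := by
    have := tau_of g ⟨0, by omega⟩
    rw [← xx_of] at this
    simpa using this
  have tA : tau g (xw g 1 (2 * g - 1)) = xw g 1 (2 * g - 1) := tw_xw _ _ (by omega)
  have tr := tau_rr g
  generalize rho g ^ (2 * g) = ι at *
  generalize xw g (1 + (2 * g : ℕ)) (2 * g - 1) = B at *
  have ii : ι⁻¹ = ι := inv_eq_of_mul_eq_one_right (MulEquiv.toMonoidHom_injective
    (FreeGroup.ext_hom _ _ fun i => by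
      change ι (ι _) = FreeGroup.of i
      rw [← xx_of, hι, map_inv, hι, inv_inv]))
  have hB : ι B = xw g 1 (2 * g - 1) := by
    rw [← hA]
    nth_rewrite 1 [← ii]
    exact MulAut.inv_apply_self _ _ _
  have tB : tau g B = B := by
    rw [e] at tr
    simp only [map_mul, map_inv, t0, tA, mul_inv_rev, mul_assoc, mul_inv_cancel_left,
      mul_right_inj] at tr
    exact tr
  have key : ∀ w, pj (rr g) (ι (tau g (ι w))) = pj (rr g) (tau g w) := fun w =>
    DFunLike.congr_fun (FreeGroup.ext_hom ((pj (rr g)).comp (ι * tau g * ι).toMonoidHom)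
      ((pj (rr g)).comp (tau g).toMonoidHom) fun i => by
        change pj _ (ι (tau g (ι _))) = pj _ (tau g _)
        by_cases h : (i : ℕ) = 0
        · have := (congrArg (pj (rr g)) e).symm.trans (pj_r (rr g))
          rw [← xx_of, h, Nat.cast_zero, hι, map_inv, t0, map_inv, map_mul ι, hι, hA]
          simp only [map_mul, map_inv] at this ⊢
          exact (eq_inv_of_mul_eq_one_left this).symm
        · have t : tau g (xx g (i : ℕ)) = xx g (i : ℕ) := by rw [xx_of, tau_of, if_neg h]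
          rw [← xx_of, hι, map_inv, t, map_inv, hι, inv_inv]) w
  rw [hj, ii]
  constructor
  · change B * ι (tau g (ι ((tau g)⁻¹ _))) * B⁻¹ = _
    rw [show (tau g)⁻¹ (rr g) = rr g from (tau g).symm_apply_eq.2 tr.symm, e]
    simp only [map_mul, map_inv, hι, hA, hB, t0, tA, tB]
    group
  · simpa only [mul_one] using (Inr.conj (rr g) B).mul (Inr.one.2 fun w => cg_iff.2
      ((key ((tau g)⁻¹ w)).trans (by rw [MulAut.apply_inv_self])))

/-- A normal subgroup that contains the diagonals of odd length is everything. -/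
theorem cl_top (hg : 0 < g) (K : Subgroup (FG g)) [K.Normal] (a : ℤ)
    (h : ∀ n : ℕ, xw g (a + n) (2 * g - 1) ∈ K) : K = ⊤ := by
  obtain ⟨q, hq⟩ : ∃ q : FG g →* FG g ⧸ K, ∀ x, q x = 1 ↔ x ∈ K :=
    ⟨QuotientGroup.mk' K, QuotientGroup.eq_one_iff⟩
  have e : ∀ b, xw g b (2 * g) = xw g b (2 * g - 1 + 1) := fun b => congrArg _ (by omega)
  have h1 : ∀ n : ℕ, q (xw g (a + n) (2 * g)) = q (xx g (a + n)) := fun n => by
    rw [e, xw_succ', map_mul, add_assoc, ← Nat.cast_succ, (hq _).2 (h _), mul_one]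
  have h2 : ∀ n : ℕ, q (xx g (a + n)) * q (xx g (a + n + 1)) = 1 := fun n => by
    have := h1 (n + 1)
    rw [e, xw_succ, map_mul, (hq _).2 (h _), one_mul,
      show a + (n + 1 : ℕ) + (2 * g - 1 : ℕ) = a + n + 2 * g by omega, xx_add_two, map_inv] at this
    rw [add_assoc, ← Nat.cast_succ, ← this, mul_inv_cancel]
  have h3 : ∀ n m : ℕ, q (xw g (a + n) (2 * m)) = 1 := fun n m => by
    induction m with
    | zero => exact map_one q
    | succ m ih =>
      rw [show 2 * (m + 1) = 2 * m + 1 + 1 from rfl, xw_succ, xw_succ, map_mul, map_mul, ih,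
        one_mul, ← h2 (n + 2 * m)]
      push_cast
      simp only [add_assoc]
  have h4 : ∀ (n : ℕ) (k : ℤ), a ≤ k + 2 * g * n → q (xx g k) = 1 := fun n => by
    induction n with
    | zero =>
      intro k hk
      rw [show k = a + (k - a).toNat by omega, ← h1, h3]
    | succ n ih =>
      intro k hk
      rw [← inv_eq_one, ← map_inv, ← xx_add_two]
      exact ih _ (by push_cast at hk; linarith)
  refine eq_top_iff.2 fun x _ => (hq x).1 (DFunLike.congr_fun (FreeGroup.ext_hom q 1 fun i => ?_) x)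
  rw [← xx_of]
  exact h4 a.toNat _ (by have := Int.self_le_toNat a; nlinarith [Int.natCast_nonneg a.toNat])

theorem cl_ker {A : Type} [Group A] {Θ : AutC g →* A} (hg : 0 < g)
    (h1 : ∀ w, Θ ⟨MulAut.conj w, conj_mem_AutC g w⟩ = 1)
    (h2 : Commute (Θ ⟨rho g, rho_mem g⟩ ^ (2 * g)) (Θ ⟨tau g, tau_mem g⟩)) (hB : TrivSt g) :
    (toMod g).ker ≤ (Θ.comp (stA g)).ker := by
  have hω : (omega g)⁻¹ (ev _ (rW g)) = rr g := by rw [← omega_rr, MulAut.inv_apply_self]
  have tr : ∀ (φ : St g) u, Inr (ev _ (rW g)) φ.1 u →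
      (stA g φ).1 (rr g) = rr g ∧ Inr (rr g) (stA g φ).1 ((omega g)⁻¹ u) := fun φ u h =>
    ⟨by
      change (omega g)⁻¹ (φ.1 ((omega g)⁻¹⁻¹ _)) = _
      rw [inv_inv, omega_rr, show φ.1 _ = _ from φ.2, hω], hω ▸ cl_cj _ h⟩
  let K : Subgroup (FG g) :=
    { carrier := {u | ∃ j : AutC g, Θ j = 1 ∧ j.1 (rr g) = rr g ∧ Inr (rr g) j.1 u}
      one_mem' := ⟨1, map_one Θ, rfl, Inr.one.2 fun _ => cg_iff.2 rfl⟩
      mul_mem' := fun ⟨j, a, b, c⟩ ⟨j', a', b', c'⟩ => ⟨j * j', by rw [map_mul, a, a', mul_one],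
        show j.1 (j'.1 _) = _ by rw [b', b], c.mul c'⟩
      inv_mem' := fun ⟨j, a, b, c⟩ => ⟨j⁻¹, by rw [map_inv, a, inv_one],
        j.1.symm_apply_eq.2 b.symm, c.inv⟩ }
  have inv : ∀ ψ : MulAut (FG g), ψ (rr g) = rr g → ∀ u ∈ K, ψ u ∈ K := by
    rintro ψ e u ⟨j, a, b, c⟩
    refine ⟨⟨ψ, cl_mem e⟩ * j * ⟨ψ, cl_mem e⟩⁻¹,
      by rw [map_mul, map_mul, a, mul_one, map_inv, mul_inv_cancel], ?_, e ▸ cl_cj ψ c⟩
    change ψ (j.1 (ψ⁻¹ _)) = _
    rw [show ψ⁻¹ (rr g) = rr g from ψ.symm_apply_eq.2 e.symm, b, e]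
  have : K.Normal := ⟨fun u m v => by
    obtain ⟨h, rfl⟩ : ∃ h, g = h + 1 := ⟨g - 1, by omega⟩
    obtain ⟨p, p1, p2⟩ := ex_push h
    obtain ⟨φ, -, hφ⟩ := push_onto ⊤ (p := ⟨p, p1.1⟩) p2 trivial (omega (h + 1) v)
    obtain ⟨a, b⟩ := tr φ _ hφ
    rw [MulAut.inv_apply_self] at b
    obtain ⟨j, c, d, e⟩ := inv _ a u m
    exact ⟨j, c, d, e.congr (b u)⟩⟩
  have top : K = ⊤ := cl_top hg K (1 + (2 * g : ℕ)) fun n => by
    induction n with
    | zero =>
      obtain ⟨a, b⟩ := cl_push hg (j := (⟨_, conj_mem_AutC g (xw g (1 + (2 * g : ℕ))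
        (2 * g - 1))⟩ * (⟨rho g, rho_mem g⟩ ^ (2 * g) *
        ⟨tau g, tau_mem g⟩ * (⟨rho g, rho_mem g⟩ ^ (2 * g))⁻¹ * ⟨tau g, tau_mem g⟩⁻¹) : AutC g))
        (by simp only [Subgroup.coe_mul, Subgroup.coe_inv, Subgroup.coe_pow])
      refine ⟨_, ?_, a, by simpa only [Nat.cast_zero, add_zero] using b⟩
      simp only [map_mul, map_inv, map_pow, h1, h2.eq]
      group
    | succ n ih =>
      obtain ⟨w, hw⟩ := isConj_iff.1 (rho_mem g)
      have := this.conj_mem _ (inv (MulAut.conj w * rho g) hw _ ih) w⁻¹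
      rw [MulAut.mul_apply, MulAut.conj_apply, rho_xw hg] at this
      simpa [mul_assoc, add_assoc] using this
  intro φ hφ
  obtain ⟨u, hu⟩ := toMod_one.1 hφ
  obtain ⟨a, b⟩ := tr φ u hu
  obtain ⟨j, c, d, e⟩ : (omega g)⁻¹ u ∈ K := top ▸ Subgroup.mem_top _
  have f := cl_cj (omega g) (e.inv.mul b)
  rw [inv_mul_cancel, map_one, omega_rr] at f
  obtain ⟨k, hk⟩ := hB ⟨_, by
    change omega g (j.1⁻¹ ((stA g φ).1 ((omega g)⁻¹ _))) = _
    rw [hω, a, show j.1⁻¹ (rr g) = rr g from j.1.symm_apply_eq.2 d.symm, omega_rr]⟩ (Inr.one.1 f)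
  have : stA g φ = j * ⟨_, conj_mem_AutC g (rr g)⟩ ^ k := Subtype.ext (by
    have e1 : MulAut.conj (ev (2 * g) (rW g)) = omega g * MulAut.conj (rr g) * (omega g)⁻¹ := by
      ext w
      simp [← omega_rr]
    simp only [e1, conj_zpow, mul_left_inj, mul_right_inj] at hk
    exact (inv_mul_eq_iff_eq_mul.1 hk.symm :))
  change Θ _ = 1
  rw [this, map_mul, map_zpow, c, h1, one_zpow, mul_one]

/-- Property (T) for the image in the outer automorphism group gives property (T) for the mapping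
class group. -/
theorem surf_hasT' (hg : 0 < g) (hB : TrivSt g) (hT : HasT (toMod g).range)
    (Γ : Subgroup (ModPM (Surf g))) (hΓ : Γ.relIndex (ModP (Surf g)) ≠ 0) :
    Group.FG Γ ∧ ∀ S : Finset Γ, Subgroup.closure (S : Set Γ) = ⊤ → ∃ ε > 0, Kaz S ε := by
  obtain ⟨Θ, h1, h2, h3, h4⟩ := theta hg
  have := MG.stab_fg g
  have s := (toMod g).rangeRestrict_surjective
  have k : (toMod g).rangeRestrict.ker ≤ (Θ.rangeRestrict.comp (stA g)).ker := fun φ m =>
    Subtype.ext (cl_ker hg h3 h4 hB (congrArg Subtype.val m))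
  refine hasT_of h1 h2 (Group.fg_of_surjective s) hT (MonoidHom.liftOfSurjective _ s ⟨_, k⟩)
    (fun y => ?_) Γ hΓ
  obtain ⟨φ, rfl⟩ := stA_surj h3 y
  exact ⟨_, MonoidHom.liftOfRightInverse_comp_apply _ _ _ _ φ⟩

end Pool.Agent.MCG
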