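import Pool.Agent.Lib.MP_c86c76_al.Ba.All
import Pool.Agent.Lib.MP_c86c76_al.B.Final

/-!
Property (T) for the mapping class groups of genus at least three.
-/

set_option autoImplicit false

namespace Pool.Agent.MCG

open Pool.Agent.PT Pool.Agent.MT

variable {g : ℕ}

/-- Finite index subgroups of the mapping class group are finitely generated. -/
theorem surf_fg (hg : 0 < g) (Γ : Subgroup (ModPM (Surf g))) [Γ.FiniteIndex] : Group.FG Γ := by
  obtain ⟨Θ, h1, -, h3, -⟩ := theta hg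
  have := MG.stab_fg g
  have := fg_of_sub Θ.range (Group.fg_of_surjective (stA_surj h3))
  infer_instance

theorem comb (hT : ∀ g, 5 ≤ g → HasT (St g)) (hg : 3 ≤ g) (Γ : Subgroup (ModPM (Surf g)))
    [Γ.FiniteIndex] : Group.FG Γ ∧ ∀ S : Finset Γ, Subgroup.closure (S : Set Γ) = ⊤ →
      ((∃ ε > 0, Kaz S ε) ↔ 5 ≤ g) := by
  have hΓ : Γ.relIndex (ModP (Surf g)) ≠ 0 := Subgroup.FiniteIndex.index_ne_zero
  refine ⟨surf_fg (by omega) Γ, fun S hS => ⟨fun ⟨ε, h0, h⟩ => ?_, fun h =>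
    (surf_hasT (by omega) (hT g h) Γ hΓ).2 S hS⟩⟩
  by_contra h5
  obtain ⟨H, _, _, _, π, v, a, b, c⟩ := MB.noT g (by omega) Γ hΓ S ε h0
  obtain ⟨w, h1, h2⟩ := h H π v a b
  exact h1 (c w h2)

end Pool.Agent.MCG
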