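import Pool.Agent.Lib.MP_c86c76_al.Ba.Cl
import Pool.Agent.Lib.MP_c86c76_al.C.Five

/-!
Genus five.
-/

set_option autoImplicit false

namespace Pool.Agent.MCG

open Pool.Agent.MB Pool.Agent.MG Pool.Agent.MT Pool.Agent.MC Pool.Agent.Lib.MP_c86c76_al

theorem toMod_index {g : ℕ} (hg : 0 < g) : (toMod g).range.FiniteIndex := by
  obtain ⟨f, -, c, hc⟩ := rwASt (2 * g) g rfl
  have hr : c.r = ev (2 * g) (rW g) := by rw [Ctx.r, hc, Raw_ev]
  have key : ∀ (r : FN (2 * g)) (e : OneRel r ≃* Pi1 g), c.r = r → Uni r →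
      (toOut r e).range.FiniteIndex := by
    rintro _ e rfl u
    refine toOut_index c (fun h => ?_) u e
    have := c.full.2 (⟨0, by omega⟩, true)
    rw [h] at this
    exact List.not_mem_nil this
  exact key _ _ hr (RwB_uni g)

theorem five_of (hB : TrivSt 5) {κ γ : ℕ → Out (Pi1 5)} (hM : Model κ γ datM)
    (h : (toMod 5).range ≤ Subgroup.closure (Set.range κ ∪ Set.range γ))
    (Γ : Subgroup (ModPM (Surf 5))) [Γ.FiniteIndex] :
    Group.FG Γ ∧ ∀ S : Finset Γ, Subgroup.closure (S : Set Γ) = ⊤ → ∃ ε > 0, Kaz S ε :=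
  have := toMod_index (g := 5) (by omega)
  have := Subgroup.finiteIndex_of_le h
  surf_hasT' (by omega) hB (((five _ κ γ hM).of_sub _).sub _) Γ Subgroup.FiniteIndex.index_ne_zero

end Pool.Agent.MCG
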