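import Pool.Agent.Lib.MP_c86c76_al.T.Defs

/-!
Kazhdan pairs of countable groups do not depend on the universe of the Hilbert spaces.
-/

set_option autoImplicit false

namespace Pool.Agent.MT

universe u v

/-- Every unitary representation with a unit vector moved by less than `ε` by the members of `S`
has a nonzero invariant vector. -/
def KazU {G : Type} [Group G] (S : Finset G) (ε : ℝ) : Prop :=
  ∀ (H : Type u) [NormedAddCommGroup H] [InnerProductSpace ℂ H] [CompleteSpace H]
    (π : G →* (H ≃ₗᵢ[ℂ] H)) (v : H), ‖v‖ = 1 → (∀ s ∈ S, ‖π s v - v‖ < ε) →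
    ∃ w : H, w ≠ 0 ∧ ∀ g, π g w = w

theorem KazU.small {G : Type} [Group G] {S : Finset G} {ε : ℝ} (h : KazU.{u} S ε) {H : Type v}
    [NormedAddCommGroup H] [InnerProductSpace ℂ H] [CompleteSpace H] [Small.{u} H]
    (π : G →* (H ≃ₗᵢ[ℂ] H)) (v : H) (h1 : ‖v‖ = 1) (h2 : ∀ s ∈ S, ‖π s v - v‖ < ε) :
    ∃ w : H, w ≠ 0 ∧ ∀ g, π g w = w := by
  let e : Shrink.{u} H ≃ₗᵢ[ℂ] H := ⟨Shrink.linearEquiv ℂ H, fun _ => rfl⟩
  let _ : InnerProductSpace ℂ (Shrink.{u} H) :=
    { inner x y := inner ℂ (e x) (e y)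
      norm_sq_eq_re_inner x := by rw [← e.norm_map, norm_sq_eq_re_inner (𝕜 := ℂ)]
      conj_inner_symm x y := inner_conj_symm _ _
      add_left x y z := by rw [map_add, inner_add_left]
      smul_left x y r := by rw [map_smul, inner_smul_left] }
  have := e.toIsometryEquiv.completeSpace
  obtain ⟨w, a, b⟩ := h (Shrink.{u} H)
    ⟨⟨fun g => (e.trans (π g)).trans e.symm, by ext; simp⟩, fun g g' => by ext; simp⟩ (e.symm v)
    (by rw [e.symm.norm_map, h1]) fun s m => by
      rw [← e.norm_map]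
      simpa using h2 s m
  exact ⟨e w, by simpa using a, fun g => e.symm.injective (by simpa using b g)⟩

theorem KazU.univ {G : Type} [Group G] [Countable G] {S : Finset G} {ε : ℝ} (h : KazU.{u} S ε) :
    KazU.{v} S ε := by
  intro H _ _ _ π v h1 h2
  let K := (Submodule.span ℂ (Set.range fun g => π g v)).topologicalClosure
  have hK : ∀ g, ∀ x ∈ K, π g x ∈ K := fun g x m => by
    refine map_mem_closure (π g).continuous m fun y hy => ?_
    refine Submodule.span_mono ?_ (Submodule.apply_mem_span_image_of_mem_span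
      (π g).toLinearEquiv.toLinearMap hy)
    rintro _ ⟨_, ⟨a, rfl⟩, rfl⟩
    exact ⟨g * a, by simp⟩
  have : TopologicalSpace.SeparableSpace K :=
    (Set.countable_range _).isSeparable.span.closure.separableSpace
  have : Small.{0} K := small_of_injective (kuratowskiEmbedding.isometry K).injective
  have : Small.{u} K := small_lift K
  have m : v ∈ K := Submodule.le_topologicalClosure _ (Submodule.subset_span ⟨1, by simp⟩)
  obtain ⟨w, a, b⟩ := h.small (H := K)
    ⟨⟨fun g => ⟨⟨⟨⟨fun x => ⟨π g x, hK g _ x.2⟩, fun x y => Subtype.ext (map_add _ _ _)⟩,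
      fun c x => Subtype.ext (map_smul _ _ _)⟩, fun x => ⟨π g⁻¹ x, hK _ _ x.2⟩,
      fun x => Subtype.ext (by simp), fun x => Subtype.ext (by simp)⟩,
      fun x => (π g).norm_map x⟩, by ext; simp⟩, fun g g' => by ext; simp⟩ ⟨v, m⟩ h1 h2
  exact ⟨w, fun e => a (Subtype.ext e), fun g => congrArg Subtype.val (b g)⟩

theorem kazU_iff {G : Type} [Group G] (hG : Group.FG G) {S : Finset G} {ε : ℝ} :
    KazU.{u} S ε ↔ Kaz S ε :=
  have : Countable G := by
    obtain ⟨α, _, f, hf⟩ := Group.fg_iff_exists_freeGroup_hom_surjective_finite.1 hG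
    exact hf.countable
  ⟨fun h => KazU.univ.{u, 0} h, fun h => KazU.univ.{0, u} h⟩

end Pool.Agent.MT
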