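import Pool.Agent.Lib.MP_c86c76_al.Ba.Bir
import Pool.Agent.Lib.MP_c86c76_al.Ba.Univ
import Pool.Agent.Lib.MP_c86c76_al.C.Out5

/-!
Property (T) for the mapping class group from the outer automorphism group; genus five.
-/

set_option autoImplicit false

namespace Pool.Agent.MCG

open Pool.Agent.MT

universe u

theorem surf_top {g : ℕ} (hg : 2 ≤ g) (hT : HasT (toMod g).range) (Γ : Subgroup (ModPM (Surf g)))
    (hΓ : Γ.index ≠ 0) :
    Group.FG Γ ∧ ∀ S : Finset Γ, Subgroup.closure (S : Set Γ) = ⊤ → ∃ ε > 0, KazU.{u} S ε :=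
  have : Γ.FiniteIndex := ⟨hΓ⟩
  have h := surf_hasT' (by omega) (trivSt hg) hT Γ Subgroup.FiniteIndex.index_ne_zero
  ⟨h.1, fun S hS => (h.2 S hS).imp fun _ k => ⟨k.1, (kazU_iff h.1).2 k.2⟩⟩

theorem five_top (Γ : Subgroup (ModPM (Surf 5))) (hΓ : Γ.index ≠ 0) :
    Group.FG Γ ∧ ∀ S : Finset Γ, Subgroup.closure (S : Set Γ) = ⊤ → ∃ ε > 0, KazU.{u} S ε :=
  surf_top (by omega) MQ.M5.mod5 Γ hΓ

end Pool.Agent.MCG
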