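import Pool.Agent.Lib.MP_c86c76_al.Ba.St

/-!
The image of the last wall is pushed off a segment parallel to the opposite side.
-/

set_option autoImplicit false

namespace Pool.Agent.MCG

open Set Topology Metric Pool.Agent.PT
open scoped unitInterval

noncomputable section

variable {g : ℕ}

theorem last1_len (g : ℕ) (k j : ℤ) : len g k 0 j = 1 := by
  unfold len
  split_ifs <;> simp

theorem last1_TS (hg : 0 < g) {k : ℤ} {z : ℂ} (hz : z ∈ Qc g k 0) : z ∈ TS g := by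
  obtain ⟨j, a, b, h1, h2, h3, rfl⟩ := hz
  rw [last1_len] at h3
  exact pt_TS hg j h1 h3 (by linarith)

theorem last1_wall (hg : 0 < g) (j : ℤ) {b : ℝ} (hb : |b| ≤ 1 / 2) : pt g j 1 b ∈ TS g :=
  pt_TS hg j (by linarith) le_rfl (by linarith)

theorem last1_pe (hg : 0 < g) {i : ℤ} {e e' : EE g} (h : e ∈ Wl hg 1 i) (h' : e' ∈ Wl hg 1 i)
    (he : pe g e = pe g e') : e = e' := by
  obtain ⟨b, hb, rfl⟩ := h
  obtain ⟨b', hb', rfl⟩ := h'
  rw [pe_ep hg 1 (last1_wall hg i hb), pe_ep hg 1 (last1_wall hg i hb')] at he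
  rcases pr_side_eq hg (by linarith) (by linarith) he with ⟨-, c⟩ | ⟨c, -⟩
  · rw [c]
  · have := Int.le_of_dvd (by omega) c.dvd
    omega

/-- The first coordinate of the arc round the tooth. -/
def last1X (t : ℝ) : ℝ := min 1 (3 / 2 - |3 / 4 - 3 / 2 * t|)

/-- The second coordinate of the arc round the tooth. -/
def last1Y (t : ℝ) : ℝ := max (-(1 / 2)) (min (1 / 2) (3 / 4 - 3 / 2 * t))

theorem last1_inj {s t : ℝ} (h1 : last1X s = last1X t) (h2 : last1Y s = last1Y t) : s = t := by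
  unfold last1X at h1
  unfold last1Y at h2
  grind

theorem last1_bd {t : ℝ} (ht : t ∈ Icc (0 : ℝ) 1) : 3 / 4 ≤ last1X t ∧ last1X t ≤ 1 ∧
    |last1Y t| ≤ 1 / 2 ∧ (|last1Y t| = 1 / 2 ∨ last1X t = 1) := by
  obtain ⟨h0, h1⟩ := ht
  unfold last1X last1Y
  grind

theorem last1_mid {b : ℝ} (hb : |b| ≤ 1 / 2) :
    last1X (1 / 2 - 2 / 3 * b) = 1 ∧ last1Y (1 / 2 - 2 / 3 * b) = b := by
  have e : 3 / 4 - 3 / 2 * (1 / 2 - 2 / 3 * b) = b := by ring
  have := abs_le.1 hb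
  rw [last1X, last1Y, e]
  exact ⟨min_eq_left (by linarith), by rw [min_eq_right this.2, max_eq_right this.1]⟩

theorem last1St (_hA : ArcBasSt) (hM : MoveSt) (hC : CutSt) (hG : GearSt g) (hQ : ChartSt g)
    (hL : LiftSt g) (hF : FinSt g) : Last1St g := by
  intro hg f F i hf hT
  obtain ⟨gD, gC, gP⟩ := hG i 0 le_rfl (by norm_num)
  obtain ⟨qC, qI, qCh, qE, qO⟩ := hQ hg i 0 le_rfl (by norm_num)
  obtain ⟨t2, fK, -, fW⟩ := hF hg
  simp only [last1_len] at gP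
  have kC : IsCompact (F '' Wl hg 1 i) := (isCompact_Wl hg 1 i).image hf.cont
  have cl : IsClosed (Qc g i 0) := gC ▸ isClosed_closure
  have frQ : frontier (Qo g i 0) ⊆ Qc g i 0 := gC ▸ frontier_subset_closure
  have aC : ∀ γ, IsCompact (Qc g i 0 ∩ ep hg γ ⁻¹' (F '' Wl hg 1 i)) := fun γ =>
    (isCompact_Pol hg).of_isClosed_subset
      (((continuousOn_ep hg γ).mono fun _ => last1_TS hg).preimage_isClosed_of_isClosed cl
        kC.isClosed) fun z hz => (last1_TS hg hz.1).1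
  have uq : ∀ γ γ', ∀ z ∈ Qc g i 0, ep hg γ z ∈ F '' Wl hg 1 i → ep hg γ' z ∈ F '' Wl hg 1 i →
      γ = γ' := by
    rintro γ γ' z hz ⟨e, he, a⟩ ⟨e', he', a'⟩
    have : e = e' := last1_pe hg he he' (f.injective (by
      rw [← hf.lift, ← hf.lift, a, a', pe_ep hg _ (last1_TS hg hz), pe_ep hg _ (last1_TS hg hz)]))
    exact ep_inj hg (z := z) (by rw [← a, ← a', this])
  have opp : ∀ a b a' b' : ℝ, 0 < a → 0 < a' → pt g i a b ≠ pt g (i + 2 * g) a' b' :=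
    fun a b a' b' h h' e => by
      rw [pt_add_two hg] at e
      linarith [(pt_inj hg e).1]
  have sn : ss g i ≠ 1 := fun h => by
    have m1 : pt g i 1 0 ∈ Qc g i 0 := (gP i 1 0 (by simp)).2.1.2 ⟨by simp, le_rfl⟩
    have m2 : pt g (i + 2 * g) 1 (-0) ∈ Qc g i 0 := (gP _ 1 _ (by simp)).2.1.2 ⟨by simp, le_rfl⟩
    refine opp 1 0 1 (-0) one_pos one_pos (qI m1 m2 ?_)
    rw [qe_in hg i (last1_TS hg m1).1, qe_in hg i (last1_TS hg m2).1, ep_side hg 1 i (by simp), h,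
      mul_one]
  have wl : ∀ γ, ∀ z ∈ frontier (Qo g i 0), ep hg γ z ∈ F '' Wl hg 1 i → ∃ b : ℝ, |b| ≤ 1 / 2 ∧
      ((γ = 1 ∧ z = pt g i 1 b) ∨ (γ = ss g i ∧ z = pt g (i + 2 * g) 1 b)) := by
    rintro γ z hz ⟨e, he, a⟩
    have zT := last1_TS hg (frQ hz)
    obtain ⟨j, x, b, h, rfl⟩ := exists_pt hg z
    obtain ⟨h1, h2, h3⟩ := (gP j x b h).2.2.1 hz
    have x1 : x = 1 := by
      rcases h3 with h3 | h3
      · have ev : pe g (ep hg γ (pt g j x b)) ∈ Ev g := by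
          rw [pe_ep hg γ zT]
          exact (mem_Ev hg h h2).2 h3.ge
        have e1 : e = ep hg γ (pt g j x b) := hf.inj hg (by rw [a, hf.fix _ ev])
        obtain ⟨c, hc, e2⟩ := he
        by_contra hx
        have p1 := congrArg (pe g) (e1.symm.trans e2)
        rw [pe_ep hg γ zT, pe_ep hg 1 (last1_wall hg i hc)] at p1
        have p2 := congrArg (nm g) ((fibSt hg).inner hg
          (by rw [nm_pt hg h]; exact lt_of_le_of_ne h2 hx) (last1_wall hg i hc).1 p1)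
        rw [nm_pt hg h, nm_pt hg (by linarith)] at p2
        exact hx p2
      · exact h3
    subst x1
    have w1 : ep hg γ (pt g j 1 b) ∈ Wl hg γ j := ⟨b, h1, rfl⟩
    have w2 : Wl hg γ j = Wl hg 1 i := hT ⟨⟨γ, j, rfl⟩, e, he, a ▸ w1⟩
    refine ⟨b, h1, ?_⟩
    rcases fW 1 γ i j _ (w2 ▸ w1) w1 with ⟨c, d⟩ | ⟨c, d⟩
    · exact Or.inl ⟨c, pt_congr hg d _ _⟩
    · exact Or.inr ⟨c.trans (one_mul _), pt_congr hg d _ _⟩
  obtain ⟨κ, k1, k2, k3, k4⟩ := hC (Qo g i 0) (Qc g i 0 ∩ ep hg (ss g i) ⁻¹' (F '' Wl hg 1 i))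
    (⋃ γ ∈ {γ | ∃ z ∈ TS g, ep hg γ z ∈ F '' Wl hg 1 i} \ {ss g i},
      Qc g i 0 ∩ ep hg γ ⁻¹' (F '' Wl hg 1 i))
    (fun t => pt g (i + 2 * g) (last1X t) (last1Y t)) gD
    ⟨((continuous_pt g _).comp (f := fun t => (last1X t, last1Y t))
        (by unfold last1X last1Y; fun_prop)).continuousOn,
      fun s _ t _ e => last1_inj (pt_inj hg e).1 (pt_inj hg e).2⟩
    (by
      rintro _ ⟨t, ht, rfl⟩
      obtain ⟨b1, b2, b3, b4⟩ := last1_bd ht
      exact (gP _ _ _ (by linarith)).2.2.2 ⟨b3, b2, b4⟩)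
    (aC _) (((fK _ kC).subset sdiff_subset).isCompact_biUnion fun γ _ => aC γ)
    (by
      rw [disjoint_left]
      intro z hz hz'
      obtain ⟨γ, hγ, a⟩ := mem_iUnion₂.1 hz'
      exact hγ.2 (uq _ _ z hz.1 a.2 hz.2))
    (by
      rintro z ⟨hz, hz'⟩
      obtain ⟨b, hb, ⟨c, -⟩ | ⟨-, c⟩⟩ := wl _ z hz' hz.2
      · exact absurd c sn
      · have := abs_le.1 hb
        refine ⟨1 / 2 - 2 / 3 * b, ⟨by linarith, by linarith⟩, ?_⟩
        simp only [last1_mid hb, c])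
    (by
      rw [disjoint_left]
      rintro z hz ⟨t, ht, e⟩
      obtain ⟨γ, hγ, a⟩ := mem_iUnion₂.1 hz
      obtain ⟨b1, b2, b3, b4⟩ := last1_bd ht
      have fr : z ∈ frontier (Qo g i 0) := e ▸ (gP _ _ _ (by linarith)).2.2.2 ⟨b3, b2, b4⟩
      obtain ⟨b, hb, ⟨-, c⟩ | ⟨c, -⟩⟩ := wl _ z fr a.2
      · exact opp _ _ _ _ one_pos (by linarith) (c.symm.trans e.symm)
      · exact hγ.2 c)
  have lc : Cut (Qo g i 0) fun t => pt g (i + 2 * g) (3 / 4) (1 / 2 - t) :=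
    ⟨⟨((continuous_pt g _).comp (f := fun t : ℝ => ((3 / 4 : ℝ), 1 / 2 - t))
        (by fun_prop)).continuousOn, fun s _ t _ e => by linarith [(pt_inj hg e).2]⟩,
      (gP _ _ _ (by norm_num [abs_of_pos])).2.2.2 (by norm_num [abs_of_pos]),
      (gP _ _ _ (by norm_num [abs_of_pos])).2.2.2 (by norm_num [abs_of_pos]),
      fun t ht => by
        have : |1 / 2 - t| < 1 / 2 := abs_lt.2 ⟨by linarith [ht.2], by linarith [ht.1]⟩
        exact (gP _ _ _ (by linarith)).1.2 ⟨this, by norm_num⟩⟩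
  obtain ⟨η, η1, η2⟩ := hM _ κ _ gD k1 lc
    (by rw [k2]; norm_num [last1X, last1Y, abs_of_pos])
    (by rw [k3]; norm_num [last1X, last1Y, abs_of_pos])
  obtain ⟨h, H, h1, h2, -, h4, h5⟩ := (hL (qe hg i) _ gD (gC ▸ qC) qCh).1 η qE η1
  refine ⟨h, H, h1, h2, fun j e he => h4 e ?_, fun e he b hb p => ?_⟩
  · obtain ⟨b, hb, rfl⟩ := he
    rw [pe_ep hg 1 (last1_wall hg j hb)]
    exact (qO j 1 b (by linarith) le_rfl).2 (Or.inr (Or.inr ⟨rfl, Or.inl rfl⟩))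
  · have b1 := abs_le.1 hb
    have ht : 1 / 2 - b ∈ Icc (0 : ℝ) 1 := ⟨by linarith, by linarith⟩
    have kQ : κ (1 / 2 - b) ∈ Qc g i 0 := by
      rcases ht.1.eq_or_lt with c | c
      · rw [← c]; exact frQ k1.f0
      rcases ht.2.eq_or_lt with d | d
      · rw [d]; exact frQ k1.f1
      · exact gC ▸ subset_closure (k1.mid ⟨c, d⟩)
    have lT : pt g (i + 2 * g) (3 / 4) b ∈ TS g :=
      pt_TS hg _ (by linarith) (by norm_num) (by linarith)
    have e1 := h5 _ (gC ▸ kQ)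
    rw [η2 _ ht, sub_sub_cancel, qe_in hg i lT.1, qe_in hg i (last1_TS hg kQ).1] at e1
    rw [← pe_ep hg 1 lT] at p
    obtain ⟨γ, hγ⟩ := (cov hg).exists_smul p
    rw [← e1, ← h2.eqv, smul_ep, mul_one] at hγ
    have m : ep hg γ (κ (1 / 2 - b)) ∈ F '' Wl hg 1 i := ⟨e, he, (h2.inj hg hγ).symm⟩
    refine k4 _ ht ?_
    by_cases c : γ = ss g i
    · exact Or.inl ⟨kQ, c ▸ m⟩
    · exact Or.inr (mem_iUnion₂.2 ⟨γ, ⟨⟨_, last1_TS hg kQ, m⟩, c⟩, kQ, m⟩)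

end

end Pool.Agent.MCG
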