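import Pool.Agent.Lib.MP_c86c76_al.Top.Main
import Pool.Agent.Lib.MP_c86c76_al.J.St2

/-!
Baer's theorem and the realisation of twists: definitions, basic facts and statements.
-/

set_option autoImplicit false

namespace Pool.Agent.MCG

open Set Topology Metric Pool.Agent.PT
open scoped unitInterval

noncomputable section

variable {g : ℕ}

/-! ### Definitions -/

/-- A closed neighbourhood of the vertex. -/
def Ev (g : ℕ) : Set (Surf g) :=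
  {x | ∃ (k : ℤ) (a b : ℝ), 1 / 2 ≤ |b| ∧ |b| ≤ a ∧ a ≤ 1 ∧ x = pr g (pt g k a b)}

open Classical in
/-- The point `z` of the tile `γ`. -/
def ep (hg : 0 < g) (γ : FG g) (z : ℂ) : EE g :=
  if h : z ∈ TS g then em γ ⟨z, h⟩ else γ • e0 hg

/-- The developing map across the side `k`. -/
def qe (hg : 0 < g) (k : ℤ) (z : ℂ) : EE g :=
  if fibA g k z ≤ 1 then ep hg 1 z else ep hg (ss g k) (z - 2 * ze g k)

/-- The lengths of the teeth of the gear. -/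
def len (g : ℕ) (k : ℤ) (δ : ℝ) (j : ℤ) : ℝ :=
  if j ≡ k [ZMOD (4 * g : ℕ)] then 1 + δ
  else if j ≡ k + 2 * g [ZMOD (4 * g : ℕ)] then 1 - δ else 1

/-- The open gear. -/
def Qo (g : ℕ) (k : ℤ) (δ : ℝ) : Set ℂ :=
  {z | ∃ (j : ℤ) (a b : ℝ), |b| ≤ a ∧ |b| < 1 / 2 ∧ a < len g k δ j ∧ z = pt g j a b}

/-- The closed gear. -/
def Qc (g : ℕ) (k : ℤ) (δ : ℝ) : Set ℂ :=
  {z | ∃ (j : ℤ) (a b : ℝ), |b| ≤ a ∧ |b| ≤ 1 / 2 ∧ a ≤ len g k δ j ∧ z = pt g j a b}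

/-- The middle part of the wall `k` of the tile `γ`. -/
def Wl (hg : 0 < g) (γ : FG g) (k : ℤ) : Set (EE g) :=
  {e | ∃ b : ℝ, |b| ≤ 1 / 2 ∧ e = ep hg γ (pt g k 1 b)}

/-- An equivariant lift that is the identity over the neighbourhood of the vertex. -/
structure Lf (f : Surf g ≃ₜ Surf g) (F : EE g → EE g) : Prop where
  cont : Continuous F
  lift : ∀ e, pe g (F e) = f (pe g e)
  eqv : ∀ (γ : FG g) (e : EE g), F (γ • e) = γ • F e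
  fix : ∀ e, pe g e ∈ Ev g → F e = e
  fx : ∀ x ∈ Ev g, f x = x

/-- The walls touched by the image of the wall `i`. -/
def Tch (hg : 0 < g) (F : EE g → EE g) (i : ℤ) : Set (Set (EE g)) :=
  {W | (∃ γ k, W = Wl hg γ k) ∧ ∃ e ∈ Wl hg 1 i, F e ∈ W}

/-- The wall `j` is fixed pointwise. -/
def Fx (hg : 0 < g) (F : EE g → EE g) (j : ℤ) : Prop := ∀ e ∈ Wl hg 1 j, F e = e

/-- Isotopic to the identity relative to `c`. -/
def IsoAt {S : Type} [TopologicalSpace S] (c : S) (f : S ≃ₜ S) : Prop :=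
  ∃ H : I → S ≃ₜ S, IFam H ∧ H 0 = 1 ∧ H 1 = f ∧ ∀ t, H t c = c

/-- Up to an isotopy relative to the centre, `f` is the identity on the half-size polygon. -/
def Near (f : Surf g ≃ₜ Surf g) : Prop :=
  ∃ u, IsoAt (cc g) u ∧ ∀ z, nm g z ≤ 1 / 2 → u (f (pr g z)) = pr g z

/-- The reflection. -/
def IsRef (s : Surf g ≃ₜ Surf g) : Prop :=
  ∀ z ∈ Pol g, s (pr g z) = pr g ((starRingEnd ℂ) z)

/-- A cut-off function. -/
def lam (s : ℝ) : ℝ := max 0 (min 1 (7 - 8 * s))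

/-- Logarithmic coordinates at the vertex, lifted to the tree of polygons. -/
structure VA (hg : 0 < g) (D : Surf g ≃ₜ Surf g) (L : ℂ → EE g) : Prop where
  cont : Continuous L
  lift : ∀ w, pe g (L w) = D (pr g (Complex.exp w))
  per : ∀ w, L (w + 2 * Real.pi * Complex.I) = rr g • L w
  val : ∀ (k : ℕ) (ρ : ℝ) (w : ℂ), 0 < ρ → ρ ≤ 1 → Complex.exp w = pt g k ρ (-ρ) →
    w.im = (k - 1 / 2) * Real.pi / (2 * g) →
    L w = ep hg (xw g 0 k) (pt g ((2 * g + 1) * k + 2 * g) (1 - ρ) (-(1 - ρ)))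

/-- A lifted annulus with holonomy `w`. -/
structure Ann (a : ℝ × ℝ → EE g) (w : FG g) : Prop where
  cont : ContinuousOn a (Icc 0 1 ×ˢ Icc 0 1)
  per : ∀ β ∈ Icc (0 : ℝ) 1, a (β, 1) = w • a (β, 0)
  inj : InjOn (pe g ∘ a) (Icc 0 1 ×ˢ Ico 0 1)
  op : IsOpen ((pe g ∘ a) '' (Ioo 0 1 ×ˢ Icc 0 1))

/-- The action of the twist about the diagonal `x_0 ... x_(n-1)`. -/
def TnF (g n : ℕ) (φ : MulAut (FG g)) : Prop := ∀ j < 2 * g, φ (xx g (j : ℕ)) =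
  if j < n then xx g j else if j % 2 = 1 then xw g 0 n * xx g j else xx g j * (xw g 0 n)⁻¹

/-! ### Basic facts -/

theorem cov (hg : 0 < g) : Cov (FG g) (pe g) (vv g) := eCovSt hg (fibSt hg)

theorem pt_TS (hg : 0 < g) (k : ℤ) {a b : ℝ} (h : |b| ≤ a) (ha : a ≤ 1) (hb : |b| < 1) :
    pt g k a b ∈ TS g :=
  ⟨pt_mem hg k h ha, fun hv => hb.ne ((vtx_iff hg h).1 hv).2⟩

theorem ep_mem (hg : 0 < g) (γ : FG g) {z : ℂ} (h : z ∈ TS g) : ep hg γ z = em γ ⟨z, h⟩ :=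
  dif_pos h

theorem smul_ep (hg : 0 < g) (δ γ : FG g) (z : ℂ) : δ • ep hg γ z = ep hg (δ * γ) z := by
  unfold ep
  split_ifs
  · rfl
  · rw [smul_smul]

theorem ep_zero (hg : 0 < g) (γ : FG g) : ep hg γ 0 = γ • e0 hg := by
  rw [ep_mem hg γ (zero_mem_TS hg), e0, smul_em, mul_one]

theorem pe_ep (hg : 0 < g) (γ : FG g) {z : ℂ} (h : z ∈ TS g) : pe g (ep hg γ z) = pr g z := by
  rw [ep_mem hg γ h, pe_em]

theorem ep_surj (hg : 0 < g) (e : EE g) : ∃ γ, ∃ z ∈ TS g, e = ep hg γ z := by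
  obtain ⟨⟨γ, z⟩⟩ := e
  exact ⟨γ, z, z.2, (ep_mem hg γ z.2).symm⟩

theorem continuousOn_ep (hg : 0 < g) (γ : FG g) : ContinuousOn (ep hg γ) (TS g) := by
  rw [continuousOn_iff_continuous_domRestrict]
  have : (TS g).domRestrict (ep hg γ) = fun z => em γ z := funext fun z => ep_mem hg γ z.2
  rw [this]
  exact continuous_quot_mk.comp (continuous_const.prodMk continuous_id)

theorem ep_eq_iff (hg : 0 < g) {γ γ' : FG g} {z z' : ℂ} (h : z ∈ TS g) (h' : z' ∈ TS g) :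
    ep hg γ z = ep hg γ' z' ↔
      (γ = γ' ∧ z = z') ∨ ∃ k : ℤ, z' = z - 2 * ze g k ∧ γ' = γ * ss g k := by
  rw [ep_mem hg γ h, ep_mem hg γ' h', eFibSt hg, Subtype.mk.injEq]

theorem ep_inj (hg : 0 < g) {γ γ' : FG g} {z : ℂ} (h : ep hg γ z = ep hg γ' z) : γ = γ' := by
  rw [← mul_one γ, ← mul_one γ', ← smul_ep, ← smul_ep] at h
  exact (cov hg).cancel h

theorem ep_side (hg : 0 < g) (γ : FG g) (k : ℤ) {b : ℝ} (hb : |b| < 1) :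
    ep hg γ (pt g k 1 b) = ep hg (γ * ss g k) (pt g (k + 2 * g) 1 (-b)) :=
  (ep_eq_iff hg (pt_TS hg k hb.le le_rfl hb)
    (pt_TS hg _ (by rw [abs_neg]; exact hb.le) le_rfl (by rwa [abs_neg]))).2
    (Or.inr ⟨k, (pt_sub hg k b).symm, rfl⟩)

theorem pt_sub' (hg : 0 < g) (k : ℤ) (a b : ℝ) :
    pt g k a b - 2 * ze g k = pt g (k + 2 * g) (2 - a) (-b) := by
  rw [pt_add_two hg]; simp only [pt]; push_cast; ring

theorem qe_in (hg : 0 < g) (k : ℤ) {z : ℂ} (hz : z ∈ Pol g) : qe hg k z = ep hg 1 z :=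
  if_pos ((re_le_nm g z k).trans ((mem_Pol hg).1 hz))

theorem qe_out (hg : 0 < g) (k : ℤ) {a b : ℝ} (ha : 1 ≤ a) (hb : |b| < 1) :
    qe hg k (pt g k a b) = ep hg (ss g k) (pt g (k + 2 * g) (2 - a) (-b)) := by
  unfold qe
  rw [fibA_pt, pt_sub' hg]
  split_ifs with h
  · obtain rfl : a = 1 := le_antisymm h ha
    rw [ep_side hg 1 k hb, one_mul, show (2 : ℝ) - 1 = 1 by norm_num]
  · rfl

theorem continuousOn_qe (hg : 0 < g) (k : ℤ) :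
    ContinuousOn (qe hg k) (TS g ∪ {z | z - 2 * ze g k ∈ TS g}) := by
  have hc : Continuous (fibA g k) := by unfold fibA; fun_prop
  have h1 : ∀ z, z - 2 * ze g k ∈ TS g → 1 ≤ fibA g k z := fun z hz => by
    have := (re_le_nm g _ (k + 2 * g)).trans ((mem_Pol hg).1 hz.1)
    rw [← fib_pt hg k z, pt_sub' hg] at this
    change fibA g _ _ ≤ 1 at this
    rw [fibA_pt] at this
    linarith
  have h2 : ∀ z ∈ TS g, fibA g k z ≤ 1 := fun z hz =>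
    (re_le_nm g z k).trans ((mem_Pol hg).1 hz.1)
  have h3 : ∀ z ∈ TS g ∪ {z | z - 2 * ze g k ∈ TS g}, fibA g k z = 1 →
      z ∈ TS g ∧ z - 2 * ze g k ∈ TS g := by
    intro z hz e
    obtain ⟨b, rfl⟩ : ∃ b, z = pt g k 1 b := ⟨fibB g k z, by rw [← e, fib_pt hg]⟩
    have hb : |b| < 1 := by
      rcases hz with hz | hz
      · have := abs_le_of_nm hg ((mem_Pol hg).1 hz.1)
        exact this.lt_of_ne fun e => hz.2 ((vtx_iff hg this).2 ⟨rfl, e⟩)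
      · rw [mem_ofPred_eq, pt_sub hg] at hz
        have := abs_le_of_nm hg ((mem_Pol hg).1 hz.1)
        rw [← abs_neg]
        exact this.lt_of_ne fun e => hz.2 ((vtx_iff hg this).2 ⟨rfl, e⟩)
    refine ⟨pt_TS hg k hb.le le_rfl hb, ?_⟩
    rw [pt_sub hg]
    exact pt_TS hg _ (by rw [abs_neg]; exact hb.le) le_rfl (by rwa [abs_neg])
  refine ContinuousOn.if (fun z hz => ?_) ?_ ?_
  · have e := frontier_le_subset_eq hc continuous_const hz.2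
    obtain ⟨i1, i2⟩ := h3 z hz.1 e
    exact (ep_eq_iff hg i1 i2).2 (Or.inr ⟨k, rfl, (one_mul _).symm⟩)
  · refine (continuousOn_ep hg 1).mono fun z hz => ?_
    have e : fibA g k z ≤ 1 := (isClosed_le hc continuous_const).closure_subset hz.2
    exact hz.1.elim id fun h => (h3 z hz.1 (le_antisymm e (h1 z h))).1
  · refine (continuousOn_ep hg _).comp (by fun_prop) fun z hz => ?_
    have e : 1 ≤ fibA g k z := closure_minimal (fun w (hw : ¬ fibA g k w ≤ 1) => (not_le.1 hw).le)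
      (isClosed_le continuous_const hc) hz.2
    exact hz.1.elim (fun h => (h3 z hz.1 (le_antisymm (h2 z h) e)).2) id

theorem Wl_congr (hg : 0 < g) (γ : FG g) {k j : ℤ} (h : k ≡ j [ZMOD (4 * g : ℕ)]) :
    Wl hg γ k = Wl hg γ j := by
  simp only [Wl, pt_congr hg h]

theorem Wl_flip (hg : 0 < g) (γ : FG g) (k : ℤ) : Wl hg (γ * ss g k) (k + 2 * g) = Wl hg γ k := by
  ext e
  refine ⟨fun ⟨b, h, e⟩ => ⟨-b, by rwa [abs_neg], ?_⟩, fun ⟨b, h, e⟩ => ⟨-b, by rwa [abs_neg], ?_⟩⟩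
  · rw [e, ep_side hg γ k (by rw [abs_neg]; linarith), neg_neg]
  · rw [e, ep_side hg γ k (by linarith)]

theorem smul_mem_Wl (hg : 0 < g) (δ : FG g) {γ : FG g} {k : ℤ} {e : EE g} (h : e ∈ Wl hg γ k) :
    δ • e ∈ Wl hg (δ * γ) k := by
  obtain ⟨b, h, rfl⟩ := h
  exact ⟨b, h, smul_ep hg δ γ _⟩

theorem isCompact_Wl (hg : 0 < g) (γ : FG g) (k : ℤ) : IsCompact (Wl hg γ k) := by
  have : Wl hg γ k = (fun b => ep hg γ (pt g k 1 b)) '' Icc (-(1 / 2)) (1 / 2) := by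
    ext e
    exact ⟨fun ⟨b, h, e⟩ => ⟨b, abs_le.1 h, e.symm⟩, fun ⟨b, h, e⟩ => ⟨b, abs_le.2 h, e.symm⟩⟩
  rw [this]
  refine isCompact_Icc.image_of_continuousOn ((continuousOn_ep hg γ).comp
    ((continuous_pt g k).comp (f := fun b : ℝ => ((1 : ℝ), b)) (by fun_prop)).continuousOn
    fun b hb => ?_)
  have := abs_le.2 hb
  exact pt_TS hg k (by linarith) le_rfl (by linarith)

/-- Two points on walls with the same projection. -/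
theorem pr_side_eq (hg : 0 < g) {k j : ℤ} {b b' : ℝ} (hb : |b| < 1) (hb' : |b'| ≤ 1)
    (e : pr g (pt g k 1 b) = pr g (pt g j 1 b')) :
    (j ≡ k [ZMOD (4 * g : ℕ)] ∧ b' = b) ∨ (j ≡ k + 2 * g [ZMOD (4 * g : ℕ)] ∧ b' = -b) := by
  have m := pt_TS hg k hb.le le_rfl hb
  rcases ((fibSt hg).1 _ m.1 _ (pt_mem hg j hb' le_rfl)).1 e with h | ⟨l, h⟩ | ⟨h, -⟩
  · have := eFib_frame hg hb hb' h
    rw [pt_congr hg this] at h
    exact Or.inl ⟨this, (pt_inj hg h).2.symm⟩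
  · obtain ⟨c, hc, e'⟩ := eFib_side hg m (h ▸ pt_mem hg j hb' le_rfl)
    have i1 := eFib_frame hg hb hc.le e'
    rw [ze_congr hg i1, pt_sub hg] at h
    have i2 := eFib_frame hg (by rwa [abs_neg]) hb' h.symm
    rw [pt_congr hg i2] at h
    exact Or.inr ⟨i2, (pt_inj hg h).2⟩
  · exact absurd h m.2

theorem mem_Ev (hg : 0 < g) {k : ℤ} {a b : ℝ} (h : |b| ≤ a) (ha : a ≤ 1) :
    pr g (pt g k a b) ∈ Ev g ↔ 1 / 2 ≤ |b| := by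
  refine ⟨fun ⟨j, a', b', h1, h2, h3, e⟩ => ?_, fun h1 => ⟨k, a, b, h1, h, ha, rfl⟩⟩
  rcases h3.lt_or_eq with h3 | rfl
  · have := (fibSt hg).inner hg (by rwa [nm_pt hg h2]) (pt_mem hg k h ha) e.symm
    rcases pt_eq_pt hg h2 h (by linarith) this with ⟨-, ⟨-, i⟩ | ⟨-, i, i'⟩ | ⟨-, i, i'⟩⟩
    · rwa [i]
    · rwa [i', abs_neg, ← i]
    · rwa [i', ← abs_neg, ← i]
  rcases ha.lt_or_eq with ha | rfl
  · have := (fibSt hg).inner hg (by rwa [nm_pt hg h]) (pt_mem hg j h2 h3) e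
    have i := congrArg (nm g) this
    rw [nm_pt hg h, nm_pt hg h2] at i
    exact absurd i ha.ne
  rcases h.lt_or_eq with h | h
  · rcases pr_side_eq hg h h2 e with ⟨-, i⟩ | ⟨-, i⟩
    · rwa [← i]
    · rwa [← abs_neg, ← i]
  · rw [h]; norm_num

theorem vv_mem_Ev : vv g ∈ Ev g := ⟨0, 1, 1, by norm_num, by norm_num, le_rfl, rfl⟩

theorem Lf.one : Lf (g := g) 1 id :=
  ⟨continuous_id, fun _ => rfl, fun _ _ => rfl, fun _ _ => rfl, fun _ _ => rfl⟩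

theorem Lf.comp {f h : Surf g ≃ₜ Surf g} {F H : EE g → EE g} (a : Lf h H) (b : Lf f F) :
    Lf (h * f) (H ∘ F) :=
  ⟨a.cont.comp b.cont, fun e => by simp [a.lift, b.lift], fun γ e => by simp [a.eqv, b.eqv],
    fun e he => by rw [Function.comp, b.fix e he, a.fix e he],
    fun x hx => by rw [Homeomorph.mul_apply, b.fx x hx, a.fx x hx]⟩

theorem Lf.inj (hg : 0 < g) {f : Surf g ≃ₜ Surf g} {F : EE g → EE g} (a : Lf f F) :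
    Function.Injective F := fun e e' h => by
  obtain ⟨γ, rfl⟩ := (cov hg).exists_smul (e := e) (e' := e')
    (f.injective (by rw [← a.lift, ← a.lift, h]))
  rw [a.eqv] at h
  rw [(cov hg).cancel (h.trans (one_smul _ _).symm), one_smul]

section Iso

variable {S : Type} [TopologicalSpace S] {c : S} {f h : S ≃ₜ S}

theorem IsoAt.one : IsoAt c 1 := ⟨fun _ => 1, continuous_snd, rfl, rfl, fun _ => rfl⟩

theorem IsoAt.fix (a : IsoAt c f) : f c = c := by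
  obtain ⟨H, -, -, rfl, h⟩ := a
  exact h 1

theorem IsoAt.mul (a : IsoAt c f) (b : IsoAt c h) : IsoAt c (f * h) := by
  obtain ⟨H, a1, a2, rfl, a3⟩ := a
  obtain ⟨K, b1, b2, rfl, b3⟩ := b
  exact ⟨fun t => H t * K t, a1.comp (continuous_fst.prodMk b1), by simp only [a2, b2, mul_one],
    rfl, fun t => by rw [Homeomorph.mul_apply, b3, a3]⟩

theorem IsoAt.conj (a : IsoAt c f) (h : S ≃ₜ S) (hc : h c = c) : IsoAt c (h * f * h⁻¹) := by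
  obtain ⟨H, a1, a2, rfl, a3⟩ := a
  have e : h⁻¹ c = c := h.symm_apply_eq.2 hc.symm
  exact ⟨fun t => h * H t * h⁻¹, h.continuous.comp (a1.comp (continuous_fst.prodMk
    (h⁻¹.continuous.comp continuous_snd))), by simp only [a2, mul_one, mul_inv_cancel], rfl,
    fun t => by rw [Homeomorph.mul_apply, Homeomorph.mul_apply, e, a3, hc]⟩

variable [CompactSpace S] [T2Space S]

theorem IsoAt.inv (a : IsoAt c f) : IsoAt c f⁻¹ := by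
  obtain ⟨H, a1, a2, rfl, a3⟩ := a
  exact ⟨fun t => (H t)⁻¹, (famSt S).1 H a1, by simp only [a2, inv_one], rfl,
    fun t => (H t).symm_apply_eq.2 (a3 t).symm⟩

theorem IsoAt.isoId (a : IsoAt c f) : IsoId f := by
  obtain ⟨H, a1, a2, a3, -⟩ := a
  exact ((famSt S).2.1 f).2 ⟨H, a1, a2, a3⟩

theorem isoId_iff : IsoId f ↔ f ∈ Subgroup.normalClosure {f : S ≃ₜ S | IsoId f} :=
  ⟨fun a => Subgroup.subset_normalClosure a, (famSt S).2.2.1 f⟩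

theorem IsoId.mul (a : IsoId f) (b : IsoId h) : IsoId (f * h) :=
  isoId_iff.2 (mul_mem (isoId_iff.1 a) (isoId_iff.1 b))

theorem IsoId.inv (a : IsoId f) : IsoId f⁻¹ := isoId_iff.2 (inv_mem (isoId_iff.1 a))

theorem IsoId.conj (a : IsoId f) (h : S ≃ₜ S) : IsoId (h * f * h⁻¹) :=
  isoId_iff.2 (Subgroup.normalClosure_normal.conj_mem _ (isoId_iff.1 a) h)

theorem isoId_one : IsoId (1 : S ≃ₜ S) := isoId_iff.2 (one_mem _)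

end Iso

/-! ### Statements: the kernel -/

def GearSt (g : ℕ) : Prop := ∀ (k : ℤ) (δ : ℝ), 0 ≤ δ → δ ≤ 1 / 4 →
  Disc (Qo g k δ) ∧ closure (Qo g k δ) = Qc g k δ ∧ ∀ (j : ℤ) (a b : ℝ), |b| ≤ a →
    (pt g j a b ∈ Qo g k δ ↔ |b| < 1 / 2 ∧ a < len g k δ j) ∧
    (pt g j a b ∈ Qc g k δ ↔ |b| ≤ 1 / 2 ∧ a ≤ len g k δ j) ∧
    (pt g j a b ∈ frontier (Qo g k δ) ↔
      |b| ≤ 1 / 2 ∧ a ≤ len g k δ j ∧ (|b| = 1 / 2 ∨ a = len g k δ j))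

def ChartSt (g : ℕ) : Prop := ∀ (hg : 0 < g) (k : ℤ) (δ : ℝ), 0 ≤ δ → δ ≤ 1 / 4 →
  ContinuousOn (qe hg k) (Qc g k δ) ∧ InjOn (qe hg k) (Qc g k δ) ∧
  Chart (pe g ∘ qe hg k) (Qo g k δ) ∧ (∀ z ∈ Qo g k δ, pe g (qe hg k z) ∉ Ev g) ∧
  ∀ (j : ℤ) (a b : ℝ), |b| ≤ a → a ≤ 1 →
    (pr g (pt g j a b) ∉ (pe g ∘ qe hg k) '' Qo g k δ ↔ 1 / 2 ≤ |b| ∨
      (j ≡ k + 2 * g [ZMOD (4 * g : ℕ)] ∧ a = 1 - δ) ∨
      (a = 1 ∧ (δ = 0 ∨ ¬ j ≡ k [ZMOD (2 * g : ℕ)])))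

def LiftSt (g : ℕ) : Prop := ∀ (q : ℂ → EE g) (U : Set ℂ), Disc U → ContinuousOn q (closure U) →
  Chart (pe g ∘ q) U →
  (∀ η, (∀ z ∈ U, pe g (q z) ∉ Ev g) → PT.Rel U η → ∃ h H, IsoId h ∧ Lf h H ∧
    (∀ x ∉ (pe g ∘ q) '' U, h x = x) ∧ (∀ e, pe g e ∉ (pe g ∘ q) '' U → H e = e) ∧
    ∀ z ∈ closure U, H (q z) = q (η z)) ∧
  ∀ C : Set (EE g), IsPreconnected C → (∀ e ∈ C, pe g e ∈ (pe g ∘ q) '' U) →
    ∃ γ : FG g, ∀ e ∈ C, ∃ z ∈ U, e = γ • q z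

def FinSt (g : ℕ) : Prop := ∀ hg : 0 < g, T2Space (EE g) ∧
  (∀ K : Set (EE g), IsCompact K → {γ | ∃ z ∈ TS g, ep hg γ z ∈ K}.Finite) ∧
  (∀ (F : EE g → EE g) (i : ℤ), Continuous F → (Tch hg F i).Finite) ∧
  ∀ (γ γ' : FG g) (k k' : ℤ), ∀ e ∈ Wl hg γ k, e ∈ Wl hg γ' k' →
    (γ' = γ ∧ k' ≡ k [ZMOD (4 * g : ℕ)]) ∨ (γ' = γ * ss g k ∧ k' ≡ k + 2 * g [ZMOD (4 * g : ℕ)])

def LeafSt (g : ℕ) : Prop := ∀ (hg : 0 < g) (T : Set (Set (EE g))) (i : ℤ), T.Finite →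
  (∀ W ∈ T, ∃ γ k, W = Wl hg γ k) → (∃ W ∈ T, W ≠ Wl hg 1 i) →
  ∃ γ k, Wl hg γ k ∈ T ∧ Wl hg γ k ≠ Wl hg 1 i ∧ ∀ j, Wl hg γ j ∈ T → j ≡ k [ZMOD (4 * g : ℕ)]

def PshSt (g : ℕ) : Prop := ∀ (hg : 0 < g) (f : Surf g ≃ₜ Surf g) (F : EE g → EE g) (i : ℤ)
  (γ : FG g) (k : ℤ), Lf f F → Wl hg γ k ∈ Tch hg F i → Wl hg γ k ≠ Wl hg 1 i →
  (∀ j, Wl hg γ j ∈ Tch hg F i → j ≡ k [ZMOD (4 * g : ℕ)]) →
  ∃ h H, IsoId h ∧ Lf h H ∧ (∀ j, ¬ j ≡ k [ZMOD (2 * g : ℕ)] → Fx hg H j) ∧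
    Tch hg (H ∘ F) i ⊆ Tch hg F i \ {Wl hg γ k}

def Last1St (g : ℕ) : Prop := ∀ (hg : 0 < g) (f : Surf g ≃ₜ Surf g) (F : EE g → EE g) (i : ℤ),
  Lf f F → Tch hg F i ⊆ {Wl hg 1 i} → ∃ h H, IsoId h ∧ Lf h H ∧ (∀ j, Fx hg H j) ∧
    ∀ e ∈ Wl hg 1 i, ∀ b : ℝ, |b| ≤ 1 / 2 → pe g (H (F e)) ≠ pr g (pt g (i + 2 * g) (3 / 4) b)

def Last2St (g : ℕ) : Prop := ∀ (hg : 0 < g) (f : Surf g ≃ₜ Surf g) (F : EE g → EE g) (i : ℤ),
  Lf f F → Tch hg F i ⊆ {Wl hg 1 i} →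
  (∀ e ∈ Wl hg 1 i, ∀ b : ℝ, |b| ≤ 1 / 2 → pe g (F e) ≠ pr g (pt g (i + 2 * g) (3 / 4) b)) →
  ∃ h H, IsoId h ∧ Lf h H ∧ (∀ j, ¬ j ≡ i [ZMOD (2 * g : ℕ)] → Fx hg H j) ∧ Fx hg (H ∘ F) i

def FAlexSt (g : ℕ) : Prop := ∀ (hg : 0 < g) (f : Surf g ≃ₜ Surf g) (F : EE g → EE g),
  Lf f F → (∀ j, Fx hg F j) → IsoId f

def KerSt (g : ℕ) : Prop := ∀ (f : Surf g ≃ₜ Surf g) (F : EE g → EE g), Lf f F → IsoId f

/-! ### Statements: germs at the centre -/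

def CDiscSt (g : ℕ) : Prop := ∀ ρ : ℝ, 0 < ρ → ρ < 1 →
  (∀ h, PT.Rel (ball 0 ρ) h → ∃ u : Surf g ≃ₜ Surf g, (∀ x ∉ pr g '' ball 0 ρ, u x = x) ∧
    ∀ z ∈ closedBall (0 : ℂ) ρ, u (pr g z) = pr g (h z)) ∧
  ∀ u : Surf g ≃ₜ Surf g, (∀ x ∉ pr g '' ball 0 ρ, u x = x) →
    IsoId u ∧ (u (cc g) = cc g → IsoAt (cc g) u)

def NearSt (g : ℕ) : Prop := ∀ (f h : Surf g ≃ₜ Surf g) (ε r : ℝ) (x : ℂ), f (cc g) = cc g →
  0 < r → ε ≤ 7 / 8 → ball x r ⊆ ball 0 ε →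
  (∀ z ∈ ball (0 : ℂ) ε, f (pr g z) ∈ pr g '' ball 0 (7 / 8)) →
  (∀ y ∉ pr g '' ball 0 (7 / 8), h y = y) → (∀ z ∈ ball x r, h (f (pr g z)) = pr g z) → Near f

def GermSSt (g : ℕ) : Prop := (∃ s : Surf g ≃ₜ Surf g, IsRef s) ∧
  ∀ R s f : Surf g ≃ₜ Surf g, IsRot R → IsRef s → f (cc g) = cc g →
    ∃ k : ℕ, Near (f * R ^ k) ∨ Near (f * R ^ k * s)

def RotSt (g : ℕ) : Prop :=
  (∀ α : ℝ, ∃ u : Surf g ≃ₜ Surf g, IsoAt (cc g) u ∧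
    ∀ z ∈ Pol g, u (pr g z) = pr g (z * Complex.exp ((α * lam ‖z‖ : ℝ) * Complex.I))) ∧
  (∀ z, nm g z ≤ 1 / 2 → ‖z‖ ≤ 3 / 4) ∧
  (∀ R : Surf g ≃ₜ Surf g, IsRot R → Near R) ∧ ∀ T : Surf g ≃ₜ Surf g, IsTw T → Near T

/-! ### Statements: twists -/

def VArcSt (g : ℕ) : Prop := ∀ (hg : 0 < g) (D : Surf g ≃ₜ Surf g), IsDual D → ∃ L, VA hg D L

def BTwSt (g : ℕ) : Prop := ∀ (hg : 0 < g) (D : Surf g ≃ₜ Surf g) (L : ℂ → EE g), IsDual D →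
  VA hg D L → ∀ m : ℤ, ∃ (B : Surf g ≃ₜ Surf g) (F : EE g → EE g), IsoId B ∧ Continuous F ∧
    (∀ e, pe g (F e) = B (pe g e)) ∧ (∀ (γ : FG g) (e : EE g), F (γ • e) = γ • F e) ∧
    (∀ x ∈ Ev g, B x = x) ∧ ∀ w, nm g (Complex.exp w) ≤ 1 / 2 → F (L w) = rr g ^ m • L w

def TwSt (g : ℕ) : Prop := ∀ (a : ℝ × ℝ → EE g) (w : FG g), Ann a w →
  ∃ T : Surf g ≃ₜ Surf g, (∀ x ∉ (pe g ∘ a) '' (Ioo 0 1 ×ˢ Icc 0 1), T x = x) ∧
    ∀ F : EE g → EE g, Continuous F → (∀ e, pe g (F e) = T (pe g e)) →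
      ∀ θ ∈ Icc (0 : ℝ) 1, ∀ γ δ : FG g, F (γ • a (0, θ)) = δ • a (0, θ) →
        F (γ • a (1, θ)) = (δ * w) • a (1, θ)

def TGeoSt (g : ℕ) : Prop := ∀ (hg : 0 < g) (n : ℕ), n % 2 = 1 → n < 2 * g →
  ∃ a : ℝ × ℝ → EE g, Ann a (xw g 0 n) ∧
    (∀ x ∈ (pe g ∘ a) '' (Ioo 0 1 ×ˢ Icc 0 1), x ∉ Ev g ∧ ∀ (j : ℤ) (s : ℝ), 0 ≤ j → j < 4 * g →
      0 ≤ s → s ≤ 1 → x = pr g (pt g j s 0) → n ≤ j ∧ j < 2 * g ∧ 1 / 8 < s ∧ s < 3 / 8) ∧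
    ∀ j : ℤ, n ≤ j → j < 2 * g → ∃ θ ∈ Icc (0 : ℝ) 1,
      a (0, θ) = ep hg (xw g 0 n) (pt g j (1 / 8) 0) ∧ a (1, θ) = ep hg (xw g 0 n) (pt g j (3 / 8) 0)

def TPhiSt (g : ℕ) : Prop := ∀ n : ℕ, n % 2 = 1 → n < 2 * g →
  ∃ (T : Surf g ≃ₜ Surf g) (φ : MulAut (FG g)), (∀ x ∈ Ev g, T x = x) ∧ Ind (pe g) T φ ∧ TnF g n φ

end

end Pool.Agent.MCG
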