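import Pool.Agent.Lib.MP_c86c76_al.Ba.Five2
import Pool.Agent.Lib.MP_c86c76_al.Ba.Comb
import Pool.Agent.Lib.MP_c86c76_al.Th.All
import Pool.Agent.Lib.MP_c86c76_al.GL.FiveB
import Pool.Agent.Lib.MP_c86c76_al.Q.F5.Rf

/-!
Property (T) for the mapping class groups of closed surfaces: all genera.
-/

set_option autoImplicit false

namespace Pool.Agent.MCG

open Pool.Agent.MT

universe u

/-- The group of outer classes has property (T) in genus at least five. -/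
theorem mod_hasT {g : ℕ} (hg : 5 ≤ g) : HasT (toMod g).range :=
  have := MG.stab_fg g
  have : Group.FG (toMod g).range := Group.fg_range _
  (MH.fin (fhB (baseB_of MQ.F5.rf51)) g hg).hasT

theorem surf_iff {g : ℕ} (hg : 2 ≤ g) (hN : g < 5 → MB.NoT g) (Γ : Subgroup (ModPM (Surf g)))
    (hΓ : Γ.index ≠ 0) : Group.FG Γ ∧ ∀ S : Finset Γ, Subgroup.closure (S : Set Γ) = ⊤ →
      ((∃ ε > 0, KazU.{u} S ε) ↔ 5 ≤ g) := by
  have : Γ.FiniteIndex := ⟨hΓ⟩
  have fg := surf_fg (by omega) Γ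
  refine ⟨fg, fun S hS => ⟨fun ⟨ε, h0, h⟩ => ?_, fun h =>
    (surf_top hg (mod_hasT h) Γ hΓ).2 S hS⟩⟩
  by_contra h5
  obtain ⟨H, _, _, _, π, v, a, b, c⟩ :=
    hN (by omega) Γ Subgroup.FiniteIndex.index_ne_zero S ε h0
  obtain ⟨w, h1, h2⟩ := (kazU_iff fg).1 h H π v a b
  exact h1 (c w h2)

end Pool.Agent.MCG
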